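import Pool.Agent.H82.FIN.CTi

set_option autoImplicit false

/-!
PROJECT FIN (MP_bf82d2_ag, Finiteness; note 6077), module LB.
The lower bound for `quadInv`.
PROOF. `quad_eq`; every term `mul s (cj φ) * (mul s φ + fs φ) ≥ 0`: `φ ≠ cj φ`: `fs φ = 0`; `φ = cj φ`: `m (m + ν)`, `m` a
natural number, `ν ≥ -1`.  `LB`: for `φ ∉ EX`, `a φ > 0`: `mul s φ + fs φ ≥ 0` and `a φ (mul s φ + fs φ) ≤ b mul s (cj φ) (mul s φ +
fs φ)`; for `a φ = 0` trivial; for `φ ∈ EX`: `a φ (mul s φ + fs φ) ≤ φ(1) (N φ(1) + 1) ≤ (N + 1) φ(1)^2`.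
`LB0`: `fs φ = 0` where `a φ > 0`.
-/

namespace Pool.Agent.H82.FIN

open Finset Module
open Pool.Agent.H93.Hup (Inv MinInv)
open Pool.Agent.H52.VC (lam subR)
open Pool.Agent.H82.CO (chi quadInv genus nu eps zeta)

variable {G : Type} [Group G] [Fintype G]

/-- the facts on one irreducible character which are used below -/
private theorem lb_facts {N : ℕ} (s : Fin N → G) (hs : Tup s) (φ : G → ℂ) (hφ : IsIrr φ) :
    1 ≤ (φ 1).re ∧ 0 ≤ mul s φ ∧ 0 ≤ mul s (cj φ) ∧ |fs φ| ≤ 1 ∧ mul s φ ≤ N * (φ 1).re := by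
  refine ⟨?_, ?_, ?_, ?_, mul_le s hs φ hφ⟩
  · obtain ⟨d, hd, h⟩ := irr_one φ hφ
    rw [h, Complex.natCast_re]
    exact_mod_cast hd
  · obtain ⟨m, -, h⟩ := mul_nat s hs φ hφ
    rw [h]
    exact Nat.cast_nonneg m
  · obtain ⟨m, -, h⟩ := mul_nat s hs (cj φ) (irr_cj φ hφ)
    rw [h]
    exact Nat.cast_nonneg m
  · by_cases h : φ = cj φ
    · exact fs_self φ hφ h
    · rw [fs_ne φ hφ h, abs_zero]
      exact zero_le_one

theorem quad_term {N : ℕ} (s : Fin N → G) (hs : Tup s) (φ : G → ℂ) (hφ : IsIrr φ) :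
    0 ≤ mul s (cj φ) * (mul s φ + fs φ) := by
  obtain ⟨-, h1, h2, h3, -⟩ := lb_facts s hs φ hφ
  by_cases h : φ = cj φ
  · rw [← h]
    obtain ⟨m, -, hm⟩ := mul_nat s hs φ hφ
    rcases Nat.eq_zero_or_pos m with h0 | h0
    · rw [hm, h0, Nat.cast_zero, zero_mul]
    · have h4 : (1 : ℝ) ≤ mul s φ := by
        rw [hm]
        exact_mod_cast h0
      have h5 := (abs_le.1 h3).1
      exact mul_nonneg h1 (by linarith)
  · rw [fs_ne φ hφ h, add_zero]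
    exact mul_nonneg h2 h1

/-- the sum over `XX G` of terms which live on `EX` -/
private theorem lb_ite (EX : Finset (G → ℂ)) (hE : EX ⊆ XX G) (f : (G → ℂ) → ℝ) :
    ∑ φ ∈ EX, f φ = ∑ φ ∈ XX G, (Set.indicator (EX : Set (G → ℂ)) f φ) := by
  rw [← sum_subset hE (fun φ _ h => Set.indicator_of_notMem (fun h' => h (mem_coe.1 h')) f)]
  exact sum_congr rfl fun φ h => (Set.indicator_of_mem (mem_coe.2 h) f).symm

/-- the comparison of two sums, term by term -/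
private theorem lb_sum {N : ℕ} (s : Fin N → G) (hs : Tup s) (b : ℝ)
    (EX : Finset (G → ℂ)) (hE : EX ⊆ XX G) (t : (G → ℂ) → ℝ)
    (h1 : ∀ φ ∈ XX G, φ ∉ EX → t φ ≤ b * (mul s (cj φ) * (mul s φ + fs φ)))
    (h2 : ∀ φ ∈ XX G, φ ∈ EX → t φ ≤ b * (mul s (cj φ) * (mul s φ + fs φ))
      + (N + 1) * (φ 1).re ^ 2) :
    ∑ φ ∈ XX G, t φ ≤ b * (2 * (quadInv s).re) + (N + 1) * ∑ φ ∈ EX, (φ 1).re ^ 2 := by
  rw [quad_eq s hs, mul_sum, mul_sum, lb_ite EX hE, ← sum_add_distrib]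
  refine sum_le_sum fun φ hφ => ?_
  by_cases h : φ ∈ EX
  · rw [Set.indicator_of_mem (mem_coe.2 h)]
    exact h2 φ hφ h
  · rw [Set.indicator_of_notMem (fun h' => h (mem_coe.1 h')), add_zero]
    exact h1 φ hφ h

theorem LB {N : ℕ} (s : Fin N → G) (hs : Tup s) (b : ℝ) (hb : ∀ φ ∈ XX G, (φ 1).re ≤ b)
    (EX : Finset (G → ℂ)) (hE : EX ⊆ XX G) (a : (G → ℂ) → ℝ) (h0 : ∀ φ ∈ XX G, 0 ≤ a φ)
    (h1 : ∀ φ ∈ XX G, a φ ≤ (φ 1).re)
    (hm : ∀ φ ∈ XX G, φ ∉ EX → 0 < a φ → 1 ≤ mul s φ ∧ 1 ≤ mul s (cj φ)) :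
    ∑ φ ∈ XX G, a φ * (mul s φ + fs φ) ≤ b * (2 * (quadInv s).re) + (N + 1) * ∑ φ ∈ EX, (φ 1).re ^ 2 := by
  refine lb_sum s hs b EX hE (fun φ => a φ * (mul s φ + fs φ)) (fun φ hφ hE' => ?_)
    (fun φ hφ hE' => ?_)
  · obtain ⟨f1, f2, f3, f4, f5⟩ := lb_facts s hs φ ((mem_XX φ).1 hφ)
    have g1 := quad_term s hs φ ((mem_XX φ).1 hφ)
    have g2 := hb φ hφ
    have g3 := (abs_le.1 f4).1
    rcases (h0 φ hφ).eq_or_lt with e | e
    · rw [← e, zero_mul]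
      exact mul_nonneg (by linarith) g1
    · obtain ⟨k1, k2⟩ := hm φ hφ hE' e
      have k3 : 0 ≤ mul s φ + fs φ := by linarith
      have k4 : a φ ≤ b := (h1 φ hφ).trans g2
      have k5 : a φ * (mul s φ + fs φ) ≤ b * (mul s φ + fs φ) :=
        mul_le_mul_of_nonneg_right k4 k3
      have k6 : 1 * (mul s φ + fs φ) ≤ mul s (cj φ) * (mul s φ + fs φ) :=
        mul_le_mul_of_nonneg_right k2 k3
      have k7 : b * (1 * (mul s φ + fs φ)) ≤ b * (mul s (cj φ) * (mul s φ + fs φ)) :=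
        mul_le_mul_of_nonneg_left k6 (by linarith)
      rw [one_mul] at k7
      exact k5.trans k7
  · obtain ⟨f1, f2, f3, f4, f5⟩ := lb_facts s hs φ ((mem_XX φ).1 hφ)
    have g1 := quad_term s hs φ ((mem_XX φ).1 hφ)
    have g2 := hb φ hφ
    have g3 := (abs_le.1 f4).2
    have g4 : 0 ≤ b * (mul s (cj φ) * (mul s φ + fs φ)) := mul_nonneg (by linarith) g1
    have g5 : a φ * (mul s φ + fs φ) ≤ a φ * (N * (φ 1).re + (φ 1).re) :=
      mul_le_mul_of_nonneg_left (by linarith) (h0 φ hφ)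
    have g6 : 0 ≤ (N : ℝ) * (φ 1).re + (φ 1).re := by
      have : 0 ≤ (N : ℝ) * (φ 1).re := mul_nonneg (Nat.cast_nonneg N) (by linarith)
      linarith
    have g7 : a φ * (N * (φ 1).re + (φ 1).re) ≤ (φ 1).re * (N * (φ 1).re + (φ 1).re) :=
      mul_le_mul_of_nonneg_right (h1 φ hφ) g6
    have g8 : (φ 1).re * (N * (φ 1).re + (φ 1).re) = (N + 1) * (φ 1).re ^ 2 := by ring
    rw [g8] at g7
    linarith [g5.trans g7]

theorem LB0 {N : ℕ} (s : Fin N → G) (hs : Tup s) (b : ℝ) (hb : ∀ φ ∈ XX G, (φ 1).re ≤ b)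
    (EX : Finset (G → ℂ)) (hE : EX ⊆ XX G) (a : (G → ℂ) → ℝ) (h0 : ∀ φ ∈ XX G, 0 ≤ a φ)
    (h1 : ∀ φ ∈ XX G, a φ ≤ (φ 1).re) (hn : ∀ φ ∈ XX G, 0 < a φ → φ ≠ cj φ)
    (hm : ∀ φ ∈ XX G, φ ∉ EX → 0 < a φ → 1 ≤ mul s (cj φ)) :
    ∑ φ ∈ XX G, a φ * mul s φ ≤ b * (2 * (quadInv s).re) + (N + 1) * ∑ φ ∈ EX, (φ 1).re ^ 2 := by
  refine lb_sum s hs b EX hE (fun φ => a φ * mul s φ) (fun φ hφ hE' => ?_)
    (fun φ hφ hE' => ?_)
  · obtain ⟨f1, f2, f3, f4, f5⟩ := lb_facts s hs φ ((mem_XX φ).1 hφ)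
    have g1 := quad_term s hs φ ((mem_XX φ).1 hφ)
    have g2 := hb φ hφ
    rcases (h0 φ hφ).eq_or_lt with e | e
    · rw [← e, zero_mul]
      exact mul_nonneg (by linarith) g1
    · have k2 := hm φ hφ hE' e
      have k4 : a φ ≤ b := (h1 φ hφ).trans g2
      rw [fs_ne φ ((mem_XX φ).1 hφ) (hn φ hφ e), add_zero]
      have k5 : a φ * mul s φ ≤ b * mul s φ := mul_le_mul_of_nonneg_right k4 f2
      have k6 : 1 * mul s φ ≤ mul s (cj φ) * mul s φ := mul_le_mul_of_nonneg_right k2 f2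
      have k7 : b * (1 * mul s φ) ≤ b * (mul s (cj φ) * mul s φ) :=
        mul_le_mul_of_nonneg_left k6 (by linarith)
      rw [one_mul] at k7
      exact k5.trans k7
  · obtain ⟨f1, f2, f3, f4, f5⟩ := lb_facts s hs φ ((mem_XX φ).1 hφ)
    have g1 := quad_term s hs φ ((mem_XX φ).1 hφ)
    have g2 := hb φ hφ
    have g4 : 0 ≤ b * (mul s (cj φ) * (mul s φ + fs φ)) := mul_nonneg (by linarith) g1
    have g5 : a φ * mul s φ ≤ (φ 1).re * (N * (φ 1).re) :=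
      mul_le_mul (h1 φ hφ) f5 f2 (by linarith)
    have g6 : (φ 1).re * (N * (φ 1).re) + (φ 1).re ^ 2 = (N + 1) * (φ 1).re ^ 2 := by ring
    have g7 : 0 ≤ (φ 1).re ^ 2 := sq_nonneg _
    show a φ * mul s φ ≤ _
    linarith


end Pool.Agent.H82.FIN
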