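import Pool.Agent.H82.FIN.Main
import Pool.Agent.H82.CO.Final5
import Pool.Agent.H82.CO.FS
import Pool.Agent.H82.CO.Main
import Pool.Agent.H10.AB

set_option autoImplicit false

/-!
PROJECT FIN (MP_bf82d2_ag, Finiteness; note 6077), module All.
The theorem for all finite groups.  `N ≥ 6`: `bounds`; `G` not abelian: `finiteness`; `G` abelian: `N = 5`: `bounds_five`,
`fs_comm`; `N = 4`: `abelian_four` (helper10).
-/

namespace Pool.Agent.H82.FIN

open Finset Module
open Pool.Agent.H82.CO (chi quadInv genus nu eps zeta)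

theorem genus_le {G : Type} [Group G] [Fintype G] {N : ℕ} (hN : N ≤ 14) (s : Fin N → G) :
    genus s ≤ 1 + 6 * (Nat.card G : ℝ) := by
  have h1 : (0 : ℝ) ≤ ∑ i, 1 / (orderOf (s i) : ℝ) := sum_nonneg fun i _ => by positivity
  have h2 : (N : ℝ) ≤ 14 := by exact_mod_cast hN
  have h3 : (0 : ℝ) ≤ Nat.card G := Nat.cast_nonneg _
  unfold genus
  nlinarith [mul_nonneg h3 h1]

theorem finiteness_all : ∃ B : ℕ, ∀ (G : Type) [Group G] [Fintype G] (N : ℕ) (s : Fin N → G), 4 ≤ N →
    (∀ i, s i ≠ 1) → (List.ofFn s).prod = 1 → Subgroup.closure (Set.range s) = ⊤ → 1 < genus s →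
    (quadInv s).re ≤ (N : ℝ) - 3 → N ≤ 14 ∧ Nat.card G ≤ B ∧ genus s ≤ B := by
  obtain ⟨B, hB⟩ := finiteness
  refine ⟨6 * (B + 96) + 1, fun G _ _ N s hN hs hprod hgen hg hd => ?_⟩
  have hN14 : N ≤ 14 := by
    by_cases h : 6 ≤ N
    · exact (Pool.Agent.H82.CO.bounds s hs h hd).1
    · omega
  have hcard : Nat.card G ≤ B + 96 := by
    by_cases hN6 : 6 ≤ N
    · have := (Pool.Agent.H82.CO.bounds s hs hN6 hd).2.1
      omega
    · by_cases hna : ∃ a b : G, a * b ≠ b * a
      · have := hB G N hN s hs hna hprod hgen hg hd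
        omega
      · push Not at hna
        have h45 : N = 4 ∨ N = 5 := by omega
        rcases h45 with rfl | rfl
        · have h1 := Pool.Agent.H10.AB.abelian_four hna s hs hprod hgen
          have h2 : (quadInv s).re ≤ 1 := by
            refine hd.trans ?_
            norm_num
          have h3 : (Nat.card G : ℝ) ≤ 96 := by linarith
          have h4 : Nat.card G ≤ 96 := by exact_mod_cast h3
          omega
        · have h2 : (quadInv s).re ≤ 2 := by
            refine hd.trans ?_
            norm_num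
          have := (Pool.Agent.H82.CO.bounds_five s hs (Pool.Agent.H82.CO.fs_comm s hna hgen) h2).1
          omega
  refine ⟨hN14, by omega, ?_⟩
  have h1 := genus_le hN14 s
  have h2 : (Nat.card G : ℝ) ≤ B + 96 := by exact_mod_cast hcard
  push_cast
  linarith

end Pool.Agent.H82.FIN
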