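import Pool.Agent.H82.FIN.Defs
import Pool.Agent.H52.VC.Irr
import Pool.Agent.H52.VC.Chi

set_option autoImplicit false

/-!
PROJECT FIN (MP_bf82d2_ag, Finiteness; note 6077), module Ang.
Angles.
PROOF. `m = orderOf c`, `n_j = (1/m) ∑ k < m, φ (c^k) zeta m ^ (- j k)` (`j < m`) is the dimension of the eigenspace of `c`
for the eigenvalue `zeta m ^ j` (trace of a projection), a natural number, `φ (c^k) = ∑ j, n_j zeta m ^ (j k)`, `∑ n_j = φ 1`.
`pr (U c) φ = (1/m) ∑ k < m, eps m k φ (c^(-k)) = ∑ j, (j/m) n_j`.  (Or use `angp` and the computation in H52/VC/Pai.lean: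
`pr (U c) φ = angp (ρ c) - finrank (fixS (ρ c))`, `one_pai` there.) It is `0` only if `n_0 = φ 1`, i.e. `φ c = φ 1`.
`ang_central`: if `φ (c * g) = w φ g` for all `g`, `w = exp (2 π i θ)`, `0 ≤ θ < 1`, then all the eigenvalues are `w`.
-/

namespace Pool.Agent.H82.FIN

open Finset Module
open Pool.Agent.H93.Hup (Inv MinInv)
open Pool.Agent.H52.VC (lam subR)
open Pool.Agent.H82.CO (chi quadInv genus nu eps zeta)

private theorem prim_ang {m : ℕ} (hm : 0 < m) : IsPrimitiveRoot (zeta m) m := by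
  unfold zeta
  exact Complex.isPrimitiveRoot_exp m hm.ne'

private theorem geo_ang {m : ℕ} (hm : 0 < m) {x : ℂ} (hx : x ^ m = 1) :
    (1 / (m : ℂ)) * ∑ k ∈ range m, x ^ k = if x = 1 then 1 else 0 := by
  have hmC : (m : ℂ) ≠ 0 := by exact_mod_cast hm.ne'
  by_cases h : x = 1
  · rw [if_pos h]
    simp only [h, one_pow, sum_const, card_range, nsmul_eq_mul, mul_one]
    rw [one_div, inv_mul_cancel₀ hmC]
  · rw [if_neg h]
    have h3 := mul_geom_sum x m
    rw [hx, sub_self] at h3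
    rcases mul_eq_zero.1 h3 with h4 | h4
    · exact absurd (sub_eq_zero.1 h4) h
    · rw [h4, mul_zero]

/-- the numbers `n_a` -/
private noncomputable def nn_ang (m : ℕ) (t : ℕ → ℂ) (a : ℕ) : ℂ :=
  (1 / (m : ℂ)) * ∑ k ∈ range m, zeta m ^ (a * k) * t k

private theorem inv_ang {m : ℕ} (hm : 0 < m) (t : ℕ → ℂ) (r : ℕ) (hr : r < m) (j : ℕ) (hj : m ∣ j + r)
    (hj' : ∀ k < m, m ∣ j + k → k = r) : ∑ a ∈ range m, zeta m ^ (a * j) * nn_ang m t a = t r := by
  have hz := prim_ang hm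
  have h1 : ∀ a ∈ range m, zeta m ^ (a * j) * nn_ang m t a =
      ∑ k ∈ range m, (1 / (m : ℂ)) * ((zeta m ^ (j + k)) ^ a * t k) := by
    intro a _
    unfold nn_ang
    rw [mul_left_comm, mul_sum, mul_sum]
    refine sum_congr rfl fun k _ => ?_
    rw [← mul_assoc (zeta m ^ (a * j)), ← pow_add, ← pow_mul]
    congr 3
    ring
  rw [sum_congr rfl h1, sum_comm]
  have h2 : ∀ k ∈ range m, ∑ a ∈ range m, (1 / (m : ℂ)) * ((zeta m ^ (j + k)) ^ a * t k) =
      if k = r then t k else 0 := by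
    intro k hk
    rw [← mul_sum, ← sum_mul, ← mul_assoc, geo_ang hm (x := zeta m ^ (j + k)) (by
      rw [← pow_mul, mul_comm, pow_mul, hz.pow_eq_one, one_pow])]
    by_cases h : k = r
    · rw [if_pos h, if_pos, one_mul]
      rw [h, hz.pow_eq_one_iff_dvd]
      exact hj
    · rw [if_neg h, if_neg, zero_mul]
      rw [hz.pow_eq_one_iff_dvd]
      exact fun h' => h (hj' k (mem_range.1 hk) h')
  rw [sum_congr rfl h2, sum_ite_eq' (range m) r, if_pos (mem_range.2 hr)]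

section Rep

variable {G : Type} [Group G] {V : Type} [AddCommGroup V] [Module ℂ V]

/-- the projection onto the eigenspace -/
private noncomputable def Q_ang (ρ : Representation ℂ G V) (c : G) (m a : ℕ) : V →ₗ[ℂ] V :=
  (1 / (m : ℂ)) • ∑ k ∈ range m, zeta m ^ (a * k) • ρ (c ^ k)⁻¹

private theorem Q_proj_ang (ρ : Representation ℂ G V) (c : G) {m : ℕ} (hm : 0 < m) (hc : c ^ m = 1) (a : ℕ) :
    LinearMap.IsProj (Module.End.eigenspace (ρ c) (zeta m ^ a)) (Q_ang ρ c m a) := by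
  have hz := prim_ang hm
  have hmC : (m : ℂ) ≠ 0 := by exact_mod_cast hm.ne'
  have hQ : ∀ v, Q_ang ρ c m a v = (1 / (m : ℂ)) • ∑ k ∈ range m, zeta m ^ (a * k) • ρ (c ^ k)⁻¹ v := by
    intro v
    unfold Q_ang
    rw [LinearMap.smul_apply, LinearMap.sum_apply]
    rfl
  refine ⟨fun v => ?_, fun v hv => ?_⟩
  · rw [Module.End.mem_eigenspace_iff, hQ, map_smul, map_sum, smul_comm (zeta m ^ a) (1 / (m : ℂ))]
    congr 1
    have h1 : ∑ k ∈ range m, ρ c (zeta m ^ (a * k) • ρ (c ^ k)⁻¹ v) =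
        ∑ k ∈ range m, ρ c (zeta m ^ (a * (k + 1)) • ρ (c ^ (k + 1))⁻¹ v) := by
      have h2 := sum_range_succ (fun k => ρ c (zeta m ^ (a * k) • ρ (c ^ k)⁻¹ v)) m
      have h3 := sum_range_succ' (fun k => ρ c (zeta m ^ (a * k) • ρ (c ^ k)⁻¹ v)) m
      rw [h2] at h3
      have h4 : ρ c (zeta m ^ (a * m) • ρ (c ^ m)⁻¹ v) = ρ c (zeta m ^ (a * 0) • ρ (c ^ 0)⁻¹ v) := by
        rw [hc, mul_zero, pow_zero, pow_zero, mul_comm a m, pow_mul, hz.pow_eq_one, one_pow]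
      rw [h4] at h3
      exact add_right_cancel h3
    rw [h1, smul_sum]
    refine sum_congr rfl fun k _ => ?_
    rw [map_smul, smul_smul]
    have h5 : ρ c (ρ (c ^ (k + 1))⁻¹ v) = ρ (c ^ k)⁻¹ v := by
      have h6 : (c ^ k)⁻¹ = c * (c ^ (k + 1))⁻¹ := by
        rw [pow_succ, mul_inv_rev, mul_inv_cancel_left]
      rw [h6, map_mul]
      rfl
    rw [h5, mul_add, mul_one, pow_add, mul_comm]
  · rw [Module.End.mem_eigenspace_iff] at hv
    have h1 : ∀ k : ℕ, ρ (c ^ k) v = zeta m ^ (a * k) • v := by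
      intro k
      induction k with
      | zero => rw [pow_zero, map_one, mul_zero, pow_zero, one_smul]; rfl
      | succ k ih =>
        rw [pow_succ, map_mul]
        show ρ (c ^ k) (ρ c v) = _
        rw [hv, map_smul, ih, smul_smul, ← pow_add]
        congr 2
        ring
    rw [hQ]
    have h2 : ∀ k ∈ range m, zeta m ^ (a * k) • ρ (c ^ k)⁻¹ v = v := by
      intro k _
      have h3 : ρ (c ^ k)⁻¹ (ρ (c ^ k) v) = v := Representation.inv_self_apply _ _ _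
      rw [h1, map_smul] at h3
      exact h3
    rw [sum_congr rfl h2, sum_const, card_range, ← Nat.cast_smul_eq_nsmul ℂ, smul_smul, one_div,
      inv_mul_cancel₀ hmC, one_smul]

private theorem nat_ang [FiniteDimensional ℂ V] (ρ : Representation ℂ G V) (c : G) {m : ℕ} (hm : 0 < m)
    (hc : c ^ m = 1) (a : ℕ) : ∃ n : ℕ, nn_ang m (fun k => LinearMap.trace ℂ V (ρ (c ^ k)⁻¹)) a = n := by
  refine ⟨finrank ℂ (Module.End.eigenspace (ρ c) (zeta m ^ a)), ?_⟩
  rw [← LinearMap.IsProj.trace (Q_proj_ang ρ c hm hc a)]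
  unfold nn_ang Q_ang
  rw [map_smul, map_sum, smul_eq_mul]
  congr 1
  refine sum_congr rfl fun k _ => ?_
  rw [map_smul, smul_eq_mul]

end Rep

variable {G : Type} [Group G] [Fintype G]

theorem U_conj (c g x : G) : U c (x * g * x⁻¹) = U c g := by
  unfold U
  congr 1
  symm
  refine Fintype.sum_equiv (Equiv.mulLeft x) _ _ fun y => ?_
  refine sum_congr rfl fun k _ => ?_
  have h1 : (Equiv.mulLeft x) y * c ^ k * ((Equiv.mulLeft x) y)⁻¹ = x * g * x⁻¹ ↔ y * c ^ k * y⁻¹ = g := by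
    rw [Equiv.coe_mulLeft, mul_inv_rev]
    constructor
    · intro h
      have h2 : x * (y * c ^ k * y⁻¹) * x⁻¹ = x * g * x⁻¹ := by
        rw [← h]
        group
      exact mul_left_cancel (mul_right_cancel h2)
    · intro h
      rw [← h]
      group
  by_cases h : y * c ^ k * y⁻¹ = g
  · rw [if_pos h, if_pos (h1.2 h)]
  · rw [if_neg h, if_neg (fun h' => h (h1.1 h'))]

private theorem irr_conj_ang {φ : G → ℂ} (hφ : IsIrr φ) (x g : G) : φ (x * g * x⁻¹) = φ g := by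
  obtain ⟨W, hW, h⟩ := hφ
  rw [h, h, map_mul, LinearMap.trace_mul_comm, ← map_mul, ← mul_assoc, inv_mul_cancel, one_mul]

private theorem pr_ang (c : G) {φ : G → ℂ} (hφ : IsIrr φ) :
    pr (U c) φ = (1 / (orderOf c : ℂ)) * ∑ k ∈ range (orderOf c), eps (orderOf c) k * φ (c ^ k)⁻¹ := by
  classical
  have hG : (Nat.card G : ℂ) ≠ 0 := Nat.cast_ne_zero.2 Nat.card_pos.ne'
  unfold pr
  have h1 : ∀ g, U c g * φ g⁻¹ = (1 / (orderOf c : ℂ)) * ∑ x : G, ∑ k ∈ range (orderOf c),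
      if x * c ^ k * x⁻¹ = g then eps (orderOf c) k * φ g⁻¹ else 0 := by
    intro g
    unfold U
    rw [mul_assoc, sum_mul]
    congr 1
    refine sum_congr rfl fun x _ => ?_
    rw [sum_mul]
    refine sum_congr rfl fun k _ => ?_
    by_cases h : x * c ^ k * x⁻¹ = g
    · rw [if_pos h, if_pos h]
    · rw [if_neg h, if_neg h, zero_mul]
  rw [sum_congr rfl fun g _ => h1 g, ← mul_sum, sum_comm]
  have h2 : ∀ x : G, ∑ g, ∑ k ∈ range (orderOf c),
      (if x * c ^ k * x⁻¹ = g then eps (orderOf c) k * φ g⁻¹ else 0) =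
      ∑ k ∈ range (orderOf c), eps (orderOf c) k * φ (c ^ k)⁻¹ := by
    intro x
    rw [sum_comm]
    refine sum_congr rfl fun k _ => ?_
    rw [sum_ite_eq univ (x * c ^ k * x⁻¹), if_pos (mem_univ _)]
    have h3 : (x * c ^ k * x⁻¹)⁻¹ = x * (c ^ k)⁻¹ * x⁻¹ := by group
    rw [h3, irr_conj_ang hφ]
  rw [sum_congr rfl fun x _ => h2 x, sum_const, card_univ, nsmul_eq_mul, ← Nat.card_eq_fintype_card]
  field_simp

private theorem sum_ang (c : G) {φ : G → ℂ} (hφ : IsIrr φ) :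
    pr (U c) φ = ∑ a ∈ range (orderOf c), ((a : ℂ) / (orderOf c : ℂ)) *
      nn_ang (orderOf c) (fun k => φ (c ^ k)⁻¹) a := by
  rw [pr_ang c hφ]
  have h1 : ∀ k ∈ range (orderOf c), eps (orderOf c) k * φ (c ^ k)⁻¹ =
      ∑ a ∈ range (orderOf c), ((a : ℂ) / (orderOf c : ℂ)) * (zeta (orderOf c) ^ (a * k) * φ (c ^ k)⁻¹) := by
    intro k _
    unfold eps
    rw [sum_mul]
    exact sum_congr rfl fun a _ => by rw [mul_assoc]
  rw [sum_congr rfl h1, sum_comm, mul_sum]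
  refine sum_congr rfl fun a _ => ?_
  unfold nn_ang
  rw [← mul_sum]
  ring

private theorem ex_ang (c : G) {φ : G → ℂ} (hφ : IsIrr φ) : ∃ n : ℕ → ℕ, ∀ a,
    nn_ang (orderOf c) (fun k => φ (c ^ k)⁻¹) a = n a := by
  obtain ⟨W, hW, h⟩ := hφ
  have h1 : ∀ a, ∃ n : ℕ, nn_ang (orderOf c) (fun k => φ (c ^ k)⁻¹) a = n := by
    intro a
    obtain ⟨n, hn⟩ := nat_ang (subR lam W hW.2.1) c (orderOf_pos c) (pow_orderOf_eq_one c) a
    refine ⟨n, ?_⟩
    rw [← hn]
    congr 1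
    funext k
    exact h _
  choose n hn using h1
  exact ⟨n, hn⟩

private theorem ang_eq_ang (c : G) {φ : G → ℂ} (hφ : IsIrr φ) {n : ℕ → ℕ}
    (hn : ∀ a, nn_ang (orderOf c) (fun k => φ (c ^ k)⁻¹) a = n a) :
    pr (U c) φ = ((∑ a ∈ range (orderOf c), ((a : ℝ) / (orderOf c : ℝ)) * (n a : ℝ) : ℝ) : ℂ) := by
  rw [sum_ang c hφ]
  push_cast
  exact sum_congr rfl fun a _ => by rw [hn]

theorem ang_real (c : G) (φ : G → ℂ) (hφ : IsIrr φ) : pr (U c) φ = (ang c φ : ℂ) := by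
  obtain ⟨n, hn⟩ := ex_ang c hφ
  unfold ang
  rw [ang_eq_ang c hφ hn, Complex.ofReal_re]

private theorem ang_sum_ang (c : G) {φ : G → ℂ} (hφ : IsIrr φ) {n : ℕ → ℕ}
    (hn : ∀ a, nn_ang (orderOf c) (fun k => φ (c ^ k)⁻¹) a = n a) :
    ang c φ = ∑ a ∈ range (orderOf c), ((a : ℝ) / (orderOf c : ℝ)) * (n a : ℝ) := by
  unfold ang
  rw [ang_eq_ang c hφ hn, Complex.ofReal_re]

theorem ang_nonneg (c : G) (φ : G → ℂ) (hφ : IsIrr φ) : 0 ≤ ang c φ := by
  obtain ⟨n, hn⟩ := ex_ang c hφ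
  rw [ang_sum_ang c hφ hn]
  exact sum_nonneg fun a _ => by positivity

theorem ang_pos (c : G) (φ : G → ℂ) (hφ : IsIrr φ) (h : φ c ≠ φ 1) : 0 < ang c φ := by
  obtain ⟨n, hn⟩ := ex_ang c hφ
  have hm := orderOf_pos c
  refine lt_of_le_of_ne (ang_nonneg c φ hφ) fun h0 => h ?_
  rw [ang_sum_ang c hφ hn] at h0
  have h1 := (sum_eq_zero_iff_of_nonneg (s := range (orderOf c))
    (f := fun a : ℕ => ((a : ℝ) / (orderOf c : ℝ)) * (n a : ℝ)) (fun a _ => by positivity)).1 h0.symm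
  have h2 : ∀ a ∈ range (orderOf c), a ≠ 0 → n a = 0 := by
    intro a ha ha0
    have h3 := h1 a ha
    have h4 : (a : ℝ) / (orderOf c : ℝ) ≠ 0 :=
      div_ne_zero (by exact_mod_cast ha0) (by exact_mod_cast hm.ne')
    rcases mul_eq_zero.1 h3 with h5 | h5
    · exact absurd h5 h4
    · exact_mod_cast h5
  have h3 : ∀ j : ℕ, ∑ a ∈ range (orderOf c), zeta (orderOf c) ^ (a * j) *
      nn_ang (orderOf c) (fun k => φ (c ^ k)⁻¹) a = n 0 := by
    intro j
    rw [sum_eq_single_of_mem 0 (mem_range.2 hm)]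
    · rw [zero_mul, pow_zero, one_mul, hn]
    · intro a ha ha0
      rw [hn, h2 a ha ha0, Nat.cast_zero, mul_zero]
  have h4 := inv_ang hm (fun k => φ (c ^ k)⁻¹) 0 hm 0 (by simp) (by
    intro k hk hd
    rw [zero_add] at hd
    exact Nat.eq_zero_of_dvd_of_lt hd hk)
  have h5 := inv_ang hm (fun k => φ (c ^ k)⁻¹) (orderOf c - 1) (by omega) 1 (by
    rw [Nat.add_sub_cancel' hm]) (by
    intro k hk hd
    have h6 := Nat.le_of_dvd (by omega) hd
    omega)
  rw [h3] at h4 h5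
  have h6 : φ (c ^ 0)⁻¹ = φ 1 := by rw [pow_zero, inv_one]
  have h7 : (c ^ (orderOf c - 1))⁻¹ = c := by
    rw [inv_eq_iff_mul_eq_one, ← pow_succ, Nat.sub_add_cancel hm, pow_orderOf_eq_one]
  calc φ c = φ (c ^ (orderOf c - 1))⁻¹ := by rw [h7]
    _ = n 0 := h5.symm
    _ = φ (c ^ 0)⁻¹ := h4
    _ = φ 1 := h6

private theorem one_ang {φ : G → ℂ} (hφ : IsIrr φ) : ∃ d : ℕ, 0 < d ∧ φ 1 = d := by
  obtain ⟨W, hW, h⟩ := hφ
  refine ⟨finrank ℂ W, ?_, ?_⟩
  · rw [Module.finrank_pos_iff_exists_ne_zero]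
    obtain ⟨x, hx, hx0⟩ := Submodule.exists_mem_ne_zero_of_ne_bot hW.1
    exact ⟨⟨x, hx⟩, fun h' => hx0 (congrArg Subtype.val h')⟩
  · rw [h, map_one, LinearMap.trace_one]

theorem ang_central (c : G) (φ : G → ℂ) (hφ : IsIrr φ) (θ : ℝ) (h0 : 0 ≤ θ) (h1 : θ < 1)
    (h : ∀ g, φ (c * g) = Complex.exp (2 * Real.pi * θ * Complex.I) * φ g) : ang c φ = θ * (φ 1).re := by
  obtain ⟨d, hd, hd1⟩ := one_ang hφ
  have hm := orderOf_pos c
  have hz := prim_ang hm
  obtain ⟨m, hmm⟩ : ∃ m, m = orderOf c := ⟨_, rfl⟩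
  have hm0 : 0 < m := by rw [hmm]; exact hm
  have hmR : (0 : ℝ) < m := by exact_mod_cast hm0
  have hmC : (m : ℂ) ≠ 0 := by exact_mod_cast hm0.ne'
  have hdC : (d : ℂ) ≠ 0 := by exact_mod_cast hd.ne'
  obtain ⟨w, hw⟩ : ∃ w : ℂ, w = Complex.exp (2 * Real.pi * θ * Complex.I) := ⟨_, rfl⟩
  have hw0 : w ≠ 0 := by
    rw [hw]
    exact Complex.exp_ne_zero _
  have hpow : ∀ (k : ℕ) (g : G), φ (c ^ k * g) = w ^ k * φ g := by
    intro k g
    induction k with
    | zero => rw [pow_zero, one_mul, pow_zero, one_mul]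
    | succ k ih => rw [pow_succ', mul_assoc, h, ← hw, ih, pow_succ', mul_assoc]
  have hwm : w ^ m = 1 := by
    have h2 := hpow m 1
    rw [hmm, pow_orderOf_eq_one, one_mul, ← hmm, hd1] at h2
    exact (mul_right_cancel₀ hdC (by rw [one_mul]; exact h2)).symm
  -- `θ = b / m`
  obtain ⟨b, hb⟩ : ∃ b : ℕ, (b : ℝ) = m * θ := by
    have h2 : Complex.exp (2 * Real.pi * (m * θ : ℝ) * Complex.I) = 1 := by
      rw [← hwm, hw, ← Complex.exp_nat_mul]
      congr 1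
      push_cast
      ring
    rw [Complex.exp_eq_one_iff] at h2
    obtain ⟨z, hz'⟩ := h2
    have hpi : (2 * (Real.pi : ℂ) * Complex.I) ≠ 0 := Complex.two_pi_I_ne_zero
    have h3 : ((m * θ : ℝ) : ℂ) = z := by
      refine mul_right_cancel₀ hpi ?_
      rw [← hz']
      ring
    have h4 : (m * θ : ℝ) = z := by exact_mod_cast h3
    have h5 : (0 : ℤ) ≤ z := by
      have : (0 : ℝ) ≤ z := by rw [← h4]; positivity
      exact_mod_cast this
    refine ⟨z.toNat, ?_⟩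
    rw [h4]
    exact_mod_cast Int.toNat_of_nonneg h5
  have hbm : b < m := by
    have : (b : ℝ) < m := by
      rw [hb]
      calc (m : ℝ) * θ < m * 1 := mul_lt_mul_of_pos_left h1 hmR
        _ = m := mul_one _
    exact_mod_cast this
  have hwz : w = zeta m ^ b := by
    rw [hw]
    unfold zeta
    rw [← Complex.exp_nat_mul]
    congr 1
    have h2 : (b : ℂ) = m * θ := by exact_mod_cast hb
    rw [h2]
    field_simp
  have hphi : ∀ k : ℕ, φ (c ^ k)⁻¹ = (w ^ k)⁻¹ * d := by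
    intro k
    have h2 := hpow k (c ^ k)⁻¹
    rw [mul_inv_cancel, hd1] at h2
    rw [h2, ← mul_assoc, inv_mul_cancel₀ (pow_ne_zero k hw0), one_mul]
  have hnn : ∀ a ∈ range m, nn_ang m (fun k => φ (c ^ k)⁻¹) a = if a = b then (d : ℂ) else 0 := by
    intro a ha
    have ha' := mem_range.1 ha
    have hz' : IsPrimitiveRoot (zeta m) m := prim_ang hm0
    unfold nn_ang
    have h2 : ∀ k ∈ range m, zeta m ^ (a * k) * φ (c ^ k)⁻¹ = (zeta m ^ a * w⁻¹) ^ k * d := by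
      intro k _
      rw [hphi, mul_pow, ← pow_mul, inv_pow, mul_assoc]
    have h3 : (zeta m ^ a * w⁻¹) ^ m = 1 := by
      rw [mul_pow, ← pow_mul, mul_comm a m, pow_mul, hz'.pow_eq_one, one_pow, inv_pow, hwm, inv_one, mul_one]
    rw [sum_congr rfl h2, ← sum_mul, ← mul_assoc, geo_ang hm0 h3]
    have h4 : zeta m ^ a * w⁻¹ = 1 ↔ a = b := by
      rw [mul_inv_eq_one₀ hw0, hwz]
      exact ⟨fun h' => hz'.pow_inj ha' hbm h', fun h' => by rw [h']⟩
    by_cases h5 : a = b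
    · rw [if_pos h5, if_pos (h4.2 h5), one_mul]
    · rw [if_neg h5, if_neg (fun h' => h5 (h4.1 h')), zero_mul]
  have hfin : pr (U c) φ = ((θ * (φ 1).re : ℝ) : ℂ) := by
    rw [sum_ang c hφ, ← hmm]
    rw [sum_congr rfl fun a ha => by rw [hnn a ha]]
    rw [sum_eq_single_of_mem b (mem_range.2 hbm)]
    · rw [if_pos rfl, hd1, Complex.natCast_re]
      have h2 : (b : ℂ) = m * θ := by exact_mod_cast hb
      rw [h2]
      push_cast
      field_simp
    · intro a _ hab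
      rw [if_neg hab, mul_zero]
  unfold ang
  rw [hfin, Complex.ofReal_re]

end Pool.Agent.H82.FIN
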