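import Pool.Agent.H82.FIN.Defs

set_option autoImplicit false

/-!
PROJECT FIN (MP_bf82d2_ag, Finiteness; note 6077), module ArD.
Arithmetic of the spherical case.
PROOF. The `k ≥ 2` are at most three (each `1 - 1/k ≥ 1/2`, the sum is `< 2`): none or one is impossible; two: `1/k + 1/k' = 2/q`
with `k, k' ≤ q`: both `q`; three, `a ≤ b ≤ c`: `1/a + 1/b + 1/c = 1 + 2/q`: `a = 2`; `b = 2`: `c = q/2`; `b = 3`: `1/c = 1/6 + 2/q`,
`c = 3, 4, 5`, `q = 12, 24, 60`, excluded; `b ≥ 4`: sum `≤ 1`.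
-/

namespace Pool.Agent.H82.FIN

open Finset Module
open Pool.Agent.H93.Hup (Inv MinInv)
open Pool.Agent.H52.VC (lam subR)
open Pool.Agent.H82.CO (chi quadInv genus nu eps zeta)

variable {G : Type} [Group G] [Fintype G]

private theorem three {a b c q : ℕ} (ha : 2 ≤ a) (hab : a ≤ b) (hbc : b ≤ c) (hq : 60 < q)
    (h : 1 / (a : ℝ) + 1 / (b : ℝ) + 1 / (c : ℝ) = 1 + 2 / (q : ℝ)) : a = 2 ∧ b = 2 ∧ 2 * c = q := by
  have ha0 : (a : ℝ) ≠ 0 := by positivity
  have hb0 : (b : ℝ) ≠ 0 := by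
    have : 0 < b := by omega
    positivity
  have hc0 : (c : ℝ) ≠ 0 := by
    have : 0 < c := by omega
    positivity
  have hq0 : (q : ℝ) ≠ 0 := by
    have : 0 < q := by omega
    positivity
  have h1 : ((b * c + a * c + a * b) * q : ℝ) = a * b * c * (q + 2) := by
    field_simp at h
    linarith
  have h2 : (b * c + a * c + a * b) * q = a * b * c * (q + 2) := by exact_mod_cast h1
  have h3 : a < 3 := by
    by_contra h3
    rw [not_lt] at h3
    have e1 : 3 * (b * c) ≤ a * (b * c) := Nat.mul_le_mul_right _ h3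
    have e2 : 3 * (a * c) ≤ b * (a * c) := Nat.mul_le_mul_right _ (by omega)
    have e3 : 3 * (a * b) ≤ c * (a * b) := Nat.mul_le_mul_right _ (by omega)
    have e4 : b * c + a * c + a * b ≤ a * b * c := by nlinarith
    have e5 : (b * c + a * c + a * b) * q ≤ a * b * c * q := Nat.mul_le_mul_right _ e4
    have e6 : 0 < a * b * c := Nat.mul_pos (Nat.mul_pos (by omega) (by omega)) (by omega)
    nlinarith
  have h4 : a = 2 := by omega
  subst h4
  have h5 : b < 4 := by
    by_contra h5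
    rw [not_lt] at h5
    have e1 : 4 * c ≤ b * c := Nat.mul_le_mul_right _ h5
    have e2 : 4 * b ≤ b * c := by
      rw [mul_comm b c]
      exact Nat.mul_le_mul_right _ (by omega)
    have e3 : b * c + 2 * c + 2 * b ≤ 2 * b * c := by nlinarith
    have e4 : (b * c + 2 * c + 2 * b) * q ≤ 2 * b * c * q := Nat.mul_le_mul_right _ e3
    have e5 : 0 < b * c := Nat.mul_pos (by omega) (by omega)
    nlinarith
  refine ⟨rfl, ?_⟩
  rcases (show b = 2 ∨ b = 3 by omega) with rfl | rfl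
  · refine ⟨rfl, ?_⟩
    nlinarith
  · exfalso
    have h6 : 6 * q = c * q + 12 * c := by nlinarith
    have h7 : c < 6 := by
      by_contra h7
      rw [not_lt] at h7
      have e1 : 6 * q ≤ c * q := Nat.mul_le_mul_right _ h7
      omega
    interval_cases c <;> omega

theorem dih (N : ℕ) (hN : N = 4 ∨ N = 5) (k : Fin N → ℕ) (h1 : ∀ i, 1 ≤ k i) (q : ℕ) (hq : 60 < q) (hd : ∀ i, k i ∣ q)
    (hs : (q : ℝ) * (2 - ∑ i, (1 - 1 / (k i : ℝ))) = 2) :
    (∃ i, k i = q) ∨
    (∃ i₁ i₂ iy, i₁ ≠ i₂ ∧ i₁ ≠ iy ∧ i₂ ≠ iy ∧ k i₁ = 2 ∧ k i₂ = 2 ∧ 2 * k iy = q ∧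
      ∀ l, l ≠ i₁ → l ≠ i₂ → l ≠ iy → k l = 1) := by
  classical
  have hq0 : (0 : ℝ) < q := by
    have : 0 < q := by omega
    exact_mod_cast this
  have hS : ∑ i, (1 - 1 / (k i : ℝ)) = 2 - 2 / q := by
    field_simp
    field_simp at hs
    linarith
  have hk0 : ∀ i, (0 : ℝ) < k i := fun i => by exact_mod_cast (h1 i)
  have hnn : ∀ i, (0 : ℝ) ≤ 1 - 1 / (k i : ℝ) := by
    intro i
    have h2 : (1 : ℝ) ≤ k i := by exact_mod_cast h1 i
    have h3 : 1 / (k i : ℝ) ≤ 1 := by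
      rw [div_le_one (hk0 i)]
      exact h2
    linarith
  set T : Finset (Fin N) := univ.filter fun i => 2 ≤ k i with hT
  have hST : ∑ i ∈ T, (1 - 1 / (k i : ℝ)) = 2 - 2 / q := by
    rw [← hS]
    refine sum_subset (subset_univ _) fun i _ hi => ?_
    have h2 : k i = 1 := by
      have h3 : ¬ 2 ≤ k i := fun h => hi (mem_filter.2 ⟨mem_univ _, h⟩)
      have h4 := h1 i
      omega
    rw [h2]
    norm_num
  have hT1 : ∀ i, i ∉ T → k i = 1 := by
    intro i hi
    have h3 : ¬ 2 ≤ k i := fun h => hi (mem_filter.2 ⟨mem_univ _, h⟩)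
    have h4 := h1 i
    omega
  have hT2 : ∀ i ∈ T, 2 ≤ k i := fun i hi => (mem_filter.1 hi).2
  have hhalf : ∀ i ∈ T, (1 : ℝ) / 2 ≤ 1 - 1 / (k i : ℝ) := by
    intro i hi
    have h2 : (2 : ℝ) ≤ k i := by exact_mod_cast hT2 i hi
    have h3 : 1 / (k i : ℝ) ≤ 1 / 2 := one_div_le_one_div_of_le (by norm_num) h2
    linarith
  have hc : T.card < 4 := by
    by_contra hc
    rw [not_lt] at hc
    have h2 : (T.card : ℝ) * (1 / 2) ≤ ∑ i ∈ T, (1 - 1 / (k i : ℝ)) := by
      have := card_nsmul_le_sum T (fun i => 1 - 1 / (k i : ℝ)) (1 / 2) hhalf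
      rwa [nsmul_eq_mul] at this
    rw [hST] at h2
    have h3 : (4 : ℝ) ≤ T.card := by exact_mod_cast hc
    have h4 : 0 < 2 / (q : ℝ) := by positivity
    linarith
  have hq1 : 2 / (q : ℝ) < 1 := by
    rw [div_lt_one hq0]
    have : 2 < q := by omega
    exact_mod_cast this
  have hcases : T.card = 0 ∨ T.card = 1 ∨ T.card = 2 ∨ T.card = 3 := by omega
  rcases hcases with hc0 | hc1 | hc2 | hc3
  · exfalso
    rw [card_eq_zero] at hc0
    rw [hc0, sum_empty] at hST
    linarith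
  · exfalso
    rw [card_eq_one] at hc1
    obtain ⟨i, hi⟩ := hc1
    rw [hi, sum_singleton] at hST
    have h2 : 0 < 1 / (k i : ℝ) := by
      have := hk0 i
      positivity
    linarith
  · left
    rw [card_eq_two] at hc2
    obtain ⟨i, j, hij, hi⟩ := hc2
    rw [hi, sum_pair hij] at hST
    refine ⟨i, ?_⟩
    have hle : ∀ l, 1 / (q : ℝ) ≤ 1 / (k l : ℝ) := by
      intro l
      have h2 : k l ≤ q := Nat.le_of_dvd (by omega) (hd l)
      exact one_div_le_one_div_of_le (hk0 l) (by exact_mod_cast h2)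
    have h2 := hle j
    have h3 := hle i
    have h4 : 2 / (q : ℝ) = 1 / q + 1 / q := by ring
    have h5 : 1 / (k i : ℝ) = 1 / q := by linarith
    have h6 : (k i : ℝ) = q := by
      have := hk0 i
      field_simp at h5
      linarith
    exact_mod_cast h6
  · right
    rw [card_eq_three] at hc3
    obtain ⟨x, y, z, hxy, hxz, hyz, hi⟩ := hc3
    have hsum : 1 / (k x : ℝ) + 1 / (k y : ℝ) + 1 / (k z : ℝ) = 1 + 2 / (q : ℝ) := by
      rw [hi, sum_insert (by simp [hxy, hxz]), sum_pair hyz] at hST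
      linarith
    have hx2 : 2 ≤ k x := hT2 x (by rw [hi]; simp)
    have hy2 : 2 ≤ k y := hT2 y (by rw [hi]; simp)
    have hz2 : 2 ≤ k z := hT2 z (by rw [hi]; simp)
    have hrest : ∀ l, l ≠ x → l ≠ y → l ≠ z → k l = 1 := by
      intro l hlx hly hlz
      refine hT1 l ?_
      rw [hi]
      simp [hlx, hly, hlz]
    rcases le_total (k x) (k y) with hxy' | hxy'
    · rcases le_total (k y) (k z) with hyz' | hyz'
      · obtain ⟨e1, e2, e3⟩ := three hx2 hxy' hyz' hq hsum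
        exact ⟨x, y, z, hxy, hxz, hyz, e1, e2, e3, fun l a b c => hrest l a b c⟩
      · rcases le_total (k x) (k z) with hxz' | hxz'
        · obtain ⟨e1, e2, e3⟩ := three hx2 hxz' hyz' hq (by linarith)
          exact ⟨x, z, y, hxz, hxy, hyz.symm, e1, e2, e3, fun l a b c => hrest l a c b⟩
        · obtain ⟨e1, e2, e3⟩ := three hz2 hxz' hxy' hq (by linarith)
          exact ⟨z, x, y, hxz.symm, hyz.symm, hxy, e1, e2, e3, fun l a b c => hrest l b c a⟩
    · rcases le_total (k x) (k z) with hxz' | hxz'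
      · obtain ⟨e1, e2, e3⟩ := three hy2 hxy' hxz' hq (by linarith)
        exact ⟨y, x, z, hxy.symm, hyz, hxz, e1, e2, e3, fun l a b c => hrest l b a c⟩
      · rcases le_total (k y) (k z) with hyz' | hyz'
        · obtain ⟨e1, e2, e3⟩ := three hy2 hyz' hxz' hq (by linarith)
          exact ⟨y, z, x, hyz, hxy.symm, hxz.symm, e1, e2, e3, fun l a b c => hrest l c a b⟩
        · obtain ⟨e1, e2, e3⟩ := three hz2 hyz' hxy' hq (by linarith)
          exact ⟨z, y, x, hyz.symm, hxz.symm, hxy.symm, e1, e2, e3, fun l a b c => hrest l c b a⟩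



end Pool.Agent.H82.FIN
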