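import Pool.Agent.H82.FIN.Defs

set_option autoImplicit false

/-!
PROJECT FIN (MP_bf82d2_ag, Finiteness; note 6077), module ArE.
Arithmetic of the Euclidean case.
PROOF. `euc`: `N = 4`: `∑ 1/k = 2`: all `2`, or one `1` and `(3,3,3), (2,4,4), (2,3,6)`.  `N = 5`: `∑ 1/k = 3`: one `1`
and four `2`, or two `1` and a triple as above.
`lam_cases`: the terms are integers `(K/k_i) (sg - sg/o_i) ≥ 0`, so if the sum is `< 3` it is `≤ 2`.  If some `k_i = 1`: `o_i ≥
2`, `sg ≥ 2`, that term is `≥ K ≥ 2`, so `K = 2`, all other terms are `0`, `o_j = 1`, `k_j ∈ {1, 2}` and four of them are `2`.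
If all `k_i ≥ 2`: `N = 4`, all `k_i = 2`, `K = 2`; nonzero terms are `≥ sg/2 ≥ 1`; sum `2`: at most two are nonzero; sum `1`:
exactly one, `sg (1 - 1/o) = 1`, `sg = o = 2`.
-/

namespace Pool.Agent.H82.FIN

open Finset Module
open Pool.Agent.H93.Hup (Inv MinInv)
open Pool.Agent.H52.VC (lam subR)
open Pool.Agent.H82.CO (chi quadInv genus nu eps zeta)

variable {G : Type} [Group G] [Fintype G]

private theorem three_nat (x y z : ℕ) (hx : 2 ≤ x) (hy : 2 ≤ y) (hyz : y ≤ z) (h : y * z + x * z + x * y = x * y * z) :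
    x ∣ 12 := by
  have hy4 : y ≤ 4 := by
    by_contra hc
    push Not at hc
    -- `x y z = y z + x (y + z) ≤ y z + 2 x z`
    have h1 : x * y ≤ x * z := Nat.mul_le_mul_left x hyz
    have h2 : x * y * z ≤ y * z + 2 * (x * z) := by omega
    have h3 : x * y ≤ y + 2 * x := by
      have hz : 0 < z := by omega
      refine Nat.le_of_mul_le_mul_right (c := z) ?_ hz
      nlinarith
    nlinarith
  interval_cases y
  · -- `y = 2`
    have h1 : x * z = 2 * x + 2 * z := by nlinarith
    have hz : 3 ≤ z := by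
      by_contra hc
      have : z = 2 := by omega
      subst this
      omega
    have hx6 : x ≤ 6 := by
      by_contra hc
      push Not at hc
      nlinarith
    interval_cases x <;> first | decide | (exfalso; omega)
  · -- `y = 3`
    have h1 : 2 * (x * z) = 3 * x + 3 * z := by nlinarith
    have hx3 : x ≤ 3 := by
      by_contra hc
      push Not at hc
      nlinarith
    interval_cases x <;> decide
  · -- `y = 4`
    have h1 : 3 * (x * z) = 4 * x + 4 * z := by nlinarith
    have hx2 : x ≤ 2 := by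
      by_contra hc
      push Not at hc
      nlinarith
    interval_cases x
    decide

private theorem three (x y z : ℕ) (hx : 1 ≤ x) (hy : 1 ≤ y) (hz : 1 ≤ z) (h : 1 / (x : ℝ) + 1 / y + 1 / z = 1) :
    x ∣ 12 := by
  have hx' : (0 : ℝ) < x := by exact_mod_cast hx
  have hy' : (0 : ℝ) < y := by exact_mod_cast hy
  have hz' : (0 : ℝ) < z := by exact_mod_cast hz
  have hx2 : 2 ≤ x := by
    by_contra hc
    have : x = 1 := by omega
    subst this
    have h1 : 0 < 1 / (y : ℝ) := by positivity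
    have h2 : 0 < 1 / (z : ℝ) := by positivity
    norm_num at h
    linarith [inv_pos.2 hy', inv_pos.2 hz']
  have hy2 : 2 ≤ y := by
    by_contra hc
    have : y = 1 := by omega
    subst this
    norm_num at h
    linarith [inv_pos.2 hx', inv_pos.2 hz']
  have hz2 : 2 ≤ z := by
    by_contra hc
    have : z = 1 := by omega
    subst this
    norm_num at h
    linarith [inv_pos.2 hx', inv_pos.2 hy']
  have key : (y : ℝ) * z + x * z + x * y = x * y * z := by
    field_simp at h
    linarith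
  have key' : y * z + x * z + x * y = x * y * z := by exact_mod_cast key
  rcases le_total y z with hyz | hyz
  · exact three_nat x y z hx2 hy2 hyz key'
  · refine three_nat x z y hx2 hz2 hyz ?_
    linarith [mul_comm y z, mul_assoc x y z, mul_assoc x z y, key', mul_left_comm x y z,
      show x * z * y = x * y * z by ring, show z * y = y * z by ring]

private theorem inv_le_half {a : ℕ} (ha : 2 ≤ a) : 1 / (a : ℝ) ≤ 1 / 2 := by
  have h1 : (2 : ℝ) ≤ a := by exact_mod_cast ha
  exact one_div_le_one_div_of_le (by norm_num) h1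

private theorem inv_eq_half {a : ℕ} (ha : 1 / (a : ℝ) = 1 / 2) : a = 2 := by
  have h1 : (a : ℝ) = 2 := by
    rw [one_div, one_div] at ha
    exact inv_injective ha
  exact_mod_cast h1

private theorem four (a b c d : ℕ) (ha : 1 ≤ a) (hb : 1 ≤ b) (hc : 1 ≤ c) (hd : 1 ≤ d)
    (h : 1 / (a : ℝ) + 1 / b + 1 / c + 1 / d = 2) : a ∣ 12 := by
  rcases Nat.lt_or_ge a 2 with h1 | h1
  · have : a = 1 := by omega
    rw [this]
    exact one_dvd _
  rcases Nat.lt_or_ge b 2 with h2 | h2
  · have : b = 1 := by omega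
    subst this
    refine three a c d ha hc hd ?_
    norm_num at h ⊢
    linarith
  rcases Nat.lt_or_ge c 2 with h3 | h3
  · have : c = 1 := by omega
    subst this
    refine three a b d ha hb hd ?_
    norm_num at h ⊢
    linarith
  rcases Nat.lt_or_ge d 2 with h4 | h4
  · have : d = 1 := by omega
    subst this
    refine three a b c ha hb hc ?_
    norm_num at h ⊢
    linarith
  have e1 := inv_le_half h1
  have e2 := inv_le_half h2
  have e3 := inv_le_half h3
  have e4 := inv_le_half h4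
  have : a = 2 := inv_eq_half (by linarith)
  rw [this]
  decide

private theorem five (a b c d e : ℕ) (ha : 1 ≤ a) (hb : 1 ≤ b) (hc : 1 ≤ c) (hd : 1 ≤ d) (he : 1 ≤ e)
    (h : 1 / (a : ℝ) + 1 / b + 1 / c + 1 / d + 1 / e = 3) : a ∣ 12 := by
  rcases Nat.lt_or_ge a 2 with h1 | h1
  · have : a = 1 := by omega
    rw [this]
    exact one_dvd _
  rcases Nat.lt_or_ge b 2 with h2 | h2
  · have : b = 1 := by omega
    subst this
    refine four a c d e ha hc hd he ?_
    norm_num at h ⊢
    linarith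
  rcases Nat.lt_or_ge c 2 with h3 | h3
  · have : c = 1 := by omega
    subst this
    refine four a b d e ha hb hd he ?_
    norm_num at h ⊢
    linarith
  rcases Nat.lt_or_ge d 2 with h4 | h4
  · have : d = 1 := by omega
    subst this
    refine four a b c e ha hb hc he ?_
    norm_num at h ⊢
    linarith
  rcases Nat.lt_or_ge e 2 with h5 | h5
  · have : e = 1 := by omega
    subst this
    refine four a b c d ha hb hc hd ?_
    norm_num at h ⊢
    linarith
  exfalso
  linarith [inv_le_half h1, inv_le_half h2, inv_le_half h3, inv_le_half h4, inv_le_half h5]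

theorem euc (N : ℕ) (hN : N = 4 ∨ N = 5) (k : Fin N → ℕ) (h1 : ∀ i, 1 ≤ k i)
    (hs : ∑ i, (1 - 1 / (k i : ℝ)) = 2) : ∀ i, k i ∣ 12 := by
  rcases hN with rfl | rfl
  · rw [Fin.sum_univ_four] at hs
    intro i
    fin_cases i
    · exact four (k 0) (k 1) (k 2) (k 3) (h1 _) (h1 _) (h1 _) (h1 _) (by linarith)
    · exact four (k 1) (k 0) (k 2) (k 3) (h1 _) (h1 _) (h1 _) (h1 _) (by linarith)
    · exact four (k 2) (k 0) (k 1) (k 3) (h1 _) (h1 _) (h1 _) (h1 _) (by linarith)
    · exact four (k 3) (k 0) (k 1) (k 2) (h1 _) (h1 _) (h1 _) (h1 _) (by linarith)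
  · rw [Fin.sum_univ_five] at hs
    intro i
    fin_cases i
    · exact five (k 0) (k 1) (k 2) (k 3) (k 4) (h1 _) (h1 _) (h1 _) (h1 _) (h1 _) (by linarith)
    · exact five (k 1) (k 0) (k 2) (k 3) (k 4) (h1 _) (h1 _) (h1 _) (h1 _) (h1 _) (by linarith)
    · exact five (k 2) (k 0) (k 1) (k 3) (k 4) (h1 _) (h1 _) (h1 _) (h1 _) (h1 _) (by linarith)
    · exact five (k 3) (k 0) (k 1) (k 2) (k 4) (h1 _) (h1 _) (h1 _) (h1 _) (h1 _) (by linarith)
    · exact five (k 4) (k 0) (k 1) (k 2) (k 3) (h1 _) (h1 _) (h1 _) (h1 _) (h1 _) (by linarith)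

theorem lam_cases (N : ℕ) (hN : N = 4 ∨ N = 5) (k o : Fin N → ℕ) (h1 : ∀ i, 1 ≤ k i) (ho : ∀ i, 1 ≤ o i)
    (hs : ∑ i, (1 - 1 / (k i : ℝ)) = 2) (K sg : ℕ) (hkK : ∀ i, k i ∣ K) (hK1 : 2 ≤ K)
    (hK2 : (∀ i, k i ∣ 2) → K = 2) (hsg : 1 ≤ sg) (ho' : ∀ i, o i ∣ sg) (h2 : ∀ i, k i = 1 → 2 ≤ o i)
    (hne : ∃ i, 2 ≤ o i) :
    3 ≤ ∑ i, ((K : ℝ) / k i) * sg * (1 - 1 / (o i : ℝ)) ∨
    (2 ≤ ∑ i, ((K : ℝ) / k i) * sg * (1 - 1 / (o i : ℝ)) ∧ ∃ j, k j = 2 ∧ o j = 1 ∧ K = 2) ∨
    (∑ i, ((K : ℝ) / k i) * sg * (1 - 1 / (o i : ℝ)) = 1 ∧ N = 4 ∧ K = 2 ∧ sg = 2 ∧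
      ∃ j, (∀ i, k i = 2) ∧ o j = 2 ∧ ∀ i, i ≠ j → o i = 1) := by
  classical
  -- the terms are natural numbers
  set t : Fin N → ℕ := fun i => (K / k i) * (sg - sg / o i) with ht
  have hT : ∀ i, ((K : ℝ) / k i) * sg * (1 - 1 / (o i : ℝ)) = (t i : ℝ) := by
    intro i
    obtain ⟨m, hm⟩ := hkK i
    obtain ⟨p, hp⟩ := ho' i
    have e1 : K / k i = m := by rw [hm]; exact Nat.mul_div_cancel_left m (h1 i)
    have e2 : sg / o i = p := by rw [hp]; exact Nat.mul_div_cancel_left p (ho i)
    have e3 : p ≤ sg := by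
      rw [hp]
      exact Nat.le_mul_of_pos_left p (ho i)
    have k0 : (k i : ℝ) ≠ 0 := by exact_mod_cast (by have := h1 i; omega : k i ≠ 0)
    have o0 : (o i : ℝ) ≠ 0 := by exact_mod_cast (by have := ho i; omega : o i ≠ 0)
    show ((K : ℝ) / k i) * sg * (1 - 1 / (o i : ℝ)) = (((K / k i) * (sg - sg / o i) : ℕ) : ℝ)
    rw [e1, e2, Nat.cast_mul, Nat.cast_sub e3]
    have e4 : (K : ℝ) = k i * m := by exact_mod_cast hm
    have e5 : (sg : ℝ) = o i * p := by exact_mod_cast hp
    rw [e4, e5]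
    field_simp
  have hS : ∑ i, ((K : ℝ) / k i) * sg * (1 - 1 / (o i : ℝ)) = ((∑ i, t i : ℕ) : ℝ) := by
    rw [Nat.cast_sum]
    exact sum_congr rfl fun i _ => hT i
  rw [hS]
  have hle : ∀ i, t i ≤ ∑ i, t i := fun i => single_le_sum (f := t) (fun _ _ => Nat.zero_le _) (mem_univ i)
  have hpos : ∀ i, 2 ≤ o i → 1 ≤ sg - sg / o i := by
    intro i hi
    obtain ⟨p, hp⟩ := ho' i
    have e2 : sg / o i = p := by rw [hp]; exact Nat.mul_div_cancel_left p (ho i)
    have e3 : 1 ≤ p := by
      rcases Nat.eq_zero_or_pos p with h0 | h0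
      · rw [h0, mul_zero] at hp
        omega
      · exact h0
    have e4 : 2 * p ≤ o i * p := Nat.mul_le_mul_right p hi
    rw [e2]
    omega
  have hm1 : ∀ i, 1 ≤ K / k i := fun i => Nat.div_pos (Nat.le_of_dvd (by omega) (hkK i)) (h1 i)
  have ht1 : ∀ i, 2 ≤ o i → 1 ≤ t i := fun i hi => Nat.mul_pos (hm1 i) (hpos i hi)
  rcases Nat.lt_or_ge (∑ i, t i) 3 with h3 | h3
  swap
  · left
    exact_mod_cast h3
  right
  by_cases hA : ∃ i, k i = 1
  · -- some `k i = 1`
    obtain ⟨i, hi⟩ := hA
    have e1 : K ≤ t i := by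
      show K ≤ (K / k i) * (sg - sg / o i)
      rw [hi, Nat.div_one]
      exact Nat.le_mul_of_pos_right K (hpos i (h2 i hi))
    have e2 := hle i
    have hK : K = 2 := by omega
    have hti : t i = 2 := by omega
    have hsum : ∑ i, t i = 2 := by omega
    left
    refine ⟨by rw [hsum]; norm_num, ?_⟩
    obtain ⟨j, hj⟩ : ∃ j : Fin N, j ≠ i := by
      have : Nontrivial (Fin N) := Fin.nontrivial_iff_two_le.2 (by omega)
      exact exists_ne i
    have e3 : t i + t j ≤ ∑ i, t i := by
      have := sum_le_univ_sum_of_nonneg (f := t) (s := {i, j}) (fun _ => Nat.zero_le _)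
      rwa [sum_pair hj.symm] at this
    have e4 : o j = 1 := by
      by_contra h0
      have := ht1 j (by have := ho j; omega)
      omega
    refine ⟨j, ?_, e4, hK⟩
    have e5 : k j ∣ 2 := hK ▸ hkK j
    have e6 : k j ≤ 2 := Nat.le_of_dvd (by norm_num) e5
    have e7 : k j ≠ 1 := fun h0 => by
      have := h2 j h0
      omega
    have := h1 j
    omega
  · -- all `k i ≥ 2`
    push Not at hA
    have hk2 : ∀ i, 2 ≤ k i := fun i => by
      have := h1 i
      have := hA i
      omega
    have hN4 : N = 4 := by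
      rcases hN with h0 | h0
      · exact h0
      · exfalso
        subst h0
        rw [Fin.sum_univ_five] at hs
        linarith [inv_le_half (hk2 0), inv_le_half (hk2 1), inv_le_half (hk2 2), inv_le_half (hk2 3),
          inv_le_half (hk2 4)]
    subst hN4
    have hk : ∀ i, k i = 2 := by
      rw [Fin.sum_univ_four] at hs
      have a0 := inv_le_half (hk2 0)
      have a1 := inv_le_half (hk2 1)
      have a2 := inv_le_half (hk2 2)
      have a3 := inv_le_half (hk2 3)
      have b0 : k 0 = 2 := inv_eq_half (by linarith)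
      have b1 : k 1 = 2 := inv_eq_half (by linarith)
      have b2 : k 2 = 2 := inv_eq_half (by linarith)
      have b3 : k 3 = 2 := inv_eq_half (by linarith)
      intro i
      fin_cases i
      · exact b0
      · exact b1
      · exact b2
      · exact b3
    have hK : K = 2 := hK2 fun i => by rw [hk i]
    obtain ⟨i₀, hi₀⟩ := hne
    have e1 := ht1 i₀ hi₀
    have e2 := hle i₀
    rcases Nat.lt_or_ge (∑ i, t i) 2 with h4 | h4
    · -- the sum is one
      right
      have hsum : ∑ i, t i = 1 := by omega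
      have hti : t i₀ = 1 := by omega
      obtain ⟨p, hp⟩ := ho' i₀
      have e3 : sg / o i₀ = p := by rw [hp]; exact Nat.mul_div_cancel_left p (ho i₀)
      have e4 : sg - p = 1 := by
        have h5 : (K / k i₀) * (sg - sg / o i₀) = 1 := hti
        rw [hK, hk i₀, e3] at h5
        simpa using h5
      have e5 : 1 ≤ p := by
        rcases Nat.eq_zero_or_pos p with h0 | h0
        · rw [h0, mul_zero] at hp
          omega
        · exact h0
      have e6 : 2 * p ≤ o i₀ * p := Nat.mul_le_mul_right p hi₀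
      have e7 : p = 1 := by omega
      have e8 : o i₀ = 2 := by
        rw [e7, mul_one] at hp
        omega
      refine ⟨by rw [hsum]; norm_num, rfl, hK, by omega, i₀, hk, e8, fun j hj => ?_⟩
      by_contra h0
      have e9 := ht1 j (by have := ho j; omega)
      have e10 : t i₀ + t j ≤ ∑ i, t i := by
        have := sum_le_univ_sum_of_nonneg (f := t) (s := {i₀, j}) (fun _ => Nat.zero_le _)
        rwa [sum_pair hj.symm] at this
      omega
    · -- the sum is two
      left
      refine ⟨by exact_mod_cast h4, ?_⟩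
      by_contra hcon
      push Not at hcon
      have e3 : ∀ j, 1 ≤ t j := by
        intro j
        refine ht1 j ?_
        have h5 : o j ≠ 1 := fun h0 => (hcon j (hk j) h0) hK
        have := ho j
        omega
      have e4 : ∑ _i : Fin 4, 1 ≤ ∑ i, t i := sum_le_sum fun j _ => e3 j
      simp at e4
      omega

end Pool.Agent.H82.FIN
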