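import Pool.Agent.H82.FIN.Defs
import Pool.Agent.H52.VC.Irr

set_option autoImplicit false

/-!
PROJECT FIN (MP_bf82d2_ag, Finiteness; note 6077), module CTa.
Irreducible characters: finitely many, orthonormal.
PROOF. `irr_orth`: `minInv_self`, `minInv_ne` (H52.VC.Irr).  `irr_finite`: an orthonormal set of functions `G → ℂ` (for
`pr`) is linearly independent, `G → ℂ` has finite dimension (or: `{φ | IsIrr φ}` infinite gives `n + 1` of them,
linearly independent by `irr_orth`).
-/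

namespace Pool.Agent.H82.FIN

open Finset Module
open Pool.Agent.H93.Hup (Inv MinInv)
open Pool.Agent.H52.VC (lam subR)
open Pool.Agent.H82.CO (chi quadInv genus nu eps zeta)

variable {G : Type} [Group G] [Fintype G]

theorem irr_orth (φ ψ : G → ℂ) (hφ : IsIrr φ) (hψ : IsIrr ψ) : (φ = ψ ∧ pr φ ψ = 1) ∨ (φ ≠ ψ ∧ pr φ ψ = 0) := by
  obtain ⟨W, hW, h1⟩ := hφ
  obtain ⟨W', hW', h2⟩ := hψ
  by_cases h : φ = ψ
  · left
    refine ⟨h, ?_⟩
    subst h
    have h3 := Pool.Agent.H52.VC.minInv_self (lam (G := G)) W hW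
    unfold pr
    refine Eq.trans ?_ h3
    congr 1
    exact sum_congr rfl fun g _ => by rw [h1, h1]
  · right
    refine ⟨h, ?_⟩
    rcases Pool.Agent.H52.VC.minInv_ne (lam (G := G)) W hW (lam (G := G)) W' hW' with h3 | h3
    · exact (h (funext fun g => by rw [h1, h2, h3])).elim
    · unfold pr
      rw [← h3]
      congr 1
      exact sum_congr rfl fun g _ => by rw [h1, h2]

private theorem CTa_pr_sum {ι : Type*} (s : Finset ι) (c : ι → ℂ) (f : ι → G → ℂ) (h : G → ℂ) :
    pr (∑ i ∈ s, c i • f i) h = ∑ i ∈ s, c i * pr (f i) h := by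
  unfold pr
  have h1 : ∀ i ∈ s, c i * (1 / (Nat.card G : ℂ) * ∑ g, f i g * h g⁻¹)
      = 1 / (Nat.card G : ℂ) * ∑ g, c i * (f i g * h g⁻¹) := by
    intro i _
    rw [← mul_sum]
    ring
  rw [sum_congr rfl h1, ← mul_sum, sum_comm]
  congr 1
  refine sum_congr rfl fun g _ => ?_
  rw [Finset.sum_apply, Finset.sum_mul]
  refine sum_congr rfl fun i _ => ?_
  rw [Pi.smul_apply, smul_eq_mul, mul_assoc]

theorem irr_finite : {φ : G → ℂ | IsIrr φ}.Finite := by
  classical
  refine LinearIndependent.setFinite (R := ℂ) ?_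
  rw [linearIndependent_iff']
  intro s c hc i hi
  have h1 := CTa_pr_sum s c (fun j : {φ : G → ℂ | IsIrr φ} => (j : G → ℂ)) (i : G → ℂ)
  rw [hc] at h1
  have h2 : pr (0 : G → ℂ) (i : G → ℂ) = 0 := by
    unfold pr
    simp
  rw [h2, sum_eq_single i] at h1
  · rcases irr_orth (i : G → ℂ) (i : G → ℂ) i.2 i.2 with h3 | h3
    · rw [h3.2, mul_one] at h1
      exact h1.symm
    · exact (h3.1 rfl).elim
  · intro j _ hj
    rcases irr_orth (j : G → ℂ) (i : G → ℂ) j.2 i.2 with h3 | h3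
    · exact (hj (Subtype.ext h3.1)).elim
    · rw [h3.2, mul_zero]
  · intro h
    exact (h hi).elim

theorem mem_XX (φ : G → ℂ) : φ ∈ XX G ↔ IsIrr φ := by
  unfold XX
  rw [dif_pos irr_finite, Set.Finite.mem_toFinset]
  exact Iff.rfl


end Pool.Agent.H82.FIN
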