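import Pool.Agent.H82.FIN.Defs
import Pool.Agent.H52.VC.Irr

set_option autoImplicit false

/-!
PROJECT FIN (MP_bf82d2_ag, Finiteness; note 6077), module CTb.
The conjugate of an irreducible character is one.
PROOF. `W' = {f | star ∘ f ∈ W}` is a subspace, `lam`-invariant (`lam g` commutes with conjugation), minimal; the trace of
`lam g` on `W'` is the conjugate of that on `W` (take a basis `b i` of `W`, `star ∘ b i` is one of `W'`; the private
`cs_frm` of H52/VC/Frm.lean is this subspace and may be copied).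
-/

namespace Pool.Agent.H82.FIN

open Finset Module
open Pool.Agent.H93.Hup (Inv MinInv)
open Pool.Agent.H52.VC (lam subR)
open Pool.Agent.H82.CO (chi quadInv genus nu eps zeta)

variable {G : Type} [Group G] [Fintype G]

section

omit [Group G] [Fintype G]

/-- complex conjugation of functions -/
private noncomputable def cj_ctb (f : G → ℂ) : G → ℂ := fun x => (starRingEnd ℂ) (f x)

private theorem cj_cj_ctb (f : G → ℂ) : cj_ctb (cj_ctb f) = f := by
  funext x
  exact Complex.conj_conj (f x)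

private theorem cj_zero_ctb : cj_ctb (0 : G → ℂ) = 0 := by
  funext x
  exact map_zero (starRingEnd ℂ)

private theorem cj_add_ctb (f k : G → ℂ) : cj_ctb (f + k) = cj_ctb f + cj_ctb k := by
  funext x
  exact map_add (starRingEnd ℂ) (f x) (k x)

private theorem cj_smul_ctb (c : ℂ) (f : G → ℂ) :
    cj_ctb (c • f) = (starRingEnd ℂ) c • cj_ctb f := by
  funext x
  exact map_mul (starRingEnd ℂ) c (f x)

/-- the conjugate subspace -/
private noncomputable def cs_ctb (W : Submodule ℂ (G → ℂ)) : Submodule ℂ (G → ℂ) where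
  carrier := {f | cj_ctb f ∈ W}
  add_mem' := by
    intro f k hf hk
    show cj_ctb (f + k) ∈ W
    rw [cj_add_ctb]
    exact W.add_mem hf hk
  zero_mem' := by
    show cj_ctb 0 ∈ W
    rw [cj_zero_ctb]
    exact W.zero_mem
  smul_mem' := by
    intro c f hf
    show cj_ctb (c • f) ∈ W
    rw [cj_smul_ctb]
    exact W.smul_mem _ hf

private theorem mem_cs_ctb (W : Submodule ℂ (G → ℂ)) (f : G → ℂ) :
    f ∈ cs_ctb W ↔ cj_ctb f ∈ W := Iff.rfl

private theorem cs_cs_ctb (W : Submodule ℂ (G → ℂ)) : cs_ctb (cs_ctb W) = W := by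
  ext f
  rw [mem_cs_ctb, mem_cs_ctb, cj_cj_ctb]

private theorem cs_mono_ctb {W U : Submodule ℂ (G → ℂ)} (h : U ≤ W) : cs_ctb U ≤ cs_ctb W :=
  fun _ hf => h hf

private theorem cs_ne_ctb {W : Submodule ℂ (G → ℂ)} (h : W ≠ ⊥) : cs_ctb W ≠ ⊥ := by
  intro h1
  apply h
  rw [Submodule.eq_bot_iff]
  intro f hf
  have h2 : cj_ctb f ∈ cs_ctb W := by
    rw [mem_cs_ctb, cj_cj_ctb]
    exact hf
  rw [h1, Submodule.mem_bot] at h2
  rw [← cj_cj_ctb f, h2, cj_zero_ctb]

end

section

omit [Fintype G]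

private theorem cj_lam_ctb (g : G) (f : G → ℂ) : cj_ctb (lam g f) = lam g (cj_ctb f) := rfl

private theorem cs_inv_ctb {W : Submodule ℂ (G → ℂ)} (h : Inv (lam (G := G)) W) :
    Inv (lam (G := G)) (cs_ctb W) := by
  intro g f hf
  rw [mem_cs_ctb, cj_lam_ctb]
  exact h g _ hf

private theorem cs_min_ctb {W : Submodule ℂ (G → ℂ)} (h : MinInv (lam (G := G)) W) :
    MinInv (lam (G := G)) (cs_ctb W) := by
  refine ⟨cs_ne_ctb h.1, cs_inv_ctb h.2.1, fun U hU hle hne => ?_⟩
  have h1 : cs_ctb U ≤ W := by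
    rw [← cs_cs_ctb W]
    exact cs_mono_ctb hle
  have h2 := h.2.2 (cs_ctb U) (cs_inv_ctb hU) h1 (cs_ne_ctb hne)
  rw [← h2, cs_cs_ctb]

end

/-- conjugation from the conjugate subspace -/
private noncomputable def C_ctb (W : Submodule ℂ (G → ℂ)) (f : cs_ctb W) : W := ⟨cj_ctb f, f.2⟩

/-- conjugation to the conjugate subspace -/
private noncomputable def D_ctb (W : Submodule ℂ (G → ℂ)) (f : W) : cs_ctb W :=
  ⟨cj_ctb f, by
    rw [mem_cs_ctb, cj_cj_ctb]
    exact f.2⟩

/-- coordinates on the conjugate subspace -/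
private noncomputable def E_ctb (W : Submodule ℂ (G → ℂ)) {ι : Type} [Fintype ι]
    (b : Basis ι ℂ W) : cs_ctb W ≃ₗ[ℂ] (ι → ℂ) where
  toFun f := fun i => (starRingEnd ℂ) (b.equivFun (C_ctb W f) i)
  map_add' := by
    intro f k
    funext i
    have h : C_ctb W (f + k) = C_ctb W f + C_ctb W k := Subtype.ext (cj_add_ctb _ _)
    rw [h, map_add, Pi.add_apply, map_add, Pi.add_apply]
  map_smul' := by
    intro c f
    funext i
    have h : C_ctb W (c • f) = (starRingEnd ℂ) c • C_ctb W f := Subtype.ext (cj_smul_ctb _ _)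
    rw [h, map_smul, Pi.smul_apply, smul_eq_mul, map_mul, Complex.conj_conj, RingHom.id_apply,
      Pi.smul_apply, smul_eq_mul]
  invFun c := D_ctb W (b.equivFun.symm fun i => (starRingEnd ℂ) (c i))
  left_inv := by
    intro f
    have h : (fun i => (starRingEnd ℂ) ((starRingEnd ℂ) (b.equivFun (C_ctb W f) i))) =
        b.equivFun (C_ctb W f) := by
      funext i
      rw [Complex.conj_conj]
    show D_ctb W (b.equivFun.symm
      fun i => (starRingEnd ℂ) ((starRingEnd ℂ) (b.equivFun (C_ctb W f) i))) = f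
    rw [h, LinearEquiv.symm_apply_apply]
    exact Subtype.ext (cj_cj_ctb _)
  right_inv := by
    intro c
    funext i
    have h : C_ctb W (D_ctb W (b.equivFun.symm fun i => (starRingEnd ℂ) (c i))) =
        b.equivFun.symm fun i => (starRingEnd ℂ) (c i) := Subtype.ext (cj_cj_ctb _)
    show (starRingEnd ℂ) (b.equivFun
      (C_ctb W (D_ctb W (b.equivFun.symm fun i => (starRingEnd ℂ) (c i)))) i) = c i
    rw [h, LinearEquiv.apply_symm_apply, Complex.conj_conj]

omit [Group G] [Fintype G] in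
private theorem E_apply_ctb (W : Submodule ℂ (G → ℂ)) {ι : Type} [Fintype ι]
    (b : Basis ι ℂ W) (f : cs_ctb W) (i : ι) :
    E_ctb W b f i = (starRingEnd ℂ) (b.equivFun (C_ctb W f) i) := rfl

private theorem trace_ctb (W : Submodule ℂ (G → ℂ)) (hW : Inv (lam (G := G)) W)
    (hW' : Inv (lam (G := G)) (cs_ctb W)) (g : G) :
    LinearMap.trace ℂ (cs_ctb W) (subR lam (cs_ctb W) hW' g) =
      (starRingEnd ℂ) (LinearMap.trace ℂ W (subR lam W hW g)) := by
  classical
  obtain ⟨b⟩ : Nonempty (Basis (Fin (finrank ℂ W)) ℂ W) := ⟨finBasis ℂ W⟩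
  obtain ⟨b', hb'⟩ : ∃ b' : Basis (Fin (finrank ℂ W)) ℂ (cs_ctb W),
      b' = Basis.ofEquivFun (E_ctb W b) := ⟨_, rfl⟩
  have hrep : ∀ f i, b'.repr f i = (starRingEnd ℂ) (b.repr (C_ctb W f) i) := by
    intro f i
    rw [hb', Basis.ofEquivFun_repr_apply, E_apply_ctb, Basis.equivFun_apply]
  have hvec : ∀ i, C_ctb W (b' i) = b i := by
    intro i
    apply b.repr.injective
    ext j
    have h1 := hrep (b' i) j
    rw [Basis.repr_self] at h1
    have h2 := congrArg (starRingEnd ℂ) h1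
    rw [Complex.conj_conj] at h2
    rw [← h2, Basis.repr_self, Finsupp.single_apply]
    split_ifs
    · exact map_one _
    · exact map_zero _
  have hC : ∀ f, C_ctb W (subR lam (cs_ctb W) hW' g f) = subR lam W hW g (C_ctb W f) :=
    fun f => rfl
  rw [LinearMap.trace_eq_matrix_trace ℂ b', LinearMap.trace_eq_matrix_trace ℂ b,
    Matrix.trace, Matrix.trace, map_sum]
  refine sum_congr rfl fun i _ => ?_
  rw [Matrix.diag_apply, Matrix.diag_apply, LinearMap.toMatrix_apply, LinearMap.toMatrix_apply,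
    hrep, hC, hvec]

theorem irr_cj (φ : G → ℂ) (hφ : IsIrr φ) : IsIrr (cj φ) := by
  obtain ⟨W, hW, h⟩ := hφ
  refine ⟨cs_ctb W, cs_min_ctb hW, fun g => ?_⟩
  rw [trace_ctb W hW.2.1 (cs_min_ctb hW).2.1 g, ← h g]
  rfl


end Pool.Agent.H82.FIN
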