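import Pool.Agent.H82.FIN.CTa
import Pool.Agent.H52.VC.Cmp

set_option autoImplicit false

/-!
PROJECT FIN (MP_bf82d2_ag, Finiteness; note 6077), module CTc.
Class functions are combinations of irreducible characters.
PROOF. `f' = f - ∑ φ ∈ XX G, pr f φ • φ` is a class function with `pr f' φ = 0` for all irreducible `φ` (`irr_orth`), so it
is `0` by `complete` (H52.VC.Cmp).  `reg_exp`: `f = n δ_1` has `pr f φ = φ 1`.
-/

namespace Pool.Agent.H82.FIN

open Finset Module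
open Pool.Agent.H93.Hup (Inv MinInv)
open Pool.Agent.H52.VC (lam subR)
open Pool.Agent.H82.CO (chi quadInv genus nu eps zeta)

variable {G : Type} [Group G] [Fintype G]

theorem irr_class (φ : G → ℂ) (hφ : IsIrr φ) (g x : G) : φ (x * g * x⁻¹) = φ g := by
  obtain ⟨W, hW, h⟩ := hφ
  rw [h, h, map_mul (subR lam W hW.2.1), map_mul (subR lam W hW.2.1), LinearMap.trace_mul_comm,
    ← mul_assoc, ← map_mul (subR lam W hW.2.1), inv_mul_cancel, map_one, one_mul]

private theorem ctc_orth (φ ψ : G → ℂ) (hφ : IsIrr φ) (hψ : IsIrr ψ) :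
    (open Classical in if φ = ψ then (1 : ℂ) else 0) = pr φ ψ := by
  classical
  rcases irr_orth φ ψ hφ hψ with ⟨h1, h2⟩ | ⟨h1, h2⟩
  · rw [if_pos h1, h2]
  · rw [if_neg h1, h2]

private theorem ctc_pr (f : G → ℂ) (ψ : G → ℂ) (hψ : IsIrr ψ) :
    pr (fun g => f g - ∑ φ ∈ XX G, pr f φ * φ g) ψ = 0 := by
  classical
  have h1 : pr (fun g => f g - ∑ φ ∈ XX G, pr f φ * φ g) ψ =
      pr f ψ - ∑ φ ∈ XX G, pr f φ * pr φ ψ := by
    unfold pr
    have h2 : ∀ g : G, (f g - ∑ φ ∈ XX G, (1 / (Nat.card G : ℂ)) * (∑ k, f k * φ k⁻¹) * φ g) *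
        ψ g⁻¹ = f g * ψ g⁻¹ -
        ∑ φ ∈ XX G, (1 / (Nat.card G : ℂ)) * (∑ k, f k * φ k⁻¹) * (φ g * ψ g⁻¹) := by
      intro g
      rw [sub_mul, sum_mul]
      congr 1
      exact sum_congr rfl fun φ _ => mul_assoc _ _ _
    rw [sum_congr rfl fun g _ => h2 g, sum_sub_distrib, sum_comm, mul_sub]
    congr 1
    rw [mul_sum]
    refine sum_congr rfl fun φ _ => ?_
    rw [← mul_sum (univ : Finset G)]
    ring
  rw [h1]
  have h3 : ∑ φ ∈ XX G, pr f φ * pr φ ψ = ∑ φ ∈ XX G, if φ = ψ then pr f φ else 0 := by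
    refine sum_congr rfl fun φ hφ => ?_
    rw [← ctc_orth φ ψ ((mem_XX φ).1 hφ) hψ]
    split_ifs
    · rw [mul_one]
    · rw [mul_zero]
  rw [h3, sum_ite_eq', if_pos ((mem_XX ψ).2 hψ), sub_self]

theorem irr_exp (f : G → ℂ) (hf : ∀ g x, f (x * g * x⁻¹) = f g) (g : G) :
    f g = ∑ φ ∈ XX G, pr f φ * φ g := by
  classical
  have hn : (1 / (Nat.card G : ℂ)) ≠ 0 := by
    rw [one_div]
    exact inv_ne_zero (by exact_mod_cast Nat.card_pos.ne')
  have h := Pool.Agent.H52.VC.complete (fun g => f g - ∑ φ ∈ XX G, pr f φ * φ g) (by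
    intro g x
    show f (x * g * x⁻¹) - ∑ φ ∈ XX G, pr f φ * φ (x * g * x⁻¹) = f g - ∑ φ ∈ XX G, pr f φ * φ g
    rw [hf]
    congr 1
    exact sum_congr rfl fun φ hφ => by rw [irr_class φ ((mem_XX φ).1 hφ)]) (by
    intro W hW
    have h1 := ctc_pr f (fun g => LinearMap.trace ℂ W (subR lam W hW.2.1 g)) ⟨W, hW, fun g => rfl⟩
    exact (mul_eq_zero.1 h1).resolve_left hn)
  have h2 : f g - ∑ φ ∈ XX G, pr f φ * φ g = 0 := congrFun h g
  exact sub_eq_zero.1 h2

open Classical in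
theorem reg_exp (g : G) : (if g = 1 then (Nat.card G : ℂ) else 0) = ∑ φ ∈ XX G, φ 1 * φ g := by
  have hn : (Nat.card G : ℂ) ≠ 0 := by exact_mod_cast Nat.card_pos.ne'
  have h := irr_exp (fun g : G => if g = 1 then (Nat.card G : ℂ) else 0) (by
    intro g x
    show (if x * g * x⁻¹ = 1 then (Nat.card G : ℂ) else 0) = if g = 1 then (Nat.card G : ℂ) else 0
    by_cases h1 : g = 1
    · rw [if_pos h1, if_pos (by rw [h1, mul_one, mul_inv_cancel])]
    · rw [if_neg h1, if_neg fun h2 => h1 (conj_eq_one_iff.1 h2)]) g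
  have h1 : (if g = 1 then (Nat.card G : ℂ) else 0) =
      ∑ φ ∈ XX G, pr (fun g : G => if g = 1 then (Nat.card G : ℂ) else 0) φ * φ g := h
  rw [h1]
  refine sum_congr rfl fun φ _ => ?_
  congr 1
  unfold pr
  have h2 : ∀ k : G, (if k = 1 then (Nat.card G : ℂ) else 0) * φ k⁻¹ =
      if k = 1 then (Nat.card G : ℂ) * φ 1 else 0 := by
    intro k
    split_ifs with h3
    · rw [h3, inv_one]
    · rw [zero_mul]
  rw [sum_congr rfl fun k _ => h2 k, sum_ite_eq', if_pos (mem_univ _)]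
  field_simp


end Pool.Agent.H82.FIN
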