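import Pool.Agent.H82.FIN.Defs
import Pool.Agent.H52.VC.Irr

set_option autoImplicit false

/-!
PROJECT FIN (MP_bf82d2_ag, Finiteness; note 6077), module CTd.
Basic facts on an irreducible character.
PROOF. `trace_inv` (H52.VC.Irr); `φ 1 = finrank W ≥ 1` as `W ≠ ⊥`; `|trace| ≤ dimension` for an operator of finite order (a
unitary one: `exists_unitary`, H52.VC.Uni; or eigenvalues are roots of unity).
-/

namespace Pool.Agent.H82.FIN

open Finset Module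
open Pool.Agent.H93.Hup (Inv MinInv)
open Pool.Agent.H52.VC (lam subR)
open Pool.Agent.H82.CO (chi quadInv genus nu eps zeta)

variable {G : Type} [Group G] [Fintype G]

theorem irr_inv (φ : G → ℂ) (hφ : IsIrr φ) (g : G) : φ g⁻¹ = (starRingEnd ℂ) (φ g) := by
  obtain ⟨W, hW, h⟩ := hφ
  rw [h, h]
  exact Pool.Agent.H52.VC.trace_inv _ _

theorem irr_one (φ : G → ℂ) (hφ : IsIrr φ) : ∃ d : ℕ, 1 ≤ d ∧ φ 1 = d := by
  obtain ⟨W, hW, h⟩ := hφ
  refine ⟨finrank ℂ W, ?_, ?_⟩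
  · exact Submodule.one_le_finrank_iff.2 hW.1
  · rw [h, map_one, LinearMap.trace_one]

theorem irr_norm (φ : G → ℂ) (hφ : IsIrr φ) (g : G) : ‖φ g‖ ≤ (φ 1).re := by
  obtain ⟨W, hW, h⟩ := hφ
  rw [h, h, map_one, LinearMap.trace_one, Complex.natCast_re]
  obtain ⟨ρ', e, hu, he⟩ := Pool.Agent.H52.VC.exists_unitary (subR lam W hW.2.1)
  rw [Pool.Agent.H52.VC.trace_tr (subR lam W hW.2.1) ρ' e he g]
  have b := stdOrthonormalBasis ℂ (EuclideanSpace ℂ (Fin (finrank ℂ W)))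
  rw [LinearMap.trace_eq_sum_inner (ρ' g) b]
  have h1 : ∀ i, ‖inner ℂ (b i) (ρ' g (b i))‖ ≤ 1 := by
    intro i
    have h2 : ‖ρ' g (b i)‖ = 1 := by
      have h3 : inner ℂ (ρ' g (b i)) (ρ' g (b i)) = inner ℂ (b i) (b i) := hu g (b i) (b i)
      rw [inner_self_eq_norm_sq_to_K, inner_self_eq_norm_sq_to_K, b.norm_eq_one] at h3
      have h4 : ‖ρ' g (b i)‖ ^ 2 = 1 := by
        have h5 : ((‖ρ' g (b i)‖ ^ 2 : ℝ) : ℂ) = ((1 : ℝ) : ℂ) := by
          push_cast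
          simpa using h3
        exact_mod_cast h5
      nlinarith [norm_nonneg (ρ' g (b i))]
    calc ‖inner ℂ (b i) (ρ' g (b i))‖ ≤ ‖b i‖ * ‖ρ' g (b i)‖ := norm_inner_le_norm _ _
      _ = 1 := by rw [h2, b.norm_eq_one, one_mul]
  calc ‖∑ i, inner ℂ (b i) (ρ' g (b i))‖ ≤ ∑ i, ‖inner ℂ (b i) (ρ' g (b i))‖ := norm_sum_le _ _
    _ ≤ ∑ _i : Fin (finrank ℂ (EuclideanSpace ℂ (Fin (finrank ℂ W)))), (1 : ℝ) := sum_le_sum fun i _ => h1 i
    _ = (finrank ℂ W : ℝ) := by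
      rw [sum_const, card_univ, Fintype.card_fin, finrank_euclideanSpace_fin, nsmul_eq_mul, mul_one]


end Pool.Agent.H82.FIN
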