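import Pool.Agent.H82.FIN.Defs
import Pool.Agent.H52.VC.Irr

set_option autoImplicit false

/-!
PROJECT FIN (MP_bf82d2_ag, Finiteness; note 6077), module CTe.
The space of vectors fixed by a subgroup.
PROOF. The average of `ρ k`, `k ∈ K`, is a projection onto the fixed space of `K`; its trace is the dimension
(`LinearMap.IsProj.trace`).  `avg_normal`: for `K` normal the fixed space is an invariant subspace of the irreducible space
`W`: it is `0` or `W`.
-/

namespace Pool.Agent.H82.FIN

open Finset Module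
open Pool.Agent.H93.Hup (Inv MinInv)
open Pool.Agent.H52.VC (lam subR)
open Pool.Agent.H82.CO (chi quadInv genus nu eps zeta)

variable {G : Type} [Group G] [Fintype G]

private theorem CTe_card (K : Subgroup G) [DecidablePred fun x : G => x ∈ K] :
    ((univ : Finset G).filter (fun x => x ∈ K)).card = Nat.card K := by
  classical
  rw [← Fintype.card_subtype, ← Nat.card_eq_fintype_card]

private theorem CTe_avg {V : Type} [AddCommGroup V] [Module ℂ V] [FiniteDimensional ℂ V] (ρ : Representation ℂ G V)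
    (K : Subgroup G) :
    avg K (fun g => LinearMap.trace ℂ V (ρ g)) = finrank ℂ (Pool.Agent.H52.VC.fixG ρ K) := by
  classical
  have hK : (Nat.card K : ℂ) ≠ 0 := by exact_mod_cast Nat.card_pos.ne'
  set A : V →ₗ[ℂ] V := (1 / (Nat.card K : ℂ)) • ∑ h : G, (if h ∈ K then ρ h else 0) with hA
  have hAv : ∀ v, A v = (1 / (Nat.card K : ℂ)) • ∑ h : G, (if h ∈ K then ρ h v else 0) := by
    intro v
    rw [hA, LinearMap.smul_apply, LinearMap.sum_apply]
    congr 1
    refine sum_congr rfl fun h _ => ?_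
    split_ifs <;> rfl
  have hproj : LinearMap.IsProj (Pool.Agent.H52.VC.fixG ρ K) A := by
    constructor
    · intro v
      rw [Pool.Agent.H52.VC.mem_fixG]
      intro k hk
      rw [hAv, map_smul, map_sum]
      congr 1
      refine Fintype.sum_equiv (Equiv.mulLeft k) _ _ fun h => ?_
      show ρ k (if h ∈ K then ρ h v else 0) = if k * h ∈ K then ρ (k * h) v else 0
      have h1 : k * h ∈ K ↔ h ∈ K := K.mul_mem_cancel_left hk
      by_cases hh : h ∈ K
      · rw [if_pos hh, if_pos (h1.2 hh), map_mul]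
        rfl
      · rw [if_neg hh, if_neg (fun h' => hh (h1.1 h')), map_zero]
    · intro v hv
      rw [Pool.Agent.H52.VC.mem_fixG] at hv
      rw [hAv]
      have h1 : ∑ h : G, (if h ∈ K then ρ h v else 0) = (Nat.card K : ℂ) • v := by
        rw [← sum_filter, sum_congr rfl (fun h hh => hv h (mem_filter.1 hh).2), sum_const, CTe_card, Nat.cast_smul_eq_nsmul]
      rw [h1, smul_smul, one_div, inv_mul_cancel₀ hK, one_smul]
  have h1 := hproj.trace
  rw [← h1, hA, avg, map_smul, map_sum, smul_eq_mul]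
  congr 1
  refine sum_congr rfl fun h _ => ?_
  split_ifs with hh
  · rfl
  · rw [map_zero]

private theorem CTe_one {V : Type} [AddCommGroup V] [Module ℂ V] [FiniteDimensional ℂ V] (ρ : Representation ℂ G V)
    (g : G) (h : LinearMap.trace ℂ V (ρ g) = finrank ℂ V) : ρ g = 1 := by
  obtain ⟨ρ', e, hu, he⟩ := Pool.Agent.H52.VC.exists_unitary ρ
  have ht := Pool.Agent.H52.VC.trace_tr ρ ρ' e he g
  rw [h] at ht
  have b := stdOrthonormalBasis ℂ (EuclideanSpace ℂ (Fin (finrank ℂ V)))
  rw [LinearMap.trace_eq_sum_inner (ρ' g) b] at ht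
  have hn : ∀ x, ‖ρ' g x‖ = ‖x‖ := by
    intro x
    have h1 := hu g x x
    rw [inner_self_eq_norm_sq_to_K, inner_self_eq_norm_sq_to_K] at h1
    have h2 : ‖ρ' g x‖ ^ 2 = ‖x‖ ^ 2 := by exact_mod_cast h1
    exact (pow_left_inj₀ (norm_nonneg _) (norm_nonneg _) two_ne_zero).1 h2
  have hd : ∀ i, ‖ρ' g (b i) - b i‖ ^ 2 = 2 - 2 * (inner ℂ (b i) (ρ' g (b i))).re := by
    intro i
    have hc : (inner ℂ (ρ' g (b i)) (b i)).re = (inner ℂ (b i) (ρ' g (b i))).re := by
      rw [← inner_conj_symm (ρ' g (b i)) (b i), Complex.conj_re]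
    rw [norm_sub_sq (𝕜 := ℂ), hn, b.norm_eq_one i]
    show (1 : ℝ) ^ 2 - 2 * (inner ℂ (ρ' g (b i)) (b i)).re + 1 ^ 2 = 2 - 2 * (inner ℂ (b i) (ρ' g (b i))).re
    rw [hc]
    ring
  have hsum : ∑ i, ‖ρ' g (b i) - b i‖ ^ 2 = 0 := by
    rw [sum_congr rfl fun i _ => hd i, sum_sub_distrib, ← mul_sum]
    have h3 := congrArg Complex.re ht
    rw [Complex.re_sum, Complex.natCast_re] at h3
    rw [← h3, sum_const, card_univ, nsmul_eq_mul, Fintype.card_fin, finrank_euclideanSpace_fin]
    ring
  have hz : ∀ i, ρ' g (b i) = b i := by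
    intro i
    have h4 := (sum_eq_zero_iff_of_nonneg fun i _ => sq_nonneg ‖ρ' g (b i) - b i‖).1 hsum i (mem_univ i)
    exact sub_eq_zero.1 (norm_eq_zero.1 (pow_eq_zero_iff two_ne_zero |>.1 h4))
  have hid : ρ' g = 1 := by
    apply b.toBasis.ext
    intro i
    rw [b.coe_toBasis]
    exact hz i
  apply LinearMap.ext
  intro x
  apply e.injective
  rw [he, hid]
  rfl

private theorem CTe_dim (W : Submodule ℂ (G → ℂ)) (hW : MinInv (lam (G := G)) W) :
    LinearMap.trace ℂ W (subR lam W hW.2.1 1) = finrank ℂ W := by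
  rw [map_one, LinearMap.trace_one]

theorem avg_nat (φ : G → ℂ) (hφ : IsIrr φ) (K : Subgroup G) : ∃ m : ℕ, avg K φ = m ∧ (m : ℝ) ≤ (φ 1).re := by
  obtain ⟨W, hW, h⟩ := hφ
  have h1 : φ = fun g => LinearMap.trace ℂ W (subR lam W hW.2.1 g) := funext h
  refine ⟨finrank ℂ (Pool.Agent.H52.VC.fixG (subR lam W hW.2.1) K), ?_, ?_⟩
  · rw [h1]
    exact CTe_avg _ K
  · rw [h 1, CTe_dim W hW, Complex.natCast_re]
    exact_mod_cast Submodule.finrank_le _

theorem avg_normal (φ : G → ℂ) (hφ : IsIrr φ) (K : Subgroup G) (hK : K.Normal) :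
    avg K φ = 0 ∨ (avg K φ = φ 1 ∧ ∀ k ∈ K, ∀ g, φ (g * k) = φ g) := by
  obtain ⟨W, hW, h⟩ := hφ
  have h1 : φ = fun g => LinearMap.trace ℂ W (subR lam W hW.2.1 g) := funext h
  have h2 : avg K φ = finrank ℂ (Pool.Agent.H52.VC.fixG (subR lam W hW.2.1) K) := by
    rw [h1]
    exact CTe_avg _ K
  by_cases hb : Pool.Agent.H52.VC.fixG (subR lam W hW.2.1) K = ⊥
  · left
    rw [h2, hb, finrank_bot, Nat.cast_zero]
  · right
    have hmap : (Pool.Agent.H52.VC.fixG (subR lam W hW.2.1) K).map W.subtype = W := by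
      apply hW.2.2
      · rintro g v ⟨w, hw, rfl⟩
        refine ⟨subR lam W hW.2.1 g w, ?_, rfl⟩
        intro k hk
        have h3 : g⁻¹ * k * g ∈ K := by
          have := hK.conj_mem k hk g⁻¹
          rwa [inv_inv] at this
        have h4 : subR lam W hW.2.1 (g⁻¹ * k * g) w = w := hw _ h3
        calc subR lam W hW.2.1 k (subR lam W hW.2.1 g w)
            = subR lam W hW.2.1 g (subR lam W hW.2.1 (g⁻¹ * k * g) w) := by
              rw [← Module.End.mul_apply, ← map_mul, ← Module.End.mul_apply, ← map_mul]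
              congr 2
              group
          _ = subR lam W hW.2.1 g w := by rw [h4]
      · rintro v ⟨w, _, rfl⟩
        exact w.2
      · intro h5
        apply hb
        rw [Submodule.eq_bot_iff]
        intro x hx
        have h6 : (x : G → ℂ) ∈ (Pool.Agent.H52.VC.fixG (subR lam W hW.2.1) K).map W.subtype := ⟨x, hx, rfl⟩
        rw [h5, Submodule.mem_bot] at h6
        exact Subtype.ext h6
    have hfix : ∀ x : W, x ∈ Pool.Agent.H52.VC.fixG (subR lam W hW.2.1) K := by
      intro x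
      have h7 : (x : G → ℂ) ∈ (Pool.Agent.H52.VC.fixG (subR lam W hW.2.1) K).map W.subtype := by
        rw [hmap]
        exact x.2
      obtain ⟨w, hw, hwx⟩ := h7
      have h8 : w = x := Subtype.ext hwx
      rw [← h8]
      exact hw
    have htop : Pool.Agent.H52.VC.fixG (subR lam W hW.2.1) K = ⊤ := by
      rw [eq_top_iff]
      intro x _
      exact hfix x
    refine ⟨?_, ?_⟩
    · rw [h2, h 1, CTe_dim W hW, htop, finrank_top]
    · intro k hk g
      rw [h, h, map_mul]
      congr 1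
      apply LinearMap.ext
      intro x
      rw [Module.End.mul_apply, (Pool.Agent.H52.VC.mem_fixG _ _ _).1 (hfix x) k hk]

/-- for normal `K`: `K` acts trivially if all elements of a set with normal closure `K` do -/
theorem avg_closure (φ : G → ℂ) (hφ : IsIrr φ) (T : Set G) (hT : ∀ c ∈ T, φ c = φ 1) :
    ∀ k ∈ Subgroup.normalClosure T, ∀ g, φ (g * k) = φ g := by
  obtain ⟨W, hW, h⟩ := hφ
  have h1 : Subgroup.normalClosure T ≤ MonoidHom.ker (subR lam W hW.2.1) := by
    apply Subgroup.normalClosure_le_normal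
    intro c hc
    apply MonoidHom.mem_ker.2
    apply CTe_one
    rw [← h, hT c hc, h, CTe_dim W hW]
  intro k hk g
  have h2 : subR lam W hW.2.1 k = 1 := MonoidHom.mem_ker.1 (h1 hk)
  rw [h, h, map_mul, h2, mul_one]

end Pool.Agent.H82.FIN
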