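import Pool.Agent.H82.FIN.Defs
import Pool.Agent.H52.VC.Irr

set_option autoImplicit false

/-!
PROJECT FIN (MP_bf82d2_ag, Finiteness; note 6077), module CTf.
The degree is at most the index of an abelian subgroup.
PROOF. `W` irreducible.  The commuting operators `ρ a`, `a ∈ A`, have a common eigenvector `v ≠ 0` in `W` (they are
diagonalisable, or induction / `Module.End` joint eigenspaces).  The span of `ρ g v`, `g` in a set of representatives of the
left cosets `G / A`, is invariant, so it is `W`: `finrank W ≤ [G : A]`.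
-/

namespace Pool.Agent.H82.FIN

open Finset Module
open Pool.Agent.H93.Hup (Inv MinInv)
open Pool.Agent.H52.VC (lam subR)
open Pool.Agent.H82.CO (chi quadInv genus nu eps zeta)

variable {G : Type} [Group G] [Fintype G]

omit [Fintype G] in
private theorem common_vec {X : Type} [AddCommGroup X] [Module ℂ X] [FiniteDimensional ℂ X]
    (ρ : Representation ℂ G X) (W : Submodule ℂ X) (hW0 : W ≠ ⊥) (hW : Inv ρ W) (A : Subgroup G)
    (hA : ∀ a ∈ A, ∀ c ∈ A, a * c = c * a) :
    ∃ v ∈ W, v ≠ 0 ∧ ∀ a ∈ A, ∃ c : ℂ, ρ a v = c • v := by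
  have hWA : Inv (ρ.comp A.subtype : Representation ℂ A X) W := fun a v hv => hW a v hv
  obtain ⟨U, hUW, hU⟩ := Pool.Agent.H93.Hup.exists_minInv (ρ.comp A.subtype : Representation ℂ A X) W hWA hW0
  obtain ⟨v, hvU, hv0⟩ := (Submodule.ne_bot_iff U).1 hU.1
  refine ⟨v, hUW hvU, hv0, fun a ha => ?_⟩
  have hn : Nontrivial U := ⟨⟨⟨v, hvU⟩, 0, fun h => hv0 (congrArg Subtype.val h)⟩⟩
  obtain ⟨c, hc⟩ := Module.End.exists_eigenvalue ((ρ a).restrict (p := U) (q := U) fun w hw => hU.2.1 ⟨a, ha⟩ w hw)
  obtain ⟨w, hw⟩ := hc.exists_hasEigenvector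
  have hw1 : ρ a (w : X) = c • (w : X) := congrArg Subtype.val hw.apply_eq_smul
  have hE := hU.2.2 (U ⊓ Module.End.eigenspace (ρ a) c) (by
    intro b u hu
    refine ⟨hU.2.1 b u hu.1, ?_⟩
    have hu2 := Module.End.mem_eigenspace_iff.1 hu.2
    refine Module.End.mem_eigenspace_iff.2 ?_
    change ρ a (ρ (b : G) u) = c • ρ (b : G) u
    rw [← Module.End.mul_apply, ← map_mul, hA a ha b b.2, map_mul, Module.End.mul_apply, hu2, map_smul])
    inf_le_left (by
      intro h
      have h2 : (w : X) ∈ U ⊓ Module.End.eigenspace (ρ a) c := ⟨w.2, Module.End.mem_eigenspace_iff.2 hw1⟩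
      rw [h, Submodule.mem_bot] at h2
      exact hw.2 (Subtype.ext h2))
  have hv : v ∈ U ⊓ Module.End.eigenspace (ρ a) c := by rw [hE]; exact hvU
  exact ⟨c, Module.End.mem_eigenspace_iff.1 hv.2⟩

theorem irr_deg (φ : G → ℂ) (hφ : IsIrr φ) (A : Subgroup G) (hA : ∀ a ∈ A, ∀ c ∈ A, a * c = c * a) :
    (φ 1).re ≤ A.index := by
  classical
  obtain ⟨W, hW, hφ⟩ := hφ
  have h1 : φ 1 = (finrank ℂ W : ℂ) := by
    rw [hφ, map_one, LinearMap.trace_one]
  rw [h1, Complex.natCast_re, Nat.cast_le]
  obtain ⟨v, hvW, hv0, hc⟩ := common_vec lam W hW.1 hW.2.1 A hA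
  have hS : Submodule.span ℂ (Set.range fun x : G ⧸ A => lam (Quotient.out x) v) = W := by
    refine hW.2.2 _ ?_ ?_ ?_
    · intro g u hu
      refine Submodule.span_induction (p := fun u _ => lam g u ∈
        Submodule.span ℂ (Set.range fun x : G ⧸ A => lam (Quotient.out x) v)) ?_ ?_ ?_ ?_ hu
      · rintro _ ⟨x, rfl⟩
        have h2 : (Quotient.out (QuotientGroup.mk (g * Quotient.out x) : G ⧸ A))⁻¹ * (g * Quotient.out x) ∈ A := by
          rw [← QuotientGroup.eq]
          exact Quotient.out_eq _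
        obtain ⟨c, hc'⟩ := hc _ h2
        have h3 : lam g (lam (Quotient.out x) v) =
            c • lam (Quotient.out (QuotientGroup.mk (g * Quotient.out x) : G ⧸ A)) v := by
          rw [← Module.End.mul_apply, ← map_mul, ← map_smul, ← hc', ← Module.End.mul_apply, ← map_mul,
            mul_inv_cancel_left]
        rw [h3]
        exact Submodule.smul_mem _ _ (Submodule.subset_span ⟨_, rfl⟩)
      · rw [map_zero]
        exact Submodule.zero_mem _
      · intro u w _ _ hu hw
        rw [map_add]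
        exact Submodule.add_mem _ hu hw
      · intro c u _ hu
        rw [map_smul]
        exact Submodule.smul_mem _ _ hu
    · rw [Submodule.span_le]
      rintro _ ⟨x, rfl⟩
      exact hW.2.1 _ v hvW
    · intro h
      have h2 : lam (Quotient.out (QuotientGroup.mk (1 : G) : G ⧸ A)) v ∈
          Submodule.span ℂ (Set.range fun x : G ⧸ A => lam (Quotient.out x) v) :=
        Submodule.subset_span ⟨_, rfl⟩
      rw [h, Submodule.mem_bot] at h2
      apply hv0
      have h3 := congrArg (lam (Quotient.out (QuotientGroup.mk (1 : G) : G ⧸ A))⁻¹) h2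
      rw [← Module.End.mul_apply, ← map_mul, inv_mul_cancel, map_one, map_zero] at h3
      exact h3
  rw [Subgroup.index_eq_card, Nat.card_eq_fintype_card, ← hS]
  exact finrank_range_le_card (R := ℂ) fun x : G ⧸ A => lam (Quotient.out x) v


end Pool.Agent.H82.FIN
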