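import Pool.Agent.H82.FIN.CTa
import Pool.Agent.H82.FIN.CTb
import Pool.Agent.H82.FIN.CTd
import Pool.Agent.H52.VC.Irr
import Pool.Agent.H52.VC.Qin

set_option autoImplicit false

/-!
PROJECT FIN (MP_bf82d2_ag, Finiteness; note 6077), module CTg.
The Frobenius-Schur number.
PROOF. `φ (g⁻¹) = conj (φ g)`, so `∑ φ (g^2)` is real.  The dimension of the space of invariant symmetric forms is
`(1/2n) ∑ (φ(g)^2 + φ(g^2)) ≥ 0` (`symInv_eq`), that of the alternating ones `(1/2n) ∑ (φ(g)^2 - φ(g^2)) ≥ 0` (same proof; or: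
the space of all invariant bilinear forms has dimension `(1/n) ∑ φ(g)^2` and contains `symInv`). `(1/n) ∑ φ(g)^2 = pr φ (cj φ)
= 1` if `φ = cj φ`, else `0` (`irr_orth`).
-/

namespace Pool.Agent.H82.FIN

open Finset Module
open Pool.Agent.H93.Hup (Inv MinInv)
open Pool.Agent.H52.VC (lam subR)
open Pool.Agent.H82.CO (chi quadInv genus nu eps zeta)

variable {G : Type} [Group G] [Fintype G]

section Ctg

variable {E : Type} [AddCommGroup E] [Module ℂ E]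

/-- `b ↦ b (A ·) (A ·)` -/
private noncomputable def T1_ctg (A : E →ₗ[ℂ] E) :
    (E →ₗ[ℂ] E →ₗ[ℂ] ℂ) →ₗ[ℂ] (E →ₗ[ℂ] E →ₗ[ℂ] ℂ) where
  toFun b := b.compl₁₂ A A
  map_add' := fun _ _ => rfl
  map_smul' := fun _ _ => rfl

/-- `b ↦ b (A ·) (A ·)` transposed -/
private noncomputable def T2_ctg (A : E →ₗ[ℂ] E) :
    (E →ₗ[ℂ] E →ₗ[ℂ] ℂ) →ₗ[ℂ] (E →ₗ[ℂ] E →ₗ[ℂ] ℂ) where
  toFun b := (b.compl₁₂ A A).flip
  map_add' := fun _ _ => rfl
  map_smul' := fun _ _ => rfl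

private theorem T1_apply_ctg (A : E →ₗ[ℂ] E) (b : E →ₗ[ℂ] E →ₗ[ℂ] ℂ) (x y : E) :
    T1_ctg A b x y = b (A x) (A y) := rfl

private theorem T2_apply_ctg (A : E →ₗ[ℂ] E) (b : E →ₗ[ℂ] E →ₗ[ℂ] ℂ) (x y : E) :
    T2_ctg A b x y = b (A y) (A x) := rfl

/-- the matrix of a form -/
private noncomputable def M_ctg {ι : Type} [Fintype ι] [DecidableEq ι] (e : Basis ι ℂ E) :
    (E →ₗ[ℂ] E →ₗ[ℂ] ℂ) ≃ₗ[ℂ] Matrix ι ι ℂ := LinearMap.toMatrix₂ e e

private theorem M_apply_ctg {ι : Type} [Fintype ι] [DecidableEq ι] (e : Basis ι ℂ E)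
    (b : E →ₗ[ℂ] E →ₗ[ℂ] ℂ) (i j : ι) : M_ctg e b i j = b (e i) (e j) :=
  LinearMap.toMatrix₂_apply e e b i j

private theorem basis_ctg {ι : Type} [Fintype ι] [DecidableEq ι] (e : Basis ι ℂ E) (i j : ι) (x y : E) :
    (M_ctg e).symm (Matrix.single i j (1 : ℂ)) x y = e.repr x i * e.repr y j := by
  unfold M_ctg
  rw [LinearMap.toMatrix₂_symm, Matrix.toLinearMap₂_apply]
  rw [Finset.sum_eq_single i, Finset.sum_eq_single j]
  · rw [Matrix.single_apply_same]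
    simp
  · intro l _ hl
    rw [Matrix.single_apply_of_col_ne _ _ (Ne.symm hl)]
    simp
  · intro h
    exact absurd (mem_univ _) h
  · intro k _ hk
    refine Finset.sum_eq_zero fun l _ => ?_
    rw [Matrix.single_apply_of_row_ne (Ne.symm hk)]
    simp
  · intro h
    exact absurd (mem_univ _) h

private theorem trace_ctg {ι : Type} [Fintype ι] [DecidableEq ι] (e : Basis ι ℂ E)
    (T : (E →ₗ[ℂ] E →ₗ[ℂ] ℂ) →ₗ[ℂ] (E →ₗ[ℂ] E →ₗ[ℂ] ℂ)) :
    LinearMap.trace ℂ _ T = ∑ i, ∑ j,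
      T ((M_ctg e).symm (Matrix.single i j (1 : ℂ))) (e i) (e j) := by
  rw [LinearMap.trace_eq_matrix_trace ℂ ((Matrix.stdBasis ℂ ι ι).map (M_ctg e).symm),
    Matrix.trace, Fintype.sum_prod_type]
  refine Finset.sum_congr rfl fun i _ => Finset.sum_congr rfl fun j _ => ?_
  rw [Matrix.diag_apply, LinearMap.toMatrix_apply, Basis.map_apply, Matrix.stdBasis_eq_single,
    Basis.map_repr, LinearEquiv.trans_apply, LinearEquiv.symm_symm]
  have h1 : ∀ M : Matrix ι ι ℂ, (Matrix.stdBasis ℂ ι ι).repr M (i, j) = M i j := by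
    intro M
    rw [Matrix.stdBasis]
    simp
  rw [h1, M_apply_ctg]

private theorem trace_eq_ctg {ι : Type} [Fintype ι] [DecidableEq ι] (e : Basis ι ℂ E) (A : E →ₗ[ℂ] E) :
    LinearMap.trace ℂ E A = ∑ i, e.repr (A (e i)) i := by
  rw [LinearMap.trace_eq_matrix_trace ℂ e, Matrix.trace]
  refine Finset.sum_congr rfl fun i _ => ?_
  rw [Matrix.diag_apply, LinearMap.toMatrix_apply]

private theorem trace_T1_ctg {ι : Type} [Fintype ι] [DecidableEq ι] (e : Basis ι ℂ E) (A : E →ₗ[ℂ] E) :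
    LinearMap.trace ℂ _ (T1_ctg A) = LinearMap.trace ℂ E A ^ 2 := by
  rw [trace_ctg e, trace_eq_ctg e, sq, Finset.sum_mul_sum]
  refine Finset.sum_congr rfl fun i _ => Finset.sum_congr rfl fun j _ => ?_
  rw [T1_apply_ctg, basis_ctg]

private theorem trace_T2_ctg {ι : Type} [Fintype ι] [DecidableEq ι] (e : Basis ι ℂ E) (A : E →ₗ[ℂ] E) :
    LinearMap.trace ℂ _ (T2_ctg A) = LinearMap.trace ℂ E (A * A) := by
  rw [trace_ctg e, LinearMap.trace_eq_matrix_trace ℂ e, LinearMap.toMatrix_mul, Matrix.trace]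
  refine Finset.sum_congr rfl fun i _ => ?_
  rw [Matrix.diag_apply, Matrix.mul_apply]
  refine Finset.sum_congr rfl fun j _ => ?_
  rw [T2_apply_ctg, basis_ctg, LinearMap.toMatrix_apply, LinearMap.toMatrix_apply]

end Ctg

/-- the invariant alternating bilinear forms -/
private def alt_ctg {E : Type} [AddCommGroup E] [Module ℂ E] (ρ : Representation ℂ G E) : Submodule ℂ (E →ₗ[ℂ] E →ₗ[ℂ] ℂ) where
  carrier := {b | (∀ x y, b x y = -b y x) ∧ ∀ g x y, b (ρ g x) (ρ g y) = b x y}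
  add_mem' := by
    intro b c hb hc
    refine ⟨fun x y => ?_, fun g x y => ?_⟩
    · simp only [LinearMap.add_apply]
      rw [hb.1 x y, hc.1 x y]
      ring
    · simp only [LinearMap.add_apply]
      rw [hb.2 g x y, hc.2 g x y]
  zero_mem' := ⟨fun x y => by simp, fun g x y => rfl⟩
  smul_mem' := by
    intro a b hb
    refine ⟨fun x y => ?_, fun g x y => ?_⟩
    · simp only [LinearMap.smul_apply]
      rw [hb.1 x y, smul_neg]
    · simp only [LinearMap.smul_apply]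
      rw [hb.2 g x y]

private theorem altInv_ctg {E : Type} [AddCommGroup E] [Module ℂ E] [FiniteDimensional ℂ E]
    (σ : Representation ℂ G E) : (finrank ℂ (alt_ctg σ) : ℂ) =
      (1 / (2 * (Nat.card G : ℂ))) * ∑ g, (LinearMap.trace ℂ E (σ g) ^ 2 - LinearMap.trace ℂ E (σ (g ^ 2))) := by
  classical
  obtain ⟨c, hc⟩ : ∃ c : ℂ, c = 1 / (2 * (Nat.card G : ℂ)) := ⟨_, rfl⟩
  have hn : (Nat.card G : ℂ) ≠ 0 := by
    rw [Nat.card_eq_fintype_card]
    exact_mod_cast Fintype.card_ne_zero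
  obtain ⟨P, hP⟩ : ∃ P : (E →ₗ[ℂ] E →ₗ[ℂ] ℂ) →ₗ[ℂ] (E →ₗ[ℂ] E →ₗ[ℂ] ℂ),
      P = c • ∑ g, (T1_ctg (σ g) - T2_ctg (σ g)) := ⟨_, rfl⟩
  have hPa : ∀ b x y, P b x y = c * ∑ g, (b (σ g x) (σ g y) - b (σ g y) (σ g x)) := by
    intro b x y
    rw [hP, LinearMap.smul_apply, LinearMap.sum_apply, LinearMap.smul_apply, LinearMap.smul_apply,
      LinearMap.sum_apply, LinearMap.sum_apply, smul_eq_mul]
    rfl
  have hproj : LinearMap.IsProj (alt_ctg σ) P := by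
    refine ⟨fun b => ⟨fun x y => ?_, fun g x y => ?_⟩, fun b hb => ?_⟩
    · rw [hPa, hPa, ← mul_neg, ← Finset.sum_neg_distrib]
      congr 1
      exact Finset.sum_congr rfl fun g _ => by ring
    · rw [hPa, hPa]
      congr 1
      refine Fintype.sum_equiv (Equiv.mulRight g) _ _ fun h => ?_
      have h1 : ∀ z, σ h (σ g z) = σ (h * g) z := by
        intro z
        rw [map_mul]
        rfl
      rw [h1, h1, Equiv.coe_mulRight]
    · refine LinearMap.ext fun x => LinearMap.ext fun y => ?_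
      rw [hPa, Finset.sum_congr rfl fun g _ => by
        rw [hb.2 g x y, hb.2 g y x, hb.1 y x], Finset.sum_const, nsmul_eq_mul, Finset.card_univ,
        ← Nat.card_eq_fintype_card, hc]
      field_simp
      ring
  have h1 : Module.Free ℂ (alt_ctg σ) := Module.Free.of_divisionRing ℂ (alt_ctg σ)
  have h2 : Module.Free ℂ (LinearMap.ker P) := Module.Free.of_divisionRing ℂ (LinearMap.ker P)
  rw [← LinearMap.IsProj.trace hproj, hP, map_smul, map_sum, smul_eq_mul, ← hc]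
  congr 1
  refine Finset.sum_congr rfl fun g _ => ?_
  have h3 : LinearMap.trace ℂ (E →ₗ[ℂ] E →ₗ[ℂ] ℂ) (T1_ctg (σ g) - T2_ctg (σ g)) =
      LinearMap.trace ℂ (E →ₗ[ℂ] E →ₗ[ℂ] ℂ) (T1_ctg (σ g)) - LinearMap.trace ℂ (E →ₗ[ℂ] E →ₗ[ℂ] ℂ) (T2_ctg (σ g)) :=
    map_sub (LinearMap.trace ℂ (E →ₗ[ℂ] E →ₗ[ℂ] ℂ)) (T1_ctg (σ g)) (T2_ctg (σ g))
  rw [h3, trace_T1_ctg (Module.finBasis ℂ E), trace_T2_ctg (Module.finBasis ℂ E), sq g, map_mul σ]

private theorem key_ctg (φ : G → ℂ) (hφ : IsIrr φ) : ∃ a b : ℕ, pr φ (cj φ) = (a : ℂ) + b ∧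
    (1 / (Nat.card G : ℂ)) * ∑ g, φ (g ^ 2) = (a : ℂ) - b := by
  classical
  have hinv := irr_inv φ hφ
  obtain ⟨W, hW, hφW⟩ := hφ
  have hn : (Nat.card G : ℂ) ≠ 0 := by
    rw [Nat.card_eq_fintype_card]
    exact_mod_cast Fintype.card_ne_zero
  have h1 := Pool.Agent.H52.VC.symInv_eq (subR (lam (G := G)) W hW.2.1)
  have h2 := altInv_ctg (subR (lam (G := G)) W hW.2.1)
  simp only [← hφW] at h1 h2
  have h3 : pr φ (cj φ) = (1 / (Nat.card G : ℂ)) * ∑ g, φ g ^ 2 := by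
    unfold pr cj
    congr 1
    refine Finset.sum_congr rfl fun g _ => ?_
    rw [hinv, Complex.conj_conj, sq]
  refine ⟨finrank ℂ (Pool.Agent.H52.VC.symInv (subR (lam (G := G)) W hW.2.1)),
    finrank ℂ (alt_ctg (subR (lam (G := G)) W hW.2.1)), ?_, ?_⟩
  · rw [h3, h1, h2, Finset.sum_add_distrib, Finset.sum_sub_distrib]
    field_simp
    ring
  · rw [h1, h2, Finset.sum_add_distrib, Finset.sum_sub_distrib]
    field_simp
    ring

private theorem fs_ctg {φ : G → ℂ} {a b : ℕ} (h : (1 / (Nat.card G : ℂ)) * ∑ g, φ (g ^ 2) = (a : ℂ) - b) :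
    fs φ = (a : ℝ) - b := by
  unfold fs
  rw [h, Complex.sub_re, Complex.natCast_re, Complex.natCast_re]

theorem fs_real (φ : G → ℂ) (hφ : IsIrr φ) : (1 / (Nat.card G : ℂ)) * ∑ g, φ (g ^ 2) = (fs φ : ℂ) := by
  obtain ⟨a, b, -, h2⟩ := key_ctg φ hφ
  rw [fs_ctg h2, h2]
  push_cast
  rfl

theorem fs_ne (φ : G → ℂ) (hφ : IsIrr φ) (h : φ ≠ cj φ) : fs φ = 0 := by
  obtain ⟨a, b, h1, h2⟩ := key_ctg φ hφ
  rw [fs_ctg h2]
  rcases irr_orth φ (cj φ) hφ (irr_cj φ hφ) with h3 | h3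
  · exact absurd h3.1 h
  · rw [h3.2] at h1
    have h4 : a + b = 0 := by exact_mod_cast h1.symm
    have h5 : a = 0 := by omega
    have h6 : b = 0 := by omega
    rw [h5, h6]
    simp

theorem fs_self (φ : G → ℂ) (hφ : IsIrr φ) (h : φ = cj φ) : |fs φ| ≤ 1 := by
  obtain ⟨a, b, h1, h2⟩ := key_ctg φ hφ
  rw [fs_ctg h2]
  rcases irr_orth φ (cj φ) hφ (irr_cj φ hφ) with h3 | h3
  · rw [h3.2] at h1
    have h4 : a + b = 1 := by exact_mod_cast h1.symm
    have h5 : (a : ℝ) + b = 1 := by exact_mod_cast h4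
    have h6 : (0 : ℝ) ≤ a := Nat.cast_nonneg a
    have h7 : (0 : ℝ) ≤ b := Nat.cast_nonneg b
    rw [abs_le]
    constructor <;> linarith
  · exact absurd h h3.1


end Pool.Agent.H82.FIN
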