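import Pool.Agent.H82.FIN.CTd
import Pool.Agent.H52.VC.MuG
import Pool.Agent.H52.VC.Pai
import Pool.Agent.H52.VC.Uni
import Pool.Agent.H52.VC.Rep

set_option autoImplicit false

/-!
PROJECT FIN (MP_bf82d2_ag, Finiteness; note 6077), module CTh.
The multiplicities in `chi s`.
PROOF. `pair_eq'` and `pv_nat'` (H52.VC.Rep).  Upper bound: `pv s ρ = ∑ (angp - dim fix) - dim V + dim V^G`,
`angp (ρ c) - dim fix (ρ c) ≤ dim V` as each angle is at most `1`, `dim V^G ≤ dim V`.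
-/

namespace Pool.Agent.H82.FIN

open Finset Module
open Pool.Agent.H93.Hup (Inv MinInv)
open Pool.Agent.H52.VC (lam subR)
open Pool.Agent.H82.CO (chi quadInv genus nu eps zeta)

variable {G : Type} [Group G] [Fintype G]

private theorem tp_le_cth (z : ℂ) : Pool.Agent.H52.VC.tp z ≤ 1 := by
  have hpi := Real.pi_pos
  unfold Pool.Agent.H52.VC.tp
  split_ifs with h
  · rw [div_le_one (by positivity)]
    have := Complex.arg_le_pi z
    linarith
  · have h1 : Complex.arg z / (2 * Real.pi) ≤ 0 :=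
      div_nonpos_of_nonpos_of_nonneg (not_lt.1 h) (by positivity)
    linarith

private theorem angp_le_cth {V : Type} [AddCommGroup V] [Module ℂ V] [FiniteDimensional ℂ V]
    (U : V →ₗ[ℂ] V) : Pool.Agent.H52.VC.angp U ≤ finrank ℂ V := by
  unfold Pool.Agent.H52.VC.angp
  have h1 := Multiset.sum_le_card_nsmul (U.charpoly.roots.map Pool.Agent.H52.VC.tp) 1 (by
    intro x hx
    obtain ⟨z, -, rfl⟩ := Multiset.mem_map.1 hx
    exact tp_le_cth z)
  have h2 : Multiset.card (U.charpoly.roots) ≤ finrank ℂ V := by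
    rw [← LinearMap.charpoly_natDegree U]
    exact Polynomial.card_roots' _
  rw [Multiset.card_map, nsmul_eq_mul, mul_one] at h1
  exact h1.trans (by exact_mod_cast h2)

private theorem pr_eq_cth {N : ℕ} (s : Fin N → G) (φ : G → ℂ) (W : Submodule ℂ (G → ℂ))
    (hW : MinInv (lam (G := G)) W) (h : ∀ g, φ g = LinearMap.trace ℂ W (subR lam W hW.2.1 g)) :
    pr (chi s) φ = (Pool.Agent.H52.VC.pv s (subR lam W hW.2.1) : ℂ) := by
  rw [← Pool.Agent.H52.VC.pair_eq' s (subR lam W hW.2.1)]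
  unfold pr
  congr 1
  exact sum_congr rfl fun g _ => by rw [h]

theorem mul_nat {N : ℕ} (s : Fin N → G) (hs : Tup s) (φ : G → ℂ) (hφ : IsIrr φ) :
    ∃ m : ℕ, pr (chi s) φ = m ∧ mul s φ = m := by
  obtain ⟨W, hW, h⟩ := hφ
  have h1 := pr_eq_cth s φ W hW h
  obtain ⟨m, hm⟩ := Pool.Agent.H52.VC.pv_nat' s hs.prod hs.gen (subR lam W hW.2.1)
  refine ⟨m, ?_, ?_⟩
  · rw [h1, hm]
    norm_cast
  · unfold mul
    rw [h1, hm]
    simp

theorem mul_le {N : ℕ} (s : Fin N → G) (hs : Tup s) (φ : G → ℂ) (hφ : IsIrr φ) :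
    mul s φ ≤ N * (φ 1).re := by
  obtain ⟨W, hW, h⟩ := hφ
  have h1 := pr_eq_cth s φ W hW h
  have h2 : (φ 1).re = finrank ℂ W := by
    rw [h 1, map_one, LinearMap.trace_one]
    simp
  have h3 : mul s φ = Pool.Agent.H52.VC.pv s (subR lam W hW.2.1) := by
    unfold mul
    rw [h1, Complex.ofReal_re]
  rw [h2, h3]
  unfold Pool.Agent.H52.VC.pv
  have h4 : ∑ i, (Pool.Agent.H52.VC.angp (subR lam W hW.2.1 (s i)) -
      (finrank ℂ (Pool.Agent.H52.VC.fixS (subR lam W hW.2.1 (s i))) : ℝ)) ≤ ∑ _i : Fin N, (finrank ℂ W : ℝ) := by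
    refine sum_le_sum fun i _ => ?_
    have h5 := angp_le_cth (subR lam W hW.2.1 (s i))
    have h6 : (0 : ℝ) ≤ finrank ℂ (Pool.Agent.H52.VC.fixS (subR lam W hW.2.1 (s i))) := Nat.cast_nonneg _
    linarith
  rw [sum_const, card_univ, Fintype.card_fin, nsmul_eq_mul] at h4
  have h7 : (finrank ℂ (Pool.Agent.H52.VC.fixG (subR lam W hW.2.1) ⊤) : ℝ) ≤ finrank ℂ W := by
    exact_mod_cast Submodule.finrank_le _
  linarith

end Pool.Agent.H82.FIN
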