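import Pool.Agent.H82.FIN.CTc
import Pool.Agent.H82.FIN.CTg
import Pool.Agent.H82.FIN.CTh
import Pool.Agent.H52.VC.Chi

set_option autoImplicit false

/-!
PROJECT FIN (MP_bf82d2_ag, Finiteness; note 6077), module CTi.
The invariant quadrics in terms of irreducible characters.
PROOF. `chi s = ∑ m_φ φ` (`irr_exp`, `chi_conj` of H52.VC.Chi; `m_φ` real by `mul_nat`).  `(1/n) ∑ chi(g)^2 = ∑ m_φ (1/n) ∑
φ(g) chi(g) = ∑ m_φ m_(cj φ)` (`pr (chi s) (cj φ) = (1/n) ∑ chi(g) φ(g)` as `cj φ g⁻¹ = φ g`), `(1/n) ∑ chi(g^2) = ∑ m_φ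
fs φ`, and `fs (cj φ) = fs φ`; re-index the last sum by `cj` if convenient (not needed: `∑ m_(cj φ) m_φ + ∑ m_φ fs φ`, and
`m_φ fs φ = m_(cj φ) fs φ` since `fs φ = 0` unless `φ = cj φ`).
-/

namespace Pool.Agent.H82.FIN

open Finset Module
open Pool.Agent.H93.Hup (Inv MinInv)
open Pool.Agent.H52.VC (lam subR)
open Pool.Agent.H82.CO (chi quadInv genus nu eps zeta)

variable {G : Type} [Group G] [Fintype G]

theorem quad_eq {N : ℕ} (s : Fin N → G) (hs : Tup s) :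
    2 * (quadInv s).re = ∑ φ ∈ XX G, mul s (cj φ) * (mul s φ + fs φ) := by
  classical
  have hn : (Nat.card G : ℂ) ≠ 0 := Nat.cast_ne_zero.2 Nat.card_pos.ne'
  have hm : ∀ φ, IsIrr φ → pr (chi s) φ = (mul s φ : ℂ) := by
    intro φ hφ
    obtain ⟨m, h1, h2⟩ := mul_nat s hs φ hφ
    rw [h1, h2, Complex.ofReal_natCast]
  have hexp : ∀ g, chi s g = ∑ φ ∈ XX G, (mul s φ : ℂ) * φ g := by
    intro g
    rw [irr_exp (chi s) (Pool.Agent.H52.VC.chi_conj s) g]
    refine Finset.sum_congr rfl fun φ hφ => ?_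
    rw [hm φ ((mem_XX φ).1 hφ)]
  have h1 : (1 / (Nat.card G : ℂ)) * ∑ g, chi s g ^ 2
      = ∑ φ ∈ XX G, (mul s φ : ℂ) * (mul s (cj φ) : ℂ) := by
    have e1 : ∀ g, chi s g ^ 2 = ∑ φ ∈ XX G, (mul s φ : ℂ) * (chi s g * φ g) := by
      intro g
      rw [sq]
      nth_rewrite 2 [hexp g]
      rw [Finset.mul_sum]
      exact Finset.sum_congr rfl fun φ _ => by ring
    rw [Finset.sum_congr rfl fun g _ => e1 g, Finset.sum_comm, Finset.mul_sum]
    refine Finset.sum_congr rfl fun φ hφ => ?_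
    have hi := (mem_XX φ).1 hφ
    have e2 : pr (chi s) (cj φ) = (1 / (Nat.card G : ℂ)) * ∑ g, chi s g * φ g := by
      rw [pr]
      congr 1
      refine Finset.sum_congr rfl fun g _ => ?_
      rw [cj, irr_inv φ hi, Complex.conj_conj]
    rw [← hm (cj φ) (irr_cj φ hi), e2, ← Finset.mul_sum]
    ring
  have h2 : (1 / (Nat.card G : ℂ)) * ∑ g, chi s (g ^ 2)
      = ∑ φ ∈ XX G, (mul s φ : ℂ) * (fs φ : ℂ) := by
    rw [Finset.sum_congr rfl fun g _ => hexp (g ^ 2), Finset.sum_comm, Finset.mul_sum]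
    refine Finset.sum_congr rfl fun φ hφ => ?_
    rw [← fs_real φ ((mem_XX φ).1 hφ), ← Finset.mul_sum]
    ring
  have h3 : (2 : ℂ) * quadInv s
      = ((∑ φ ∈ XX G, mul s (cj φ) * (mul s φ + fs φ) : ℝ) : ℂ) := by
    have e3 : (2 : ℂ) * quadInv s = (1 / (Nat.card G : ℂ)) * (∑ g, chi s g ^ 2)
        + (1 / (Nat.card G : ℂ)) * ∑ g, chi s (g ^ 2) := by
      rw [quadInv, Finset.sum_add_distrib]
      field_simp
    rw [e3, h1, h2, ← Finset.sum_add_distrib, Complex.ofReal_sum]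
    refine Finset.sum_congr rfl fun φ hφ => ?_
    have e4 : mul s φ * fs φ = mul s (cj φ) * fs φ := by
      by_cases h : φ = cj φ
      · rw [← h]
      · rw [fs_ne φ ((mem_XX φ).1 hφ) h, mul_zero, mul_zero]
    have e5 : ((mul s φ : ℂ)) * (fs φ : ℂ) = (mul s (cj φ) : ℂ) * (fs φ : ℂ) := by
      rw [← Complex.ofReal_mul, e4, Complex.ofReal_mul]
    rw [e5, Complex.ofReal_mul, Complex.ofReal_add]
    ring
  have h4 := congrArg Complex.re h3
  rw [Complex.ofReal_re, Complex.mul_re] at h4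
  rw [← h4]
  norm_num

end Pool.Agent.H82.FIN
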