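import Pool.Agent.H82.FIN.CTc
import Pool.Agent.H82.FIN.CTg
import Pool.Agent.H82.FIN.CTh
import Pool.Agent.H52.VC.Chi

set_option autoImplicit false

/-!
PROJECT FIN (MP_bf82d2_ag, Finiteness; note 6077), module CTj.
Sums over the irreducible characters.
PROOF. Linearity: `f = ∑ pr f φ φ` (`irr_exp`).
-/

namespace Pool.Agent.H82.FIN

open Finset Module
open Pool.Agent.H93.Hup (Inv MinInv)
open Pool.Agent.H52.VC (lam subR)
open Pool.Agent.H82.CO (chi quadInv genus nu eps zeta)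

variable {G : Type} [Group G] [Fintype G]

theorem sum_mul_pr {N : ℕ} (s : Fin N → G) (hs : Tup s) (f : G → ℂ) (hf : ∀ g x, f (x * g * x⁻¹) = f g)
    (a : (G → ℂ) → ℝ) (ha : ∀ φ ∈ XX G, pr f φ = a φ) :
    ∑ φ ∈ XX G, a φ * mul s φ = (pr (chi s) f).re := by
  have h1 : pr (chi s) f = ∑ φ ∈ XX G, (a φ : ℂ) * pr (chi s) φ := by
    unfold pr
    have h2 : ∀ g, chi s g * f g⁻¹ = ∑ φ ∈ XX G, (a φ : ℂ) * (chi s g * φ g⁻¹) := by
      intro g
      rw [irr_exp f hf g⁻¹, mul_sum]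
      refine sum_congr rfl fun φ hφ => ?_
      rw [ha φ hφ]
      ring
    simp_rw [h2]
    rw [sum_comm, mul_sum]
    refine sum_congr rfl fun φ _ => ?_
    rw [← mul_sum]
    ring
  rw [h1, Complex.re_sum]
  refine sum_congr rfl fun φ _ => ?_
  rw [Complex.re_ofReal_mul]
  rfl

theorem sum_fs_pr (f : G → ℂ) (hf : ∀ g x, f (x * g * x⁻¹) = f g)
    (a : (G → ℂ) → ℝ) (ha : ∀ φ ∈ XX G, pr f φ = a φ) :
    ∑ φ ∈ XX G, a φ * fs φ = ((1 / (Nat.card G : ℂ)) * ∑ g, f (g ^ 2)).re := by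
  have h1 : (1 / (Nat.card G : ℂ)) * ∑ g, f (g ^ 2)
      = ∑ φ ∈ XX G, (a φ : ℂ) * ((1 / (Nat.card G : ℂ)) * ∑ g, φ (g ^ 2)) := by
    have h2 : ∀ g, f (g ^ 2) = ∑ φ ∈ XX G, (a φ : ℂ) * φ (g ^ 2) := by
      intro g
      rw [irr_exp f hf (g ^ 2)]
      refine sum_congr rfl fun φ hφ => ?_
      rw [ha φ hφ]
    simp_rw [h2]
    rw [sum_comm, mul_sum]
    refine sum_congr rfl fun φ _ => ?_
    rw [← mul_sum]
    ring
  rw [h1, Complex.re_sum]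
  refine sum_congr rfl fun φ _ => ?_
  rw [Complex.re_ofReal_mul]
  rfl


end Pool.Agent.H82.FIN
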