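import Pool.Agent.H82.FIN.CTc
import Pool.Agent.H82.FIN.CTe
import Pool.Agent.H82.FIN.CTd

set_option autoImplicit false

/-!
PROJECT FIN (MP_bf82d2_ag, Finiteness; note 6077), module ExcB.
The irreducible characters with a vector fixed by `K`.
PROOF. `n δ_1 = ∑ φ 1 * φ` (`reg_exp`), take the average over `K`: `n / |K| = ∑ φ(1) avg K φ`, every `avg K φ ≥ 0`
(`avg_nat`), and `≥ 1` on `T`.
-/

namespace Pool.Agent.H82.FIN

open Finset Module
open Pool.Agent.H93.Hup (Inv MinInv)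
open Pool.Agent.H52.VC (lam subR)
open Pool.Agent.H82.CO (chi quadInv genus nu eps zeta)

variable {G : Type} [Group G] [Fintype G]

private theorem avg_exp (K : Subgroup G) :
    (Nat.card G : ℂ) / (Nat.card K : ℂ) = ∑ φ ∈ XX G, φ 1 * avg K φ := by
  classical
  have h1 : ∀ h : G, (if h ∈ K then (if h = 1 then (Nat.card G : ℂ) else 0) else 0) =
      ∑ φ ∈ XX G, φ 1 * (if h ∈ K then φ h else 0) := by
    intro h
    by_cases hh : h ∈ K
    · rw [if_pos hh]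
      have h2 := reg_exp h
      have h3 : (if h = 1 then (Nat.card G : ℂ) else 0) = ∑ φ ∈ XX G, φ 1 * φ h := by
        convert h2
      rw [h3]
      exact sum_congr rfl fun φ _ => by rw [if_pos hh]
    · rw [if_neg hh]
      symm
      exact sum_eq_zero fun φ _ => by rw [if_neg hh, mul_zero]
  have h4 : ∑ h : G, (if h ∈ K then (if h = 1 then (Nat.card G : ℂ) else 0) else 0) = (Nat.card G : ℂ) := by
    rw [sum_eq_single (1 : G)]
    · rw [if_pos K.one_mem, if_pos rfl]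
    · intro h _ hne
      rw [if_neg hne, ite_self]
    · intro h
      exact absurd (mem_univ _) h
  have h5 : (Nat.card G : ℂ) = ∑ φ ∈ XX G, φ 1 * ∑ h : G, (if h ∈ K then φ h else 0) := by
    rw [← h4, sum_congr rfl fun h _ => h1 h, sum_comm]
    exact sum_congr rfl fun φ _ => (mul_sum _ _ _).symm
  calc (Nat.card G : ℂ) / (Nat.card K : ℂ) = (1 / (Nat.card K : ℂ)) * (Nat.card G : ℂ) := by ring
    _ = (1 / (Nat.card K : ℂ)) * ∑ φ ∈ XX G, φ 1 * ∑ h : G, (if h ∈ K then φ h else 0) := by rw [← h5]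
    _ = ∑ φ ∈ XX G, φ 1 * avg K φ := by
      rw [mul_sum]
      refine sum_congr rfl fun φ _ => ?_
      unfold avg
      ring

theorem sum_fixed (K : Subgroup G) (T : Finset (G → ℂ)) (hT : T ⊆ XX G) (h : ∀ φ ∈ T, 1 ≤ (avg K φ).re) :
    ∑ φ ∈ T, (φ 1).re ≤ (Nat.card G : ℝ) / Nat.card K := by
  have h1 : ∀ φ ∈ XX G, (φ 1 * avg K φ).re = (φ 1).re * (avg K φ).re ∧ 0 ≤ (φ 1).re ∧ 0 ≤ (avg K φ).re := by
    intro φ hφ
    obtain ⟨d, -, hd⟩ := irr_one φ ((mem_XX φ).1 hφ)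
    obtain ⟨m, hm, -⟩ := avg_nat φ ((mem_XX φ).1 hφ) K
    rw [hd, hm]
    refine ⟨?_, ?_, ?_⟩
    · simp [Complex.mul_re]
    · rw [Complex.natCast_re]
      exact Nat.cast_nonneg d
    · rw [Complex.natCast_re]
      exact Nat.cast_nonneg m
  have h2 : (Nat.card G : ℝ) / Nat.card K = ∑ φ ∈ XX G, (φ 1).re * (avg K φ).re := by
    have h3 := congrArg Complex.re (avg_exp K)
    rw [Complex.re_sum, sum_congr rfl fun φ hφ => (h1 φ hφ).1] at h3
    rw [← h3]
    have h4 : (Nat.card G : ℂ) / (Nat.card K : ℂ) = (((Nat.card G : ℝ) / (Nat.card K : ℝ) : ℝ) : ℂ) := by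
      push_cast
      rfl
    rw [h4, Complex.ofReal_re]
  rw [h2]
  calc ∑ φ ∈ T, (φ 1).re ≤ ∑ φ ∈ T, (φ 1).re * (avg K φ).re :=
        sum_le_sum fun φ hφ => le_mul_of_one_le_right (h1 φ (hT hφ)).2.1 (h φ hφ)
    _ ≤ ∑ φ ∈ XX G, (φ 1).re * (avg K φ).re :=
        sum_le_sum_of_subset_of_nonneg hT fun φ hφ _ => mul_nonneg (h1 φ hφ).2.1 (h1 φ hφ).2.2

end Pool.Agent.H82.FIN
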