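import Pool.Agent.H82.FIN.ExcA
import Pool.Agent.H82.FIN.ExcB
import Pool.Agent.H82.FIN.CTf

set_option autoImplicit false

/-!
PROJECT FIN (MP_bf82d2_ag, Finiteness; note 6077), module Exc.
The bad characters.
PROOF. For `φ` bad there is `g ∉ P`, `φ g ≠ 0`, so `1 ≤ avg (comA g) φ` (`exc_avg`).  `comA` depends only on the coset `g A`:
choose for every left coset `q ∈ G ⧸ A` which meets the complement of `P` an element `g_q ∉ P` of it.  The bad `φ` are covered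
by the sets `{φ | 1 ≤ avg (comA g_q) φ}`, so `∑_bad φ(1) ≤ ∑_q n / |comA g_q| ≤ b * (n / |A|) γ ≤ b * b * γ`
(`sum_fixed`, `comA_card`, `n = |A| [G : A]`).  Second: `φ(1) ≤ b` (`irr_deg`).
-/

namespace Pool.Agent.H82.FIN

open Finset Module
open Pool.Agent.H93.Hup (Inv MinInv)
open Pool.Agent.H52.VC (lam subR)
open Pool.Agent.H82.CO (chi quadInv genus nu eps zeta)

variable {G : Type} [Group G] [Fintype G]

/-- one coset: the characters with a vector fixed by `[A, g]` -/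
private theorem exc_one (b : ℕ) (A : Subgroup G) (hA : A.Normal) (hAc : ∀ a ∈ A, ∀ c ∈ A, a * c = c * a)
    (hb : A.index ≤ b) (γ : ℝ) (hγ0 : 0 ≤ γ) (g : G) (hg : cz g ≤ γ) (T : Finset (G → ℂ)) (hT : T ⊆ XX G)
    (h : ∀ φ ∈ T, 1 ≤ (avg (comA A hA hAc g) φ).re) : ∑ φ ∈ T, (φ 1).re ≤ (b : ℝ) * γ := by
  have h1 := sum_fixed (comA A hA hAc g) T hT h
  have h2 := comA_card A hA hAc g
  have hK : (0 : ℝ) < Nat.card (comA A hA hAc g) := by exact_mod_cast Nat.card_pos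
  have hn : (Nat.card A : ℝ) * A.index = Nat.card G := by exact_mod_cast A.card_mul_index
  have hi : (A.index : ℝ) ≤ b := by exact_mod_cast hb
  have h3 : (Nat.card A : ℝ) ≤ γ * Nat.card (comA A hA hAc g) :=
    h2.trans (mul_le_mul_of_nonneg_right hg hK.le)
  refine h1.trans ?_
  rw [div_le_iff₀ hK, ← hn]
  calc (Nat.card A : ℝ) * A.index ≤ (γ * Nat.card (comA A hA hAc g)) * b :=
        mul_le_mul h3 hi (Nat.cast_nonneg _) (mul_nonneg hγ0 hK.le)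
    _ = (b : ℝ) * γ * Nat.card (comA A hA hAc g) := by ring

open Classical in
theorem exc_sum (b : ℕ) (A : Subgroup G) (hA : A.Normal) (hAc : ∀ a ∈ A, ∀ c ∈ A, a * c = c * a) (hb : A.index ≤ b)
    (P : Subgroup G) (γ : ℝ) (hγ : ∀ g, g ∉ P → cz g ≤ γ) (hγ0 : 0 ≤ γ) :
    ∑ φ ∈ (XX G).filter (fun φ => Bad P φ), (φ 1).re ≤ (b : ℝ) ^ 2 * γ := by
  have hfin : Fintype (G ⧸ A) := Fintype.ofFinite _
  -- the representatives
  have hr : ∀ q : G ⧸ A, ∃ r : G, (∃ g : G, (g : G ⧸ A) = q ∧ g ∉ P) → ((r : G ⧸ A) = q ∧ r ∉ P) := by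
    intro q
    by_cases h : ∃ g : G, (g : G ⧸ A) = q ∧ g ∉ P
    · obtain ⟨g, hg⟩ := h
      exact ⟨g, fun _ => hg⟩
    · exact ⟨1, fun h' => absurd h' h⟩
  choose r hr using hr
  have hw : ∀ φ ∈ (XX G).filter (fun φ => Bad P φ), 0 ≤ (φ 1).re := by
    intro φ hφ
    obtain ⟨d, _, hd⟩ := irr_one φ ((mem_XX φ).1 (mem_filter.1 hφ).1)
    rw [hd, Complex.natCast_re]
    exact Nat.cast_nonneg _
  -- the cover
  have hcov : ∀ φ ∈ (XX G).filter (fun φ => Bad P φ), ∃ q : G ⧸ A, (∃ g : G, (g : G ⧸ A) = q ∧ g ∉ P) ∧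
      1 ≤ (avg (comA A hA hAc (r q)) φ).re := by
    intro φ hφ
    obtain ⟨hφ1, g, hgP, hg⟩ := mem_filter.1 hφ
    refine ⟨(g : G ⧸ A), ⟨g, rfl, hgP⟩, ?_⟩
    have h1 := (hr (g : G ⧸ A) ⟨g, rfl, hgP⟩).1
    have h2 : g⁻¹ * r (g : G ⧸ A) ∈ A := QuotientGroup.eq.1 h1.symm
    have h3 := comA_coset A hA hAc g _ h2
    rw [mul_inv_cancel_left] at h3
    rw [h3]
    exact exc_avg A hA hAc φ ((mem_XX φ).1 hφ1) g hg
  have h1 : ∑ φ ∈ (XX G).filter (fun φ => Bad P φ), (φ 1).re ≤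
      ∑ φ ∈ (XX G).filter (fun φ => Bad P φ), ∑ q : G ⧸ A,
        (if (∃ g : G, (g : G ⧸ A) = q ∧ g ∉ P) ∧ 1 ≤ (avg (comA A hA hAc (r q)) φ).re then (φ 1).re else 0) := by
    refine sum_le_sum fun φ hφ => ?_
    obtain ⟨q, hq⟩ := hcov φ hφ
    have h2 := single_le_sum (f := fun q : G ⧸ A =>
      (if (∃ g : G, (g : G ⧸ A) = q ∧ g ∉ P) ∧ 1 ≤ (avg (comA A hA hAc (r q)) φ).re then (φ 1).re else 0))
      (fun q _ => by
        show 0 ≤ (if (∃ g : G, (g : G ⧸ A) = q ∧ g ∉ P) ∧ 1 ≤ (avg (comA A hA hAc (r q)) φ).re then (φ 1).re else 0)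
        split_ifs
        · exact hw φ hφ
        · exact le_refl _) (mem_univ q)
    refine le_trans (le_of_eq ?_) h2
    exact (if_pos hq).symm
  refine h1.trans ?_
  rw [sum_comm]
  have h2 : ∀ q ∈ (univ : Finset (G ⧸ A)), ∑ φ ∈ (XX G).filter (fun φ => Bad P φ),
      (if (∃ g : G, (g : G ⧸ A) = q ∧ g ∉ P) ∧ 1 ≤ (avg (comA A hA hAc (r q)) φ).re then (φ 1).re else 0) ≤
      (b : ℝ) * γ := by
    intro q _
    rw [← sum_filter]
    by_cases h : ∃ g : G, (g : G ⧸ A) = q ∧ g ∉ P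
    · refine exc_one b A hA hAc hb γ hγ0 (r q) (hγ _ (hr q h).2) _ ?_ ?_
      · exact (filter_subset _ _).trans (filter_subset _ _)
      · intro φ hφ
        exact (mem_filter.1 hφ).2.2
    · rw [filter_false_of_mem (fun φ _ h' => h h'.1), sum_empty]
      exact mul_nonneg (Nat.cast_nonneg _) hγ0
  refine (sum_le_card_nsmul _ _ _ h2).trans ?_
  rw [nsmul_eq_mul, card_univ]
  have hi : ((Fintype.card (G ⧸ A) : ℕ) : ℝ) ≤ b := by
    have h3 : Fintype.card (G ⧸ A) = A.index := by rw [Subgroup.index_eq_card, Nat.card_eq_fintype_card]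
    rw [h3]
    exact_mod_cast hb
  calc ((Fintype.card (G ⧸ A) : ℕ) : ℝ) * ((b : ℝ) * γ) ≤ b * ((b : ℝ) * γ) :=
        mul_le_mul_of_nonneg_right hi (mul_nonneg (Nat.cast_nonneg _) hγ0)
    _ = (b : ℝ) ^ 2 * γ := by ring

open Classical in
theorem exc_sum_sq (b : ℕ) (A : Subgroup G) (hA : A.Normal) (hAc : ∀ a ∈ A, ∀ c ∈ A, a * c = c * a) (hb : A.index ≤ b)
    (P : Subgroup G) (γ : ℝ) (hγ : ∀ g, g ∉ P → cz g ≤ γ) (hγ0 : 0 ≤ γ) :
    ∑ φ ∈ (XX G).filter (fun φ => Bad P φ), (φ 1).re ^ 2 ≤ (b : ℝ) ^ 3 * γ := by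
  have hi : (A.index : ℝ) ≤ b := by exact_mod_cast hb
  have h1 : ∑ φ ∈ (XX G).filter (fun φ => Bad P φ), (φ 1).re ^ 2 ≤
      ∑ φ ∈ (XX G).filter (fun φ => Bad P φ), (b : ℝ) * (φ 1).re := by
    refine sum_le_sum fun φ hφ => ?_
    have hφ1 := (mem_XX φ).1 (mem_filter.1 hφ).1
    have h2 := irr_deg φ hφ1 A hAc
    obtain ⟨d, _, hd⟩ := irr_one φ hφ1
    have h3 : 0 ≤ (φ 1).re := by
      rw [hd, Complex.natCast_re]
      exact Nat.cast_nonneg _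
    rw [pow_two]
    exact mul_le_mul_of_nonneg_right (h2.trans hi) h3
  refine h1.trans ?_
  rw [← mul_sum]
  calc (b : ℝ) * ∑ φ ∈ (XX G).filter (fun φ => Bad P φ), (φ 1).re ≤ b * ((b : ℝ) ^ 2 * γ) :=
        mul_le_mul_of_nonneg_left (exc_sum b A hA hAc hb P γ hγ hγ0) (Nat.cast_nonneg _)
    _ = (b : ℝ) ^ 3 * γ := by ring


end Pool.Agent.H82.FIN
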