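import Pool.Agent.H82.FIN.Res
import Pool.Agent.H82.FIN.Ang
import Pool.Agent.H82.FIN.CTd
import Pool.Agent.H82.FIN.CTe

set_option autoImplicit false

/-!
PROJECT FIN (MP_bf82d2_ag, Finiteness; note 6077), module Mul.
The multiplicity of a good character.
PROOF. `φ` vanishes off `P`: `pr (chi s) φ = (1/n) ∑ g ∈ P, chi s g φ(g⁻¹)`.  By `chi_res`: `(1/n) ∑ g ∈ P, φ(g⁻¹) = (1/n)
∑ g, φ(g⁻¹) = avg ⊤ φ ≥ 0` (`avg_nat`), `(ν_P/2 - 1) φ(1)`, and `(1/n) ∑ g ∈ P, U c g φ(g⁻¹) = pr (U c) φ = ang c φ`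
(`U_off`; `c = s i ^ od P (s i) ∈ P`).
-/

namespace Pool.Agent.H82.FIN

open Finset Module
open Pool.Agent.H93.Hup (Inv MinInv)
open Pool.Agent.H52.VC (lam subR)
open Pool.Agent.H82.CO (chi quadInv genus nu eps zeta)

variable {G : Type} [Group G] [Fintype G]

private theorem pr_mul {N : ℕ} (s : Fin N → G) (P : Subgroup G) (hP : P.Normal) (φ : G → ℂ) (hg : ¬ Bad P φ) :
    pr (chi s) φ = (1 / (Nat.card G : ℂ)) * ∑ g, φ g⁻¹ + ((nuM P s : ℂ) / 2 - 1) * φ 1 +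
      ∑ i, (1 / (od P (s i) : ℂ)) * pr (U (s i ^ od P (s i))) φ := by
  classical
  have hn : (Nat.card G : ℂ) ≠ 0 := by exact_mod_cast Nat.card_pos.ne'
  have h0 : ∀ g, g ∉ P → φ g⁻¹ = 0 := by
    intro g h
    by_contra h1
    exact hg ⟨g⁻¹, fun h2 => h (by simpa using P.inv_mem h2), h1⟩
  have h1 : ∀ g, chi s g * φ g⁻¹ = φ g⁻¹ +
      (if g = 1 then (Nat.card G : ℂ) * ((nuM P s : ℂ) / 2 - 1) * φ 1 else 0) +
      ∑ i, (1 / (od P (s i) : ℂ)) * (U (s i ^ od P (s i)) g * φ g⁻¹) := by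
    intro g
    by_cases hgP : g ∈ P
    · rw [chi_res s P hP g hgP, add_mul, add_mul, one_mul, sum_mul]
      congr 1
      · congr 1
        split_ifs with h
        · rw [h, inv_one]
        · rw [zero_mul]
      · exact sum_congr rfl fun i _ => mul_assoc _ _ _
    · have hg1 : g ≠ 1 := by
        intro h
        rw [h] at hgP
        exact hgP P.one_mem
      rw [h0 g hgP, if_neg hg1]
      simp
  unfold pr
  rw [sum_congr rfl fun g _ => h1 g, sum_add_distrib, sum_add_distrib, mul_add, mul_add]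
  congr 1
  · congr 1
    rw [sum_ite_eq', if_pos (mem_univ _)]
    field_simp
  · rw [sum_comm, mul_sum]
    refine sum_congr rfl fun i _ => ?_
    rw [← mul_sum]
    ring

private theorem avg_mul (φ : G → ℂ) (hφ : IsIrr φ) : ∃ m : ℕ, (1 / (Nat.card G : ℂ)) * ∑ g, φ g⁻¹ = m := by
  classical
  obtain ⟨m, hm, _⟩ := avg_nat φ hφ ⊤
  refine ⟨m, ?_⟩
  rw [← hm]
  unfold avg
  rw [Nat.card_congr (Subgroup.topEquiv (G := G)).toEquiv]
  congr 1
  refine Fintype.sum_equiv (Equiv.inv G) _ _ fun g => ?_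
  rw [if_pos (Subgroup.mem_top _)]
  rfl

theorem mul_good {N : ℕ} (s : Fin N → G) (P : Subgroup G) (hP : P.Normal) (φ : G → ℂ) (hφ : IsIrr φ)
    (hg : ¬ Bad P φ) :
    (φ 1).re * (nuM P s / 2 - 1) + ∑ i, (1 / (od P (s i) : ℝ)) * ang (s i ^ od P (s i)) φ ≤ mul s φ := by
  obtain ⟨m, hm⟩ := avg_mul φ hφ
  obtain ⟨d, _, hd1⟩ := irr_one φ hφ
  have h3 : pr (chi s) φ = (((m : ℝ) + (nuM P s / 2 - 1) * (d : ℝ) +
      ∑ i, (1 / (od P (s i) : ℝ)) * ang (s i ^ od P (s i)) φ : ℝ) : ℂ) := by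
    rw [pr_mul s P hP φ hg, hm, hd1]
    push_cast
    congr 1
    exact sum_congr rfl fun i _ => by rw [ang_real _ _ hφ]
  unfold mul
  rw [h3, Complex.ofReal_re, hd1, Complex.natCast_re]
  have h4 : (0 : ℝ) ≤ m := Nat.cast_nonneg m
  linarith


end Pool.Agent.H82.FIN
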