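import Pool.Agent.H82.FIN.Res
import Pool.Agent.H82.FIN.Ang
import Pool.Agent.H82.FIN.CTc
import Pool.Agent.H82.FIN.CTd
import Pool.Agent.H82.FIN.CTe

set_option autoImplicit false

/-!
PROJECT FIN (MP_bf82d2_ag, Finiteness; note 6077), module MulC.
The pairing of `chi s` with a class function supported on `P`.
PROOF. `chi_res` on `P`: `pr (chi s) f = (1/n) ∑ g ∈ P, chi s g f(g⁻¹) = (1/n) ∑ f(g⁻¹) + (ν_P/2 - 1) f 1 + ∑ (1/od) pr (U c_i) f`.  The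
first is `pr 1 f`, `1` (the function) is a class function, `f = ∑ a φ φ` (`irr_exp`), `(1/n) ∑ f(g⁻¹) = ∑ a φ avg ⊤ φ ≥ 0` (`avg_nat`).
`sum_ang`: `pr (U c) f = ∑ a φ pr (U c) φ` by linearity.  `sum_one`: `f 1 = ∑ a φ φ(1)`.
-/

namespace Pool.Agent.H82.FIN

open Finset Module
open Pool.Agent.H93.Hup (Inv MinInv)
open Pool.Agent.H52.VC (lam subR)
open Pool.Agent.H82.CO (chi quadInv genus nu eps zeta)

variable {G : Type} [Group G] [Fintype G]

private theorem mc_exp (f : G → ℂ) (hf : ∀ g x, f (x * g * x⁻¹) = f g) (a : (G → ℂ) → ℝ)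
    (ha : ∀ φ ∈ XX G, pr f φ = a φ) (g : G) : f g = ∑ φ ∈ XX G, (a φ : ℂ) * φ g := by
  rw [irr_exp f hf g]
  exact sum_congr rfl fun φ hφ => by rw [ha φ hφ]

private theorem mc_re (r : ℝ) (z : ℂ) : ((r : ℂ) * z).re = r * z.re := by
  rw [Complex.re_ofReal_mul]

private theorem mc_pr (h f : G → ℂ) (hf : ∀ g x, f (x * g * x⁻¹) = f g) (a : (G → ℂ) → ℝ)
    (ha : ∀ φ ∈ XX G, pr f φ = a φ) : pr h f = ∑ φ ∈ XX G, (a φ : ℂ) * pr h φ := by
  unfold pr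
  have h1 : ∀ g : G, h g * f g⁻¹ = ∑ φ ∈ XX G, (a φ : ℂ) * (h g * φ g⁻¹) := by
    intro g
    rw [mc_exp f hf a ha g⁻¹, mul_sum]
    exact sum_congr rfl fun φ _ => by ring
  rw [sum_congr rfl fun g _ => h1 g, sum_comm, mul_sum]
  refine sum_congr rfl fun φ _ => ?_
  rw [← mul_sum (univ : Finset G)]
  ring

private theorem mc_avg (f : G → ℂ) (hf : ∀ g x, f (x * g * x⁻¹) = f g) (a : (G → ℂ) → ℝ)
    (ha : ∀ φ ∈ XX G, pr f φ = a φ) (h0 : ∀ φ ∈ XX G, 0 ≤ a φ) :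
    0 ≤ ((1 / (Nat.card G : ℂ)) * ∑ g : G, f g⁻¹).re := by
  classical
  have h1 := mc_pr (fun _ => (1 : ℂ)) f hf a ha
  have h2 : pr (fun _ => (1 : ℂ)) f = (1 / (Nat.card G : ℂ)) * ∑ g : G, f g⁻¹ := by
    unfold pr
    congr 1
    exact sum_congr rfl fun g _ => one_mul _
  rw [← h2, h1, Complex.re_sum]
  refine sum_nonneg fun φ hφ => ?_
  rw [mc_re]
  refine mul_nonneg (h0 φ hφ) ?_
  obtain ⟨m, hm, _⟩ := avg_nat φ ((mem_XX φ).1 hφ) ⊤
  have h3 : pr (fun _ => (1 : ℂ)) φ = m := by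
    rw [← hm]
    unfold pr avg
    have h4 : (Nat.card (⊤ : Subgroup G) : ℂ) = (Nat.card G : ℂ) := by rw [Subgroup.card_top]
    rw [h4]
    congr 1
    rw [← Equiv.sum_comp (Equiv.inv G) (fun g => if g ∈ (⊤ : Subgroup G) then φ g else 0)]
    refine sum_congr rfl fun g _ => ?_
    rw [if_pos (Subgroup.mem_top _), one_mul, Equiv.inv_apply]
  rw [h3, Complex.natCast_re]
  exact Nat.cast_nonneg m

theorem mul_class {N : ℕ} (s : Fin N → G) (P : Subgroup G) (hP : P.Normal) (f : G → ℂ)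
    (hf : ∀ g x, f (x * g * x⁻¹) = f g) (hfP : ∀ g, g ∉ P → f g = 0) (a : (G → ℂ) → ℝ) (ha : ∀ φ ∈ XX G, pr f φ = a φ)
    (h0 : ∀ φ ∈ XX G, 0 ≤ a φ) :
    (f 1).re * (nuM P s / 2 - 1) + ∑ i, (1 / (od P (s i) : ℝ)) * (pr (U (s i ^ od P (s i))) f).re ≤ (pr (chi s) f).re := by
  classical
  have hn : (Nat.card G : ℂ) ≠ 0 := by exact_mod_cast Nat.card_pos.ne'
  have h1 : ∀ g : G, chi s g * f g⁻¹ = f g⁻¹ + (if g = 1 then (Nat.card G : ℂ) * (((nuM P s : ℂ) / 2 - 1) * f 1) else 0) +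
      ∑ i, (1 / (od P (s i) : ℂ)) * (U (s i ^ od P (s i)) g * f g⁻¹) := by
    intro g
    by_cases hg : g ∈ P
    · rw [chi_res s P hP g hg, add_mul, add_mul, one_mul, sum_mul]
      congr 1
      · congr 1
        by_cases hg1 : g = 1
        · rw [if_pos hg1, if_pos hg1, hg1, inv_one, mul_assoc]
        · rw [if_neg hg1, if_neg hg1, zero_mul]
      · exact sum_congr rfl fun i _ => mul_assoc _ _ _
    · have hg' : g⁻¹ ∉ P := fun h => hg (by simpa using P.inv_mem h)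
      have hg1 : g ≠ 1 := fun h => hg (h ▸ P.one_mem)
      rw [hfP _ hg', if_neg hg1, mul_zero, add_zero, zero_add]
      symm
      exact sum_eq_zero fun i _ => by rw [mul_zero, mul_zero]
  have h2 : pr (chi s) f = (1 / (Nat.card G : ℂ)) * ∑ g : G, f g⁻¹ + (((nuM P s / 2 - 1 : ℝ) : ℂ)) * f 1 +
      ∑ i, (((1 / (od P (s i) : ℝ) : ℝ) : ℂ)) * pr (U (s i ^ od P (s i))) f := by
    unfold pr
    rw [sum_congr rfl fun g _ => h1 g, sum_add_distrib, sum_add_distrib, mul_add, mul_add]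
    congr 1
    · congr 1
      rw [sum_ite_eq', if_pos (mem_univ _)]
      push_cast
      field_simp
    · rw [sum_comm, mul_sum]
      refine sum_congr rfl fun i _ => ?_
      rw [← mul_sum]
      push_cast
      ring
  rw [h2, Complex.add_re, Complex.add_re, mc_re, Complex.re_sum]
  have h3 := mc_avg f hf a ha h0
  have h4 : ∑ i, (((((1 / (od P (s i) : ℝ) : ℝ) : ℂ)) * pr (U (s i ^ od P (s i))) f).re) =
      ∑ i, (1 / (od P (s i) : ℝ)) * (pr (U (s i ^ od P (s i))) f).re :=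
    sum_congr rfl fun i _ => mc_re _ _
  rw [h4, mul_comm (f 1).re]
  linarith

theorem sum_ang (c : G) (f : G → ℂ) (hf : ∀ g x, f (x * g * x⁻¹) = f g) (a : (G → ℂ) → ℝ)
    (ha : ∀ φ ∈ XX G, pr f φ = a φ) : (pr (U c) f).re = ∑ φ ∈ XX G, a φ * ang c φ := by
  rw [mc_pr (U c) f hf a ha, Complex.re_sum]
  exact sum_congr rfl fun φ _ => mc_re _ _

theorem sum_one (f : G → ℂ) (hf : ∀ g x, f (x * g * x⁻¹) = f g) (a : (G → ℂ) → ℝ)
    (ha : ∀ φ ∈ XX G, pr f φ = a φ) : (f 1).re = ∑ φ ∈ XX G, a φ * (φ 1).re := by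
  rw [mc_exp f hf a ha 1, Complex.re_sum]
  exact sum_congr rfl fun φ _ => mc_re _ _

end Pool.Agent.H82.FIN
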