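import Pool.Agent.H82.FIN.Defs

set_option autoImplicit false

/-!
PROJECT FIN (MP_bf82d2_ag, Finiteness; note 6077), module Od.
The order modulo a subgroup.
PROOF. `{k : ℤ | g^k ∈ P}` is a subgroup of `ℤ`; `od P g` is its positive generator (`g ^ orderOf g = 1 ∈ P`).
-/

namespace Pool.Agent.H82.FIN

open Finset Module
open Pool.Agent.H93.Hup (Inv MinInv)
open Pool.Agent.H52.VC (lam subR)
open Pool.Agent.H82.CO (chi quadInv genus nu eps zeta)

variable {G : Type} [Group G] [Fintype G]

private theorem od_set (P : Subgroup G) (g : G) : od P g ∈ {k : ℕ | 0 < k ∧ g ^ k ∈ P} := by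
  unfold od
  refine Nat.sInf_mem ⟨orderOf g, orderOf_pos g, ?_⟩
  rw [pow_orderOf_eq_one]
  exact P.one_mem

theorem od_pos (P : Subgroup G) (g : G) : 0 < od P g := by
  exact (od_set P g).1

theorem od_mem (P : Subgroup G) (g : G) : g ^ od P g ∈ P := by
  exact (od_set P g).2

theorem od_dvd (P : Subgroup G) (g : G) (k : ℕ) : g ^ k ∈ P ↔ od P g ∣ k := by
  constructor
  · intro h
    have hd := od_pos P g
    have h1 : g ^ k = (g ^ od P g) ^ (k / od P g) * g ^ (k % od P g) := by
      rw [← pow_mul, ← pow_add, Nat.div_add_mod]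
    have h2 : g ^ (k % od P g) ∈ P := by
      rw [h1] at h
      exact (P.mul_mem_cancel_left (P.pow_mem (od_mem P g) _)).1 h
    rcases Nat.eq_zero_or_pos (k % od P g) with h3 | h3
    · exact Nat.dvd_of_mod_eq_zero h3
    · have h4 : od P g ≤ k % od P g := Nat.sInf_le ⟨h3, h2⟩
      exact absurd (Nat.mod_lt k hd) (not_lt.2 h4)
  · rintro ⟨c, hc⟩
    rw [hc, pow_mul]
    exact P.pow_mem (od_mem P g) c

theorem od_dvd_order (P : Subgroup G) (g : G) : od P g ∣ orderOf g := by
  refine (od_dvd P g _).1 ?_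
  rw [pow_orderOf_eq_one]
  exact P.one_mem

/-- `ord (g ^ od P g) = ord g / od P g` -/
theorem od_mul (P : Subgroup G) (g : G) : od P g * orderOf (g ^ od P g) = orderOf g := by
  rw [orderOf_pow_of_dvd (od_pos P g).ne' (od_dvd_order P g)]
  exact Nat.mul_div_cancel' (od_dvd_order P g)

theorem od_mk (P : Subgroup G) [P.Normal] (g : G) : orderOf (QuotientGroup.mk g : G ⧸ P) = od P g := by
  apply Nat.dvd_antisymm
  · apply orderOf_dvd_of_pow_eq_one
    rw [← QuotientGroup.mk_pow]
    exact (QuotientGroup.eq_one_iff _).2 (od_mem P g)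
  · refine (od_dvd P g _).1 ?_
    have h1 : ((g ^ orderOf (QuotientGroup.mk g : G ⧸ P) : G) : G ⧸ P) = 1 := by
      rw [QuotientGroup.mk_pow]
      exact pow_orderOf_eq_one _
    exact (QuotientGroup.eq_one_iff _).1 h1

theorem od_dvd_index (P : Subgroup G) (hP : P.Normal) (g : G) : od P g ∣ P.index := by
  haveI := hP
  rw [← od_mk P g, Subgroup.index_eq_card]
  exact orderOf_dvd_natCard _

theorem od_le (P S : Subgroup G) (h : S ≤ P) (g : G) : od P g ∣ od S g := by
  exact (od_dvd P g _).1 (h (od_mem S g))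


end Pool.Agent.H82.FIN
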