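import Pool.Agent.H82.FIN.CTd
import Pool.Agent.H82.FIN.CTc

set_option autoImplicit false

/-!
PROJECT FIN (MP_bf82d2_ag, Finiteness; note 6077), module Scal.
Central elements.
PROOF. Schur: a central `z` acts on the irreducible space by a scalar `w`, `w ^ orderOf z = 1`, `w = zeta o ^ t = exp (2 π i t/o)`, `t <
o`.  `pr_fz`: `pr f φ = (1/o) ∑ a < o, zeta o ^ a φ (z^(-a)) = (1/o) φ(1) ∑ a, zeta o ^ (a (1 - t))`.
-/

namespace Pool.Agent.H82.FIN

open Finset Module
open Pool.Agent.H93.Hup (Inv MinInv)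
open Pool.Agent.H52.VC (lam subR)
open Pool.Agent.H82.CO (chi quadInv genus nu eps zeta)

variable {G : Type} [Group G] [Fintype G]

/-- Schur's lemma for a central element -/
private theorem schur_scl (z : G) (hz : ∀ g, z * g = g * z) (W : Submodule ℂ (G → ℂ))
    (hW : MinInv (lam (G := G)) W) : ∃ w : ℂ, ∀ x : W, subR lam W hW.2.1 z x = w • x := by
  have hne : Nontrivial W := Submodule.nontrivial_iff_ne_bot.2 hW.1
  obtain ⟨w, hw⟩ := Module.End.exists_eigenvalue (subR lam W hW.2.1 z)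
  obtain ⟨v, hv⟩ := hw.exists_hasEigenvector
  refine ⟨w, ?_⟩
  let E : Submodule ℂ (G → ℂ) := (Module.End.eigenspace (subR lam W hW.2.1 z) w).map W.subtype
  have hE : E = W := by
    refine hW.2.2 E ?_ ?_ ?_
    · rintro g y ⟨x, hx, rfl⟩
      refine ⟨subR lam W hW.2.1 g x, ?_, rfl⟩
      have hx' := Module.End.mem_eigenspace_iff.1 hx
      have h2 : subR lam W hW.2.1 z (subR lam W hW.2.1 g x) = subR lam W hW.2.1 g (subR lam W hW.2.1 z x) := by
        have h3 : (subR lam W hW.2.1 z * subR lam W hW.2.1 g) x =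
            (subR lam W hW.2.1 g * subR lam W hW.2.1 z) x := by
          rw [← map_mul, ← map_mul, hz]
        exact h3
      exact Module.End.mem_eigenspace_iff.2 (by rw [h2, hx', map_smul])
    · rintro y ⟨x, -, rfl⟩
      exact x.2
    · intro h
      have h1 : (v : G → ℂ) ∈ E := ⟨v, Module.End.mem_eigenspace_iff.2 hv.apply_eq_smul, rfl⟩
      rw [h, Submodule.mem_bot] at h1
      exact hv.2 (Subtype.ext h1)
  intro x
  have hx : (x : G → ℂ) ∈ E := by rw [hE]; exact x.2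
  obtain ⟨y, hy, hyx⟩ := hx
  have h1 : y = x := Subtype.ext hyx
  rw [← h1]
  exact Module.End.mem_eigenspace_iff.1 hy

private theorem scalw_scl (z : G) (hz : ∀ g, z * g = g * z) (φ : G → ℂ) (hφ : IsIrr φ) :
    ∃ t : ℕ, t < orderOf z ∧ ∀ g, φ (z * g) = zeta (orderOf z) ^ t * φ g := by
  obtain ⟨W, hW, h⟩ := hφ
  obtain ⟨w, hw⟩ := schur_scl z hz W hW
  have hne : Nontrivial W := Submodule.nontrivial_iff_ne_bot.2 hW.1
  have hpow : ∀ (k : ℕ) (x : W), subR lam W hW.2.1 (z ^ k) x = w ^ k • x := by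
    intro k
    induction k with
    | zero =>
      intro x
      rw [pow_zero, pow_zero, one_smul, map_one]
      rfl
    | succ k ih =>
      intro x
      rw [pow_succ, map_mul]
      show subR lam W hW.2.1 (z ^ k) (subR lam W hW.2.1 z x) = _
      rw [hw, map_smul, ih, smul_smul, pow_succ, mul_comm]
  have h1 : w ^ orderOf z = 1 := by
    obtain ⟨x, hx⟩ := exists_ne (0 : W)
    have h2 := hpow (orderOf z) x
    rw [pow_orderOf_eq_one, map_one] at h2
    have h2' : x = w ^ orderOf z • x := h2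
    have h3 : (x : G → ℂ) = w ^ orderOf z • (x : G → ℂ) := congrArg Subtype.val h2'
    obtain ⟨i, hi⟩ := Function.ne_iff.1 (fun h0 : (x : G → ℂ) = 0 => hx (Subtype.ext h0))
    have h4 : (x : G → ℂ) i = w ^ orderOf z * (x : G → ℂ) i := congrFun h3 i
    exact (mul_right_cancel₀ hi (by rw [one_mul]; exact h4)).symm
  have hpos : orderOf z ≠ 0 := (orderOf_pos z).ne'
  have hprim := Complex.isPrimitiveRoot_exp (orderOf z) hpos
  have : NeZero (orderOf z) := ⟨hpos⟩
  obtain ⟨t, ht, htw⟩ := hprim.eq_pow_of_pow_eq_one h1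
  refine ⟨t, ht, fun g => ?_⟩
  have h5 : subR lam W hW.2.1 (z * g) = w • subR lam W hW.2.1 g := by
    refine LinearMap.ext fun x => ?_
    rw [map_mul]
    exact hw _
  have h6 : zeta (orderOf z) ^ t = w := htw
  rw [h, h, h5, map_smul, h6, smul_eq_mul]

theorem scal (z : G) (hz : ∀ g, z * g = g * z) (φ : G → ℂ) (hφ : IsIrr φ) :
    ∃ t : ℕ, t < orderOf z ∧ ∀ g, φ (z * g) = Complex.exp (2 * Real.pi * ((t : ℝ) / orderOf z : ℝ) * Complex.I) * φ g := by
  obtain ⟨t, ht, h⟩ := scalw_scl z hz φ hφ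
  refine ⟨t, ht, fun g => ?_⟩
  rw [h g]
  congr 1
  unfold zeta
  rw [← Complex.exp_nat_mul]
  congr 1
  push_cast
  ring

open Classical in
/-- the function `(n/o) ∑ a < o, [g = z^a] exp (2 π i a/o)` -/
noncomputable def fz (z g : G) : ℂ :=
  ((Nat.card G : ℂ) / orderOf z) * ∑ a ∈ range (orderOf z), if g = z ^ a then zeta (orderOf z) ^ a else 0

theorem fz_class (z : G) (hz : ∀ g, z * g = g * z) (g x : G) : fz z (x * g * x⁻¹) = fz z g := by
  classical
  have h1 : ∀ a : ℕ, x * z ^ a * x⁻¹ = z ^ a := by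
    intro a
    have h2 : x * z ^ a = z ^ a * x := ((show Commute x z from (hz x).symm).pow_right a).eq
    rw [h2, mul_assoc, mul_inv_cancel, mul_one]
  have h3 : ∀ a : ℕ, (x * g * x⁻¹ = z ^ a) ↔ (g = z ^ a) := by
    intro a
    constructor
    · intro h
      rw [← h1 a] at h
      exact mul_left_cancel (mul_right_cancel h)
    · rintro rfl
      exact h1 a
  unfold fz
  congr 1
  refine sum_congr rfl fun a _ => ?_
  by_cases h : g = z ^ a
  · rw [if_pos h, if_pos ((h3 a).2 h)]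
  · rw [if_neg h, if_neg (fun h' => h ((h3 a).1 h'))]

open Classical in
theorem pr_fz (z : G) (hz : ∀ g, z * g = g * z) (ho : 2 ≤ orderOf z) (φ : G → ℂ) (hφ : IsIrr φ) :
    pr (fz z) φ = if φ z = zeta (orderOf z) * φ 1 then φ 1 else 0 := by
  obtain ⟨d, hd, hd1⟩ := irr_one φ hφ
  have hφ1 : φ 1 ≠ 0 := by
    rw [hd1]
    exact Nat.cast_ne_zero.2 (by omega)
  obtain ⟨t, ht, h⟩ := scalw_scl z hz φ hφ
  set o := orderOf z with hodef
  have hn : (Nat.card G : ℂ) ≠ 0 := Nat.cast_ne_zero.2 Nat.card_pos.ne'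
  have ho0 : o ≠ 0 := by omega
  have hoC : (o : ℂ) ≠ 0 := Nat.cast_ne_zero.2 ho0
  have hprim : IsPrimitiveRoot (zeta o) o := Complex.isPrimitiveRoot_exp o ho0
  have hz0 : zeta o ≠ 0 := hprim.ne_zero ho0
  set w := zeta o ^ t with hwdef
  have hw0 : w ≠ 0 := pow_ne_zero _ hz0
  have hinv : ∀ a : ℕ, φ ((z ^ a)⁻¹) = (w⁻¹) ^ a * φ 1 := by
    intro a
    induction a with
    | zero => rw [pow_zero, pow_zero, inv_one, one_mul]
    | succ a ih =>
      have h2 := h ((z ^ (a + 1))⁻¹)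
      have h3 : z * (z ^ (a + 1))⁻¹ = (z ^ a)⁻¹ := by
        rw [pow_succ, mul_inv_rev, ← mul_assoc, mul_inv_cancel, one_mul]
      rw [h3, ih] at h2
      have h4 : φ ((z ^ (a + 1))⁻¹) = w⁻¹ * (w⁻¹ ^ a * φ 1) := by
        rw [h2, ← mul_assoc, inv_mul_cancel₀ hw0, one_mul]
      rw [h4]
      ring
  have h4 : pr (fz z) φ = (1 / (o : ℂ)) * (∑ a ∈ range o, (zeta o * w⁻¹) ^ a) * φ 1 := by
    have h5 : ∑ g, fz z g * φ g⁻¹ = ((Nat.card G : ℂ) / o) * ∑ a ∈ range o, zeta o ^ a * φ ((z ^ a)⁻¹) := by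
      have h6 : ∀ g, fz z g * φ g⁻¹ = ((Nat.card G : ℂ) / o) * ∑ a ∈ range o,
          (if g = z ^ a then zeta o ^ a * φ g⁻¹ else 0) := by
        intro g
        unfold fz
        rw [mul_assoc, sum_mul]
        congr 1
        exact sum_congr rfl fun a _ => by rw [ite_mul, zero_mul]
      rw [sum_congr rfl fun g _ => h6 g, ← mul_sum, sum_comm]
      congr 1
      exact sum_congr rfl fun a _ => by rw [sum_ite_eq' univ (z ^ a), if_pos (mem_univ _)]
    unfold pr
    rw [h5]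
    have h7 : ∀ a ∈ range o, zeta o ^ a * φ ((z ^ a)⁻¹) = (zeta o * w⁻¹) ^ a * φ 1 := by
      intro a _
      rw [hinv, mul_pow, mul_assoc]
    rw [sum_congr rfl h7, ← sum_mul]
    field_simp
  have hφz : φ z = w * φ 1 := by
    have h8 := h 1
    rwa [mul_one] at h8
  have hiff : (φ z = zeta o * φ 1) ↔ w = zeta o := by
    rw [hφz]
    exact mul_left_inj' hφ1
  by_cases hc : w = zeta o
  · rw [if_pos (hiff.2 hc), h4, hc, mul_inv_cancel₀ hz0]
    simp only [one_pow, sum_const, card_range, nsmul_eq_mul, mul_one]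
    rw [one_div, inv_mul_cancel₀ hoC, one_mul]
  · rw [if_neg (fun h' => hc (hiff.1 h')), h4]
    have h9 : zeta o * w⁻¹ ≠ 1 := by
      intro h'
      apply hc
      rw [mul_inv_eq_one₀ hw0] at h'
      exact h'.symm
    have h10 : (zeta o * w⁻¹) ^ o = 1 := by
      rw [mul_pow, hprim.pow_eq_one, one_mul, inv_pow, hwdef, ← pow_mul, mul_comm t o, pow_mul,
        hprim.pow_eq_one, one_pow, inv_one]
    have h11 := mul_geom_sum (zeta o * w⁻¹) o
    rw [h10, sub_self] at h11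
    rcases mul_eq_zero.1 h11 with h12 | h12
    · exact absurd (sub_eq_zero.1 h12) h9
    · rw [h12, mul_zero, zero_mul]

end Pool.Agent.H82.FIN
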