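import Pool.Agent.H82.FIN.SetD
import Pool.Agent.H82.FIN.Scal
import Pool.Agent.H82.FIN.MulC
import Pool.Agent.H82.FIN.Mul
import Pool.Agent.H82.FIN.LB
import Pool.Agent.H82.FIN.CTj
import Pool.Agent.H82.FIN.Exc
import Pool.Agent.H82.FIN.CTb
import Pool.Agent.H82.FIN.Od
import Pool.Agent.H82.CO.Eps

set_option autoImplicit false

/-!
PROJECT FIN (MP_bf82d2_ag, Finiteness; note 6077), module CaseD2.
Case D, central `z` of order `o ≥ 3`.
PROOF. `f = fz z`, `a φ = φ(1)` if `φ z = zeta o φ(1)`, else `0` (`pr_fz`).  `LB0` with `EX` = bad for `P`, `b`: `φ ≠ cj φ` as `zeta o` is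
not real; for `φ` good, `a φ > 0`: on `cj φ` (irreducible, good) `z` is `exp (2 π i (1 - 1/o))`, `ang z (cj φ) = (1 - 1/o) φ(1)` (`ang_central`),
`od P z = 1`, `z ^ 1 = z`, `mul_good`, `nuP_D`: `mul s (cj φ) ≥ φ(1) (-1/2 + 1 - 1/o) > 0`, so `≥ 1` (`mul_nat`).  So `Re pr (chi s) f = ∑ a φ mul s φ ≤ 4 b +
6 b^3 4 σ^2` (`sum_mul_pr`, `exc_sum_sq` with `γ = 4 σ^2`).  On the other side `mul_class` with `P' = zpowers z` (normal; `f` is supported on it):
`f 1 = n/o`, `ν_P' ≥ 2 - 1/m`, `m = od S (s iy)` (`s i₁, s i₂ ∉ P'`: `1 - 1/od ≥ 1/2`; `od P' (s iy) ≥ od S (s iy) = n/(2 |S|)`: `od_le`), all `pr (U c) f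
= ∑ a φ ang c φ ≥ 0` (`sum_ang`, `ang_nonneg`), and for `i = j`: `od P' z = 1`, `ang z φ = (1/o) φ(1)` when `a φ ≠ 0`, so `pr (U z) f = (1/o) f 1 = n/o^2`
(`sum_one`).  So `n/o^2 - (n/o)/(2m) ≤ C`, `(n/o)/(2m) = |S|/o ≤ σ`, `o ≤ σ`: `n ≤ σ^2 (C + σ)`.
-/

namespace Pool.Agent.H82.FIN

open Finset Module
open Pool.Agent.H93.Hup (Inv MinInv)
open Pool.Agent.H52.VC (lam subR)
open Pool.Agent.H82.CO (chi quadInv genus nu eps zeta)

variable {G : Type} [Group G] [Fintype G]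

private theorem exp_d2 (o : ℕ) (ho : 0 < o) :
    Complex.exp (2 * Real.pi * ((1 - 1 / (o : ℝ) : ℝ) : ℂ) * Complex.I) = (zeta o)⁻¹ := by
  have ho' : (o : ℂ) ≠ 0 := Nat.cast_ne_zero.2 ho.ne'
  unfold zeta
  rw [← Complex.exp_neg]
  have h1 : 2 * Real.pi * ((1 - 1 / (o : ℝ) : ℝ) : ℂ) * Complex.I =
      -(2 * Real.pi * Complex.I / o) + 2 * Real.pi * Complex.I := by
    push_cast
    field_simp
    ring
  rw [h1, Complex.exp_add, Complex.exp_two_pi_mul_I, mul_one]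

private theorem exp1_d2 (o : ℕ) (ho : 0 < o) :
    Complex.exp (2 * Real.pi * ((1 / (o : ℝ) : ℝ) : ℂ) * Complex.I) = zeta o := by
  have ho' : (o : ℂ) ≠ 0 := Nat.cast_ne_zero.2 ho.ne'
  unfold zeta
  congr 1
  push_cast
  field_simp

/-- if `z` acts at `1` by `zeta o`, it does everywhere -/
private theorem all_d2 (z : G) (hz : ∀ g, z * g = g * z) (φ : G → ℂ) (hφ : IsIrr φ)
    (h : φ z = zeta (orderOf z) * φ 1) (g : G) : φ (z * g) = zeta (orderOf z) * φ g := by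
  obtain ⟨d, hd, hd1⟩ := irr_one φ hφ
  have hφ1 : φ 1 ≠ 0 := by
    rw [hd1]
    exact Nat.cast_ne_zero.2 (by omega)
  obtain ⟨t, ht, hs⟩ := scal z hz φ hφ
  have h1 := hs 1
  rw [mul_one, h] at h1
  have h2 := mul_right_cancel₀ hφ1 h1
  rw [hs g, ← h2]

/-- the multiplicity of the conjugate character -/
private theorem pos_d2 {b σ : ℕ} {N : ℕ} {s : Fin N → G} {A S : Subgroup G} {x : G} {P : Subgroup G} {i₁ i₂ iy : Fin N}
    (h : CD b σ s A S x P i₁ i₂ iy) (j : Fin N) (hj1 : j ≠ i₁) (hj2 : j ≠ i₂) (hjy : j ≠ iy)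
    (hz : ∀ g, s j * g = g * s j) (ho : 3 ≤ orderOf (s j)) (φ : G → ℂ) (hφ : IsIrr φ) (hg : ¬ Bad P φ)
    (hc : φ (s j) = zeta (orderOf (s j)) * φ 1) : 1 ≤ mul s (cj φ) := by
  have hr := h.red
  have ho0 : 0 < orderOf (s j) := by omega
  have hoR : (3 : ℝ) ≤ orderOf (s j) := by exact_mod_cast ho
  have hcj := irr_cj φ hφ
  have hg' : ¬ Bad P (cj φ) := by
    rintro ⟨g, hg1, h4⟩
    exact hg ⟨g, hg1, fun h5 => h4 (by rw [cj, h5, map_zero])⟩
  have hd0 : 1 / (orderOf (s j) : ℝ) ≤ 1 / 3 := one_div_le_one_div_of_le (by norm_num) hoR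
  have hd00 : 0 < 1 / (orderOf (s j) : ℝ) := by positivity
  have hang : ang (s j) (cj φ) = (1 - 1 / (orderOf (s j) : ℝ)) * ((cj φ) 1).re := by
    refine ang_central (s j) (cj φ) hcj _ (by linarith) (by linarith) ?_
    intro g
    rw [exp_d2 _ ho0]
    unfold cj
    rw [all_d2 (s j) hz φ hφ hc g, map_mul, Pool.Agent.H82.CO.conj_zeta ho0]
  obtain ⟨d, hd, hd1⟩ := irr_one (cj φ) hcj
  have hd2 : ((cj φ) 1).re = d := by rw [hd1, Complex.natCast_re]
  have hdR : (1 : ℝ) ≤ d := by exact_mod_cast hd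
  have hm := mul_good s P h.hP (cj φ) hcj hg'
  rw [nuP_D h] at hm
  have hod : od P (s j) = 1 := by
    have h1 : s j ^ 1 ∈ P := by
      rw [pow_one]
      exact h.hSP (h.hj j hj1 hj2 hjy)
    exact Nat.dvd_one.1 ((od_dvd P (s j) 1).1 h1)
  have hterm : ang (s j) (cj φ) ≤ ∑ i, (1 / (od P (s i) : ℝ)) * ang (s i ^ od P (s i)) (cj φ) := by
    have h1 := single_le_sum (f := fun i => (1 / (od P (s i) : ℝ)) * ang (s i ^ od P (s i)) (cj φ))
      (fun i _ => mul_nonneg (by positivity) (ang_nonneg _ _ hcj)) (mem_univ j)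
    simp only [hod, pow_one, Nat.cast_one, div_one, one_mul] at h1
    exact h1
  obtain ⟨m, -, hm2⟩ := mul_nat s hr.tup (cj φ) hcj
  rw [hm2]
  rw [hm2] at hm
  rw [hang] at hterm
  rw [hd2] at hm hterm
  have hpos : (0 : ℝ) < m := by
    have h1 : (d : ℝ) * (1 / 2 - 1) + (1 - 1 / (orderOf (s j) : ℝ)) * d ≤ m := by linarith
    nlinarith
  have hm1 : 0 < m := by exact_mod_cast hpos
  exact_mod_cast hm1

theorem case_D2 {b σ : ℕ} {N : ℕ} {s : Fin N → G} {A S : Subgroup G} {x : G} {P : Subgroup G} {i₁ i₂ iy : Fin N}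
    (h : CD b σ s A S x P i₁ i₂ iy) (j : Fin N) (hj1 : j ≠ i₁) (hj2 : j ≠ i₂) (hjy : j ≠ iy)
    (hz : ∀ g, s j * g = g * s j) (ho : 3 ≤ orderOf (s j)) :
    (Nat.card G : ℝ) ≤ (σ : ℝ) ^ 2 * (4 * b + 24 * (b : ℝ) ^ 3 * (σ : ℝ) ^ 2 + σ) := by
  classical
  have hr := h.red
  have ho0 : 0 < orderOf (s j) := by omega
  have ho2 : 2 ≤ orderOf (s j) := by omega
  have hoR : (3 : ℝ) ≤ orderOf (s j) := by exact_mod_cast ho
  have hb0 : (0 : ℝ) ≤ b := Nat.cast_nonneg b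
  have hσ0 : (0 : ℝ) ≤ σ := Nat.cast_nonneg σ
  have hjS : s j ∈ S := h.hj j hj1 hj2 hjy
  have hdeg : ∀ φ ∈ XX G, (φ 1).re ≤ b := by
    intro φ hφ
    refine (irr_deg φ ((mem_XX φ).1 hφ) A hr.hAc).trans ?_
    exact_mod_cast hr.hAi
  obtain ⟨a, ha⟩ : ∃ a : (G → ℂ) → ℝ, ∀ φ, a φ = if φ (s j) = zeta (orderOf (s j)) * φ 1 then (φ 1).re else 0 :=
    ⟨fun φ => if φ (s j) = zeta (orderOf (s j)) * φ 1 then (φ 1).re else 0, fun φ => rfl⟩
  have hre : ∀ φ ∈ XX G, (((φ 1).re : ℝ) : ℂ) = φ 1 ∧ 1 ≤ (φ 1).re := by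
    intro φ hφ
    obtain ⟨d, hd, h1⟩ := irr_one φ ((mem_XX φ).1 hφ)
    have h5 : (φ 1).re = d := by rw [h1, Complex.natCast_re]
    refine ⟨by rw [h5, h1]; simp, ?_⟩
    rw [h5]
    exact_mod_cast hd
  have hapr : ∀ φ ∈ XX G, pr (fz (s j)) φ = a φ := by
    intro φ hφ
    rw [ha, pr_fz (s j) hz ho2 φ ((mem_XX φ).1 hφ)]
    by_cases hc : φ (s j) = zeta (orderOf (s j)) * φ 1
    · rw [if_pos hc, if_pos hc, (hre φ hφ).1]
    · rw [if_neg hc, if_neg hc, Complex.ofReal_zero]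
  have ha0 : ∀ φ ∈ XX G, 0 ≤ a φ := by
    intro φ hφ
    rw [ha]
    split_ifs
    · linarith [(hre φ hφ).2]
    · exact le_rfl
  have ha1 : ∀ φ ∈ XX G, a φ ≤ (φ 1).re := by
    intro φ hφ
    rw [ha]
    split_ifs
    · exact le_rfl
    · linarith [(hre φ hφ).2]
  have hac : ∀ φ, 0 < a φ → φ (s j) = zeta (orderOf (s j)) * φ 1 := by
    intro φ h0
    by_contra hc
    rw [ha, if_neg hc] at h0
    exact lt_irrefl _ h0
  have hcls := fz_class (s j) hz
  -- upper bound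
  obtain ⟨EX, hEX⟩ : ∃ EX : Finset (G → ℂ), EX = (XX G).filter (fun φ => Bad P φ) := ⟨_, rfl⟩
  have hlb := LB0 s hr.tup (b : ℝ) hdeg EX (by rw [hEX]; exact filter_subset _ _) a ha0 ha1
    (fun φ hφ h0 heq => by
      have hi := (mem_XX φ).1 hφ
      have hc := hac φ h0
      have h1 : cj φ (s j) = φ (s j) := by rw [← heq]
      have h2 : cj φ 1 = φ 1 := by rw [← heq]
      unfold cj at h1 h2
      rw [hc, map_mul, h2, Pool.Agent.H82.CO.conj_zeta ho0] at h1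
      have hφ1 : φ 1 ≠ 0 := by
        intro h3
        have := (hre φ hφ).2
        rw [h3, Complex.zero_re] at this
        linarith
      have h4 := mul_right_cancel₀ hφ1 h1
      have h5 : zeta (orderOf (s j)) ^ 2 = 1 := by
        have h6 := Pool.Agent.H82.CO.zeta_ne ho0
        rw [sq]
        nth_rewrite 1 [← h4]
        exact inv_mul_cancel₀ h6
      have h7 := (Pool.Agent.H82.CO.zeta_prim ho0).dvd_of_pow_eq_one 2 h5
      have h8 := Nat.le_of_dvd (by norm_num) h7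
      omega)
    (fun φ hφ hE h0 => by
      have hi := (mem_XX φ).1 hφ
      rw [hEX, mem_filter, not_and] at hE
      exact pos_d2 h j hj1 hj2 hjy hz ho φ hi (hE hφ) (hac φ h0))
  rw [sum_mul_pr s hr.tup (fz (s j)) hcls a hapr] at hlb
  have hbad := exc_sum_sq b A hr.hA hr.hAc hr.hAi P (4 * (σ : ℝ) ^ 2) h.hcz (by positivity)
  have hsum : ∑ φ ∈ EX, (φ 1).re ^ 2 ≤ (b : ℝ) ^ 3 * (4 * (σ : ℝ) ^ 2) := by
    rw [hEX]
    convert hbad
  have hN4 : (N : ℝ) ≤ 5 := by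
    rcases hr.hN with h1 | h1
    · rw [h1]; norm_num
    · rw [h1]; norm_num
  have hS0 : 0 ≤ ∑ φ ∈ EX, (φ 1).re ^ 2 := sum_nonneg fun φ _ => sq_nonneg _
  have hq : (b : ℝ) * (2 * (quadInv s).re) ≤ b * 4 := by
    refine mul_le_mul_of_nonneg_left ?_ hb0
    have := hr.hd
    linarith
  have hE6 : ((N : ℝ) + 1) * ∑ φ ∈ EX, (φ 1).re ^ 2 ≤ 6 * ((b : ℝ) ^ 3 * (4 * (σ : ℝ) ^ 2)) :=
    mul_le_mul (by linarith) hsum hS0 (by norm_num)
  -- lower bound
  have hP' : (Subgroup.zpowers (s j)).Normal := by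
    refine ⟨fun n hn g => ?_⟩
    obtain ⟨k, rfl⟩ := Subgroup.mem_zpowers_iff.1 hn
    have h1 : g * s j ^ k * g⁻¹ = s j ^ k := by
      have h2 : Commute (s j) g := hz g
      have h3 := (h2.zpow_left k).eq
      rw [← h3, mul_assoc, mul_inv_cancel, mul_one]
    rw [h1]
    exact hn
  have hsupp : ∀ g, g ∉ Subgroup.zpowers (s j) → fz (s j) g = 0 := by
    intro g hg
    unfold fz
    rw [sum_eq_zero, mul_zero]
    intro k _
    rw [if_neg]
    rintro rfl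
    exact hg (Subgroup.npow_mem_zpowers _ _)
  have hlow := mul_class s (Subgroup.zpowers (s j)) hP' (fz (s j)) hcls hsupp a hapr ha0
  have hf1 : (fz (s j) 1).re = (Nat.card G : ℝ) / orderOf (s j) := by
    have h1 : fz (s j) 1 = (((Nat.card G : ℝ) / orderOf (s j) : ℝ) : ℂ) := by
      unfold fz
      rw [sum_eq_single 0]
      · rw [if_pos (by rw [pow_zero]), pow_zero, mul_one]
        push_cast
        rfl
      · intro k hk hk0
        rw [if_neg]
        intro h2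
        have h3 := orderOf_dvd_of_pow_eq_one h2.symm
        have h4 := Nat.le_of_dvd (by omega) h3
        have h5 := mem_range.1 hk
        omega
      · intro h2
        exact absurd (mem_range.2 ho0) h2
    rw [h1, Complex.ofReal_re]
  have hPP : Subgroup.zpowers (s j) ≤ S := by
    rw [Subgroup.zpowers_le]
    exact hjS
  have hodj : od (Subgroup.zpowers (s j)) (s j) = 1 := by
    have h1 : s j ^ 1 ∈ Subgroup.zpowers (s j) := by
      rw [pow_one]
      exact Subgroup.mem_zpowers _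
    exact Nat.dvd_one.1 ((od_dvd _ (s j) 1).1 h1)
  have hodpos : ∀ i, (0 : ℝ) < od (Subgroup.zpowers (s j)) (s i) := fun i => by
    exact_mod_cast od_pos (Subgroup.zpowers (s j)) (s i)
  have hod1 : ∀ i, 0 ≤ 1 - 1 / (od (Subgroup.zpowers (s j)) (s i) : ℝ) := by
    intro i
    have h1 : (1 : ℝ) ≤ od (Subgroup.zpowers (s j)) (s i) := by
      exact_mod_cast od_pos (Subgroup.zpowers (s j)) (s i)
    have h2 : 1 / (od (Subgroup.zpowers (s j)) (s i) : ℝ) ≤ 1 := by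
      rw [div_le_one (by linarith)]
      exact h1
    linarith
  have hod2 : ∀ i, s i ∉ P → 1 / 2 ≤ 1 - 1 / (od (Subgroup.zpowers (s j)) (s i) : ℝ) := by
    intro i hi
    have h1 : od (Subgroup.zpowers (s j)) (s i) ≠ 1 := by
      intro h2
      have h3 := od_mem (Subgroup.zpowers (s j)) (s i)
      rw [h2, pow_one] at h3
      exact hi (h.hSP (hPP h3))
    have h2 := od_pos (Subgroup.zpowers (s j)) (s i)
    have h3 : 2 ≤ od (Subgroup.zpowers (s j)) (s i) := by omega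
    have h4 : (2 : ℝ) ≤ od (Subgroup.zpowers (s j)) (s i) := by exact_mod_cast h3
    have h5 : 1 / (od (Subgroup.zpowers (s j)) (s i) : ℝ) ≤ 1 / 2 := one_div_le_one_div_of_le (by norm_num) h4
    linarith
  have hmpos : 0 < od S (s iy) := od_pos S (s iy)
  have hmR : (0 : ℝ) < od S (s iy) := by exact_mod_cast hmpos
  have hod3 : 1 - 1 / (od S (s iy) : ℝ) ≤ 1 - 1 / (od (Subgroup.zpowers (s j)) (s iy) : ℝ) := by
    have h1 := Nat.le_of_dvd (od_pos _ _) (od_le S (Subgroup.zpowers (s j)) hPP (s iy))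
    have h2 : (od S (s iy) : ℝ) ≤ od (Subgroup.zpowers (s j)) (s iy) := by exact_mod_cast h1
    have h3 := one_div_le_one_div_of_le hmR h2
    linarith
  have hnu : 2 - 1 / (od S (s iy) : ℝ) ≤ nuM (Subgroup.zpowers (s j)) s := by
    have h1 : ∑ i ∈ ({i₁, i₂, iy} : Finset (Fin N)), (1 - 1 / (od (Subgroup.zpowers (s j)) (s i) : ℝ)) ≤
        nuM (Subgroup.zpowers (s j)) s := by
      rw [nuM]
      exact sum_le_sum_of_subset_of_nonneg (subset_univ _) fun i _ _ => hod1 i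
    rw [sum_insert (by simp [h.h12, h.h1y]), sum_insert (by simp [h.h2y]), sum_singleton] at h1
    have h2 := hod2 i₁ h.h1
    have h3 := hod2 i₂ h.h2
    linarith
  have hangs : (1 / (orderOf (s j) : ℝ)) * ((Nat.card G : ℝ) / orderOf (s j)) ≤
      ∑ i, (1 / (od (Subgroup.zpowers (s j)) (s i) : ℝ)) *
        (pr (U (s i ^ od (Subgroup.zpowers (s j)) (s i))) (fz (s j))).re := by
    have h0 : ∀ i, 0 ≤ (1 / (od (Subgroup.zpowers (s j)) (s i) : ℝ)) *
        (pr (U (s i ^ od (Subgroup.zpowers (s j)) (s i))) (fz (s j))).re := by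
      intro i
      refine mul_nonneg (by positivity) ?_
      rw [sum_ang _ (fz (s j)) hcls a hapr]
      exact sum_nonneg fun φ hφ => mul_nonneg (ha0 φ hφ) (ang_nonneg _ _ ((mem_XX φ).1 hφ))
    have h1 := single_le_sum (f := fun i => (1 / (od (Subgroup.zpowers (s j)) (s i) : ℝ)) *
        (pr (U (s i ^ od (Subgroup.zpowers (s j)) (s i))) (fz (s j))).re) (fun i _ => h0 i) (mem_univ j)
    simp only [hodj, pow_one, Nat.cast_one, div_one, one_mul] at h1
    refine le_trans (le_of_eq ?_) h1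
    rw [sum_ang _ (fz (s j)) hcls a hapr, ← hf1, sum_one (fz (s j)) hcls a hapr, mul_sum]
    refine sum_congr rfl fun φ hφ => ?_
    by_cases hc : φ (s j) = zeta (orderOf (s j)) * φ 1
    · have h2 : ang (s j) φ = (1 / (orderOf (s j) : ℝ)) * (φ 1).re := by
        refine ang_central (s j) φ ((mem_XX φ).1 hφ) _ (by positivity) ?_ ?_
        · rw [div_lt_one (by linarith)]
          linarith
        · intro g
          rw [exp1_d2 _ ho0]
          exact all_d2 (s j) hz φ ((mem_XX φ).1 hφ) hc g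
      rw [h2]
      ring
    · have h2 : a φ = 0 := by rw [ha, if_neg hc]
      rw [h2]
      ring
  rw [hf1] at hlow
  -- the end
  have hn0 : (0 : ℝ) ≤ Nat.card G := Nat.cast_nonneg _
  have hSσ : (Nat.card S : ℝ) ≤ σ := by exact_mod_cast hr.hSc
  have hoσ : (orderOf (s j) : ℝ) ≤ σ := by
    have h1 : orderOf (s j) ≤ Nat.card S := by
      have h2 : orderOf (⟨s j, hjS⟩ : S) = orderOf (s j) := Subgroup.orderOf_mk _ _
      rw [← h2]
      exact orderOf_le_card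
    have h2 : (orderOf (s j) : ℝ) ≤ Nat.card S := by exact_mod_cast h1
    linarith
  have hcard : (Nat.card G : ℝ) = 2 * Nat.card S * od S (s iy) := by exact_mod_cast h.oy.symm
  set o : ℝ := (orderOf (s j) : ℝ) with hodef
  set n : ℝ := (Nat.card G : ℝ) with hndef
  set m : ℝ := (od S (s iy) : ℝ) with hmdef
  have hopos : 0 < o := by linarith
  have hC : (pr (chi s) (fz (s j))).re ≤ 4 * b + 24 * (b : ℝ) ^ 3 * (σ : ℝ) ^ 2 := by
    refine hlb.trans ?_
    have h9 : (6 : ℝ) * ((b : ℝ) ^ 3 * (4 * (σ : ℝ) ^ 2)) = 24 * (b : ℝ) ^ 3 * (σ : ℝ) ^ 2 := by ring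
    linarith
  have hno : 0 ≤ n / o := by positivity
  have h1 : n / o * (-(1 / (2 * m))) ≤ n / o * (nuM (Subgroup.zpowers (s j)) s / 2 - 1) := by
    refine mul_le_mul_of_nonneg_left ?_ hno
    have h2 : 1 / (2 * m) = (1 / m) / 2 := by field_simp
    rw [h2]
    linarith
  have h2 : n / o * (1 / (2 * m)) ≤ σ := by
    have h3 : n / o * (1 / (2 * m)) = Nat.card S / o := by
      rw [hcard]
      field_simp
    rw [h3, div_le_iff₀ hopos]
    nlinarith
  have h3 : 1 / o * (n / o) ≤ 4 * b + 24 * (b : ℝ) ^ 3 * (σ : ℝ) ^ 2 + σ := by linarith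
  have h4 : n = o ^ 2 * (1 / o * (n / o)) := by field_simp
  have h5 : 0 ≤ 4 * b + 24 * (b : ℝ) ^ 3 * (σ : ℝ) ^ 2 + σ := by positivity
  calc n = o ^ 2 * (1 / o * (n / o)) := h4
    _ ≤ o ^ 2 * (4 * b + 24 * (b : ℝ) ^ 3 * (σ : ℝ) ^ 2 + σ) := mul_le_mul_of_nonneg_left h3 (by positivity)
    _ ≤ (σ : ℝ) ^ 2 * (4 * b + 24 * (b : ℝ) ^ 3 * (σ : ℝ) ^ 2 + σ) :=
        mul_le_mul_of_nonneg_right (pow_le_pow_left₀ hopos.le hoσ 2) h5

end Pool.Agent.H82.FIN
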