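import Pool.Agent.H82.FIN.Defs
import Pool.Agent.H82.FIN.Od
import Pool.Agent.H52.VC.Cen

set_option autoImplicit false

/-!
PROJECT FIN (MP_bf82d2_ag, Finiteness; note 6077), module Cent.
Centrality: from `Pool.Agent.H52.VC.central`.
-/

namespace Pool.Agent.H82.FIN

open Finset Module
open Pool.Agent.H82.CO (chi quadInv genus nu eps zeta)

theorem cent (b σ : ℕ) : ∃ C : ℝ, ∀ (G : Type) [Group G] [Fintype G] (N : ℕ) (s : Fin N → G) (A S : Subgroup G) (x : G)
    (P : Subgroup G) (i₁ i₂ iy : Fin N), CD b σ s A S x P i₁ i₂ iy → C < Nat.card G →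
    ∀ j, j ≠ i₁ → j ≠ i₂ → j ≠ iy → ∀ g, s j * g = g * s j := by
  refine ⟨(8 * σ * 2 + 2 * σ + 1) ^ 2, ?_⟩
  intro G _ _ N s A S x P i₁ i₂ iy h hC j hj1 hj2 hjy g
  have h2 : ∀ i, i ≠ iy → s i ^ 2 ∈ S := by
    intro i hi
    by_cases h1 : i = i₁
    · have := od_mem S (s i₁)
      rw [h.o1] at this
      rw [h1]
      exact this
    · by_cases h3 : i = i₂
      · have := od_mem S (s i₂)
        rw [h.o2] at this
        rw [h3]
        exact this
      · exact S.pow_mem (h.hj i h1 h3 hi) 2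
  have hd : (quadInv s).re ≤ 2 := by
    have h3 := h.red.hd
    rcases h.red.hN with h4 | h4
    · have h5 : (N : ℝ) = 4 := by exact_mod_cast h4
      rw [h5] at h3
      linarith
    · have h5 : (N : ℝ) = 5 := by exact_mod_cast h4
      rw [h5] at h3
      linarith
  exact (Pool.Agent.H52.VC.central s h.red.tup.prod h.red.tup.gen S h.red.hS σ h.red.hSc iy h2 2 (by norm_num) hd
    hC.le j hjy (h.hj j hj1 hj2 hjy) g).symm

end Pool.Agent.H82.FIN
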