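import Pool.Agent.H82.FIN.Defs
import Pool.Agent.H9.FIN.E2

set_option autoImplicit false

/-!
PROJECT FIN (MP_bf82d2_ag, Finiteness; note 6077), module RtS.
Elements with square in `S`, and involutions.
PROOF. `rS_le`: the `h` with `h x ∈ P` are `|P|`.  Let `h x ∉ P`, `h^2 = c ∈ S`.  In the coset `h A` the elements `h a` with `(h a)^2
= c` satisfy `h⁻¹ a h = a⁻¹` (`h a h a = h h`, `A` abelian and normal), `x a x⁻¹ = a⁻¹`, so `a` commutes with `h x`: at most `cz (h x) ≤ γ`
of them.  So at most `|S| γ` for each of the `[G : A]` cosets.  `card_le_cz_rn`: the conjugates of `g` are `n / cz g` elements of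
square `1`.
-/

namespace Pool.Agent.H82.FIN

open Finset Module
open Pool.Agent.H93.Hup (Inv MinInv)
open Pool.Agent.H52.VC (lam subR)
open Pool.Agent.H82.CO (chi quadInv genus nu eps zeta)

variable {G : Type} [Group G] [Fintype G]

private theorem cz_eq (g : G) : cz g = (Nat.card (Subgroup.centralizer ({g} : Set G)) : ℝ) := by
  unfold cz
  congr 1
  refine Nat.card_congr (Equiv.subtypeEquivRight fun h => ?_)
  rw [Subgroup.mem_centralizer_singleton_iff]

theorem rS_le (A S P : Subgroup G) (x : G) (hA : A.Normal) (hAc : ∀ a ∈ A, ∀ c ∈ A, a * c = c * a)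
    (hx : ∀ a ∈ A, x * a * x⁻¹ = a⁻¹) (γ : ℝ) (hγ0 : 0 ≤ γ) (hγ : ∀ g, g ∉ P → cz g ≤ γ) :
    rS S ≤ Nat.card P + A.index * γ * Nat.card S := by
  have h1 := Pool.Agent.H9.FIN.card_sq_mem A P S x hx ⌊γ⌋₊ (fun g hg => by
    refine Nat.le_floor ?_
    rw [← cz_eq]
    exact hγ g hg)
  have h2 : rS S ≤ ((Nat.card P + A.index * Nat.card S * ⌊γ⌋₊ : ℕ) : ℝ) := by
    unfold rS
    exact_mod_cast h1
  refine le_trans h2 ?_
  push_cast
  have h3 : ((⌊γ⌋₊ : ℕ) : ℝ) ≤ γ := Nat.floor_le hγ0
  have h4 : (0 : ℝ) ≤ (A.index : ℝ) * Nat.card S := by positivity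
  nlinarith [mul_le_mul_of_nonneg_left h3 h4]

theorem card_le_cz_rn (g : G) (hg : g ^ 2 = 1) : (Nat.card G : ℝ) ≤ cz g * rn (1 : G) := by
  classical
  rw [cz_eq]
  have key : Nat.card G ≤ Nat.card (Subgroup.centralizer ({g} : Set G)) * Nat.card {h : G // h ^ 2 = 1} := by
    have e1 : Nat.card {h : G // h ^ 2 = 1} = (Finset.univ.filter fun h : G => h ^ 2 = 1).card := by
      rw [Nat.card_eq_fintype_card, Fintype.card_subtype]
    have e2 : Nat.card (Subgroup.centralizer ({g} : Set G)) =
        (Finset.univ.filter fun a : G => a ∈ Subgroup.centralizer ({g} : Set G)).card := by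
      rw [Nat.card_eq_fintype_card, Fintype.card_subtype]
    have hmap : ∀ y ∈ (Finset.univ : Finset G), y * g * y⁻¹ ∈ (Finset.univ.filter fun h : G => h ^ 2 = 1) := by
      intro y _
      rw [Finset.mem_filter]
      refine ⟨Finset.mem_univ _, ?_⟩
      rw [conj_pow, hg, mul_one, mul_inv_cancel]
    have hfib : ∀ u ∈ (Finset.univ.filter fun h : G => h ^ 2 = 1),
        ((Finset.univ : Finset G).filter fun y => y * g * y⁻¹ = u).card ≤
          Nat.card (Subgroup.centralizer ({g} : Set G)) := by
      intro u _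
      rcases ((Finset.univ : Finset G).filter fun y => y * g * y⁻¹ = u).eq_empty_or_nonempty with he | ⟨y, hy⟩
      · rw [he]; exact Nat.zero_le _
      · rw [Finset.mem_filter] at hy
        rw [e2]
        refine Finset.card_le_card_of_injOn (fun k => y⁻¹ * k) ?_ ?_
        · intro k hk
          simp only [Finset.coe_filter, Finset.mem_univ, true_and, Set.mem_ofPred_eq] at hk
          simp only [Finset.coe_filter, Finset.mem_univ, true_and, Set.mem_ofPred_eq]
          rw [Subgroup.mem_centralizer_singleton_iff]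
          have h3 : y * g * y⁻¹ = k * g * k⁻¹ := hy.2.trans hk.symm
          calc y⁻¹ * k * g = y⁻¹ * (k * g * k⁻¹) * k := by group
            _ = y⁻¹ * (y * g * y⁻¹) * k := by rw [h3]
            _ = g * (y⁻¹ * k) := by group
        · intro a _ b _ hab
          exact mul_left_cancel hab
    calc Nat.card G = (Finset.univ : Finset G).card := by rw [Nat.card_eq_fintype_card, Finset.card_univ]
      _ = ∑ u ∈ (Finset.univ.filter fun h : G => h ^ 2 = 1),
            ((Finset.univ : Finset G).filter fun y => y * g * y⁻¹ = u).card :=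
          Finset.card_eq_sum_card_fiberwise hmap
      _ ≤ ∑ _u ∈ (Finset.univ.filter fun h : G => h ^ 2 = 1), Nat.card (Subgroup.centralizer ({g} : Set G)) :=
          Finset.sum_le_sum hfib
      _ = Nat.card (Subgroup.centralizer ({g} : Set G)) * Nat.card {h : G // h ^ 2 = 1} := by
          rw [Finset.sum_const, smul_eq_mul, e1, mul_comm]
  unfold rn
  exact_mod_cast key

end Pool.Agent.H82.FIN
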