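import Pool.Agent.H82.FIN.Res
import Pool.Agent.H82.FIN.CTe
import Pool.Agent.H82.FIN.CTc
import Pool.Agent.H82.FIN.CTh
import Pool.Agent.H52.VC.Chi
import Pool.Agent.H82.CO.FS

set_option autoImplicit false

/-!
PROJECT FIN (MP_bf82d2_ag, Finiteness; note 6077), module VQa.
The average of `chi s` over the cosets of `S`.
PROOF. `VQ_one`: `chi_res` with `P = S` (`avg` of `1` is `1`; of `δ_1` is `1/|S|`; of `U c`, `c ∈ S`: `∑ g ∈ S, U c g =
∑ g, U c g` (`U_off`) `= (1/m) ∑ x ∑ k eps m k = n (1/m) ∑ k < m, eps m k = 0` [`∑ k, zeta^(a k) = 0` unless `a = 0`, where the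
factor `a/m` is `0`]).  `VQ_exp`: `chi s = ∑ m_φ φ` (`irr_exp`, `mul_nat`), and the average of `φ (g h)` over `h ∈ S` is `φ g` if
`S` acts trivially and `0` otherwise (`avg_normal`; for `avg S φ = 0` the operator `∑ h ∈ S, ρ h` is `0`, so also
`∑ h, φ (g h) = 0`).
-/

namespace Pool.Agent.H82.FIN

open Finset Module
open Pool.Agent.H93.Hup (Inv MinInv)
open Pool.Agent.H52.VC (lam subR)
open Pool.Agent.H82.CO (chi quadInv genus nu eps zeta)

variable {G : Type} [Group G] [Fintype G]

private theorem vqa_ne (S : Subgroup G) : (Nat.card S : ℂ) ≠ 0 := by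
  exact_mod_cast Nat.card_pos.ne'

private theorem vqa_card (S : Subgroup G) [DecidablePred fun x : G => x ∈ S] :
    ∑ h : G, (if h ∈ S then (1 : ℂ) else 0) = Nat.card S := by
  classical
  rw [← sum_filter, sum_const, nsmul_eq_mul, mul_one, ← Fintype.card_subtype, ← Nat.card_eq_fintype_card]

private theorem vqa_U (S : Subgroup G) (hS : S.Normal) (c : G) (hc : c ∈ S)
    [DecidablePred fun x : G => x ∈ S] : ∑ h : G, (if h ∈ S then U c h else 0) = 0 := by
  classical
  have h1 : ∀ h : G, (if h ∈ S then U c h else 0) = U c h := by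
    intro h
    by_cases hh : h ∈ S
    · rw [if_pos hh]
    · rw [if_neg hh, U_off S hS c h hc hh]
  rw [sum_congr rfl fun h _ => h1 h]
  unfold U
  rw [← mul_sum, sum_comm]
  have h2 : ∀ x : G, ∑ g : G, ∑ k ∈ range (orderOf c),
      (if x * c ^ k * x⁻¹ = g then eps (orderOf c) k else 0) = 0 := by
    intro x
    refine Eq.trans ?_ (Pool.Agent.H82.CO.sum_eps (orderOf_pos c))
    rw [sum_comm]
    refine sum_congr rfl fun k _ => ?_
    rw [sum_ite_eq, if_pos (mem_univ _)]
  rw [sum_congr rfl fun x _ => h2 x, sum_const_zero, mul_zero]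

theorem VQ_one {N : ℕ} (s : Fin N → G) (S : Subgroup G) (hS : S.Normal) :
    VQ S s 1 = 1 + ((Nat.card G : ℂ) / Nat.card S) * ((nuM S s : ℂ) / 2 - 1) := by
  classical
  have hS0 := vqa_ne S
  have h1 : ∀ h : G, (if h ∈ S then chi s (1 * h) else 0) =
      (if h ∈ S then (1 : ℂ) else 0) +
      (if h = 1 then (Nat.card G : ℂ) * ((nuM S s : ℂ) / 2 - 1) else 0) +
      ∑ i, (1 / (od S (s i) : ℂ)) * (if h ∈ S then U (s i ^ od S (s i)) h else 0) := by
    intro h
    by_cases hh : h ∈ S
    · simp only [if_pos hh]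
      rw [one_mul, chi_res s S hS h hh]
    · have h2 : h ≠ 1 := fun e => hh (e ▸ S.one_mem)
      simp only [if_neg hh, if_neg h2, mul_zero, sum_const_zero, add_zero]
  have h3 : ∑ h : G, ∑ i, (1 / (od S (s i) : ℂ)) * (if h ∈ S then U (s i ^ od S (s i)) h else 0) = 0 := by
    rw [sum_comm]
    refine sum_eq_zero fun i _ => ?_
    rw [← mul_sum, vqa_U S hS _ (od_mem S (s i)), mul_zero]
  unfold VQ
  rw [sum_congr rfl fun h _ => h1 h, sum_add_distrib, sum_add_distrib, h3, vqa_card, sum_ite_eq',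
    if_pos (mem_univ _)]
  field_simp
  ring

private theorem vqa_zero {V : Type} [AddCommGroup V] [Module ℂ V] [FiniteDimensional ℂ V]
    (ρ : Representation ℂ G V) (K : Subgroup G)
    (h0 : avg K (fun g => LinearMap.trace ℂ V (ρ g)) = 0) (g : G) :
    avg K (fun h => LinearMap.trace ℂ V (ρ (g * h))) = 0 := by
  classical
  have hK := vqa_ne K
  set A : V →ₗ[ℂ] V := (1 / (Nat.card K : ℂ)) • ∑ h : G, (if h ∈ K then ρ h else 0) with hA
  have hAv : ∀ v, A v = (1 / (Nat.card K : ℂ)) • ∑ h : G, (if h ∈ K then ρ h v else 0) := by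
    intro v
    rw [hA, LinearMap.smul_apply, LinearMap.sum_apply]
    congr 1
    refine sum_congr rfl fun h _ => ?_
    split_ifs <;> rfl
  have hproj : LinearMap.IsProj (Pool.Agent.H52.VC.fixG ρ K) A := by
    constructor
    · intro v
      rw [Pool.Agent.H52.VC.mem_fixG]
      intro k hk
      rw [hAv, map_smul, map_sum]
      congr 1
      refine Fintype.sum_equiv (Equiv.mulLeft k) _ _ fun h => ?_
      show ρ k (if h ∈ K then ρ h v else 0) = if k * h ∈ K then ρ (k * h) v else 0
      have h1 : k * h ∈ K ↔ h ∈ K := K.mul_mem_cancel_left hk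
      by_cases hh : h ∈ K
      · rw [if_pos hh, if_pos (h1.2 hh), map_mul]
        rfl
      · rw [if_neg hh, if_neg (fun h' => hh (h1.1 h')), map_zero]
    · intro v hv
      rw [Pool.Agent.H52.VC.mem_fixG] at hv
      rw [hAv]
      have h2 : ∀ h : G, (if h ∈ K then ρ h v else 0) = (if h ∈ K then (1 : ℂ) else 0) • v := by
        intro h
        by_cases hh : h ∈ K
        · rw [if_pos hh, if_pos hh, hv h hh, one_smul]
        · rw [if_neg hh, if_neg hh, zero_smul]
      rw [sum_congr rfl fun h _ => h2 h, ← sum_smul, vqa_card, smul_smul, one_div,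
        inv_mul_cancel₀ hK, one_smul]
  have h1 := hproj.trace
  have h2 : LinearMap.trace ℂ V A = avg K (fun g => LinearMap.trace ℂ V (ρ g)) := by
    rw [hA, avg, map_smul, map_sum, smul_eq_mul]
    congr 1
    refine sum_congr rfl fun h _ => ?_
    split_ifs with hh
    · rfl
    · rw [map_zero]
  rw [h2, h0] at h1
  have h3 : finrank ℂ (Pool.Agent.H52.VC.fixG ρ K) = 0 := by exact_mod_cast h1.symm
  have h4 : Pool.Agent.H52.VC.fixG ρ K = ⊥ := Submodule.finrank_eq_zero.1 h3
  have h5 : A = 0 := by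
    apply LinearMap.ext
    intro v
    have h6 := hproj.map_mem v
    rw [h4, Submodule.mem_bot] at h6
    exact h6
  have h7 : LinearMap.trace ℂ V (ρ g * A) = avg K (fun h => LinearMap.trace ℂ V (ρ (g * h))) := by
    rw [hA, avg, mul_smul_comm, map_smul, mul_sum, map_sum, smul_eq_mul]
    congr 1
    refine sum_congr rfl fun h _ => ?_
    split_ifs with hh
    · rw [map_mul ρ g h]
    · rw [mul_zero, map_zero]
  rw [← h7, h5, mul_zero, map_zero]

theorem avg_mul (φ : G → ℂ) (hφ : IsIrr φ) (S : Subgroup G) (hS : S.Normal) (g : G) :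
    avg S (fun h => φ (g * h)) = if avg S φ = 0 then 0 else φ g := by
  classical
  have hS0 := vqa_ne S
  by_cases h0 : avg S φ = 0
  · rw [if_pos h0]
    obtain ⟨W, hW, h⟩ := hφ
    have h1 : φ = fun g => LinearMap.trace ℂ W (subR lam W hW.2.1 g) := funext h
    rw [h1] at h0 ⊢
    exact vqa_zero (subR lam W hW.2.1) S h0 g
  · rw [if_neg h0]
    rcases avg_normal φ hφ S hS with h1 | ⟨_, h1⟩
    · exact absurd h1 h0
    · have h2 : ∀ h : G, (if h ∈ S then φ (g * h) else 0) = φ g * (if h ∈ S then (1 : ℂ) else 0) := by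
        intro h
        by_cases hh : h ∈ S
        · rw [if_pos hh, if_pos hh, h1 h hh g, mul_one]
        · rw [if_neg hh, if_neg hh, mul_zero]
      unfold avg
      rw [sum_congr rfl fun h _ => h2 h, ← mul_sum, vqa_card]
      field_simp

theorem VQ_exp {N : ℕ} (s : Fin N → G) (hs : Tup s) (S : Subgroup G) (hS : S.Normal) (g : G) :
    VQ S s g = ∑ φ ∈ XX G, (mul s φ : ℂ) * (if avg S φ = 0 then 0 else φ g) := by
  classical
  have hexp : ∀ g, chi s g = ∑ φ ∈ XX G, (mul s φ : ℂ) * φ g := by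
    intro g
    rw [irr_exp (chi s) (Pool.Agent.H52.VC.chi_conj s) g]
    refine Finset.sum_congr rfl fun φ hφ => ?_
    obtain ⟨m, h1, h2⟩ := mul_nat s hs φ ((mem_XX φ).1 hφ)
    rw [h1, h2, Complex.ofReal_natCast]
  have h1 : ∀ h : G, (if h ∈ S then chi s (g * h) else 0) =
      ∑ φ ∈ XX G, (mul s φ : ℂ) * (if h ∈ S then φ (g * h) else 0) := by
    intro h
    by_cases hh : h ∈ S
    · simp only [if_pos hh]
      exact hexp _
    · simp only [if_neg hh, mul_zero, sum_const_zero]
  unfold VQ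
  rw [sum_congr rfl fun h _ => h1 h, sum_comm, mul_sum]
  refine sum_congr rfl fun φ hφ => ?_
  rw [← avg_mul φ ((mem_XX φ).1 hφ) S hS g, avg, ← mul_sum]
  ring


end Pool.Agent.H82.FIN
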