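import Pool.Agent.H82.FIN.VQa
import Pool.Agent.H82.FIN.CTd
import Pool.Agent.H52.VC.Rep

set_option autoImplicit false

/-!
PROJECT FIN (MP_bf82d2_ag, Finiteness; note 6077), module VQb.
The two cases.
PROOF. `VQ S s 1 = ∑ m_φ φ(1)` over the `φ` trivial on `S`, a natural number (`mul_nat`, `irr_one`), `= 1 + (n/|S|)(ν_S/2 - 1)
≤ 1`.  If it is `0`: all these `m_φ = 0`, `VQ = 0`, and `(n/|S|)(2 - ν_S) = 2`.  If it is `1`: exactly one `φ` trivial on
`S` has `m_φ = 1`, `φ 1 = 1`, the other `m_φ = 0`: `VQ = φ`, a character of degree `1`, so multiplicative (the trace of an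
operator on a space of dimension `1`), and `ν_S = 2`. `VQ ≠ 1`: `∑ g, chi s g = 0` (`pr (chi s) 1 = 0`: by `pair_eq'` for the
trivial representation: `pv = ∑ (1 - 1) - 1 + 1 = 0`; or directly), so `∑ g, VQ S s g = ∑ chi = 0`.
-/

namespace Pool.Agent.H82.FIN

open Finset Module
open Pool.Agent.H93.Hup (Inv MinInv)
open Pool.Agent.H52.VC (lam subR)
open Pool.Agent.H82.CO (chi quadInv genus nu eps zeta)

variable {G : Type} [Group G] [Fintype G]

/-- the space of the trivial representation is fixed -/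
private theorem VQb_angp : Pool.Agent.H52.VC.angp (LinearMap.id : ℂ →ₗ[ℂ] ℂ) = 1 := by
  unfold Pool.Agent.H52.VC.angp
  have h1 : (LinearMap.id : ℂ →ₗ[ℂ] ℂ).charpoly = Polynomial.X - Polynomial.C 1 := by
    have h2 := LinearMap.charpoly_toMatrix (LinearMap.id : ℂ →ₗ[ℂ] ℂ) (Basis.singleton (Fin 1) ℂ)
    rw [← h2, LinearMap.toMatrix_id, Matrix.charpoly_one]
    simp
  rw [h1, Polynomial.roots_X_sub_C, Multiset.map_singleton, Multiset.sum_singleton]
  unfold Pool.Agent.H52.VC.tp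
  rw [Complex.arg_one, if_neg (lt_irrefl _)]
  simp

private theorem VQb_sum {N : ℕ} (s : Fin N → G) : ∑ g, chi s g = 0 := by
  have h := Pool.Agent.H52.VC.pair_eq' s (Representation.trivial ℂ G ℂ)
  have h1 : ∀ g : G, LinearMap.trace ℂ ℂ (Representation.trivial ℂ G ℂ g⁻¹) = 1 := by
    intro g
    have h2 : (Representation.trivial ℂ G ℂ g⁻¹) = LinearMap.id := rfl
    rw [h2, LinearMap.trace_id, finrank_self, Nat.cast_one]
  have h3 : Pool.Agent.H52.VC.pv s (Representation.trivial ℂ G ℂ) = 0 := by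
    unfold Pool.Agent.H52.VC.pv
    have h4 : ∀ i : Fin N, Pool.Agent.H52.VC.angp (Representation.trivial ℂ G ℂ (s i)) -
        finrank ℂ (Pool.Agent.H52.VC.fixS (Representation.trivial ℂ G ℂ (s i))) = 0 := by
      intro i
      have h5 : (Representation.trivial ℂ G ℂ (s i)) = LinearMap.id := rfl
      have h6 : Pool.Agent.H52.VC.fixS (LinearMap.id : ℂ →ₗ[ℂ] ℂ) = ⊤ := by
        ext v
        exact ⟨fun _ => trivial, fun _ => rfl⟩
      rw [h5, h6, VQb_angp, finrank_top, finrank_self, Nat.cast_one, sub_self]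
    have h7 : Pool.Agent.H52.VC.fixG (Representation.trivial ℂ G ℂ) ⊤ = ⊤ := by
      ext v
      exact ⟨fun _ => trivial, fun _ g _ => rfl⟩
    rw [sum_congr rfl fun i _ => h4 i, h7, finrank_top, finrank_self, sum_const_zero]
    simp
  rw [h3] at h
  simp only [h1, mul_one] at h
  have hn : (1 / (Nat.card G : ℂ)) ≠ 0 := by
    rw [one_div]
    exact inv_ne_zero (by exact_mod_cast Nat.card_pos.ne')
  rw [Complex.ofReal_zero] at h
  exact (mul_eq_zero.1 h).resolve_left hn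

private theorem VQb_sumVQ {N : ℕ} (s : Fin N → G) (S : Subgroup G) : ∑ g, VQ S s g = 0 := by
  classical
  unfold VQ
  rw [← mul_sum, sum_comm]
  have h1 : ∀ h : G, (∑ g : G, @ite ℂ (h ∈ S) (Classical.propDecidable _) (chi s (g * h)) 0) = 0 := by
    intro h
    by_cases hh : h ∈ S
    · rw [sum_congr rfl fun g _ => if_pos hh]
      rw [← VQb_sum s]
      exact Equiv.sum_comp (Equiv.mulRight h) fun g => chi s g
    · rw [sum_congr rfl fun g _ => if_neg hh, sum_const_zero]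
  rw [sum_congr rfl fun h _ => h1 h, sum_const_zero, mul_zero]

/-- a character of degree one is multiplicative -/
private theorem VQb_mul (φ : G → ℂ) (hφ : IsIrr φ) (h1 : φ 1 = 1) (g h : G) : φ (g * h) = φ g * φ h := by
  obtain ⟨W, hW, hφ⟩ := hφ
  have hf : finrank ℂ W = 1 := by
    have h2 := hφ 1
    rw [h1, map_one, LinearMap.trace_one] at h2
    exact_mod_cast h2.symm
  obtain ⟨v, hv, hv'⟩ := finrank_eq_one_iff'.1 hf
  have key : ∀ T : W →ₗ[ℂ] W, ∃ c : ℂ, T = c • LinearMap.id ∧ LinearMap.trace ℂ W T = c := by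
    intro T
    obtain ⟨c, hc⟩ := hv' (T v)
    have hT : T = c • LinearMap.id := by
      apply LinearMap.ext
      intro w
      obtain ⟨a, rfl⟩ := hv' w
      rw [map_smul, ← hc, LinearMap.smul_apply, LinearMap.id_apply, smul_comm]
    refine ⟨c, hT, ?_⟩
    rw [hT, map_smul, LinearMap.trace_id, hf, Nat.cast_one, smul_eq_mul, mul_one]
  obtain ⟨a, ha, ha'⟩ := key (subR lam W hW.2.1 g)
  obtain ⟨b, hb, hb'⟩ := key (subR lam W hW.2.1 h)
  rw [hφ, hφ, hφ, ha', hb', map_mul (subR lam W hW.2.1), ha, hb]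
  have h3 : ((a • LinearMap.id : W →ₗ[ℂ] W) * (b • LinearMap.id)) = (a * b) • LinearMap.id := by
    apply LinearMap.ext
    intro w
    show a • (b • w) = (a * b) • w
    rw [smul_smul]
  rw [h3, map_smul, LinearMap.trace_id, hf, Nat.cast_one, smul_eq_mul, mul_one]

theorem VQ_two {N : ℕ} (s : Fin N → G) (hs : Tup s) (S : Subgroup G) (hS : S.Normal) (hnu : nuM S s ≤ 2) :
    (nuM S s = 2 ∧ (∀ g h, VQ S s (g * h) = VQ S s g * VQ S s h) ∧ VQ S s 1 = 1 ∧ ∃ g, VQ S s g ≠ 1) ∨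
    (nuM S s < 2 ∧ (∀ g, VQ S s g = 0) ∧ (Nat.card G : ℝ) * (2 - nuM S s) = 2 * Nat.card S) := by
  classical
  have hn : (0 : ℝ) < Nat.card G := by exact_mod_cast Nat.card_pos
  have hc : (0 : ℝ) < Nat.card S := by exact_mod_cast Nat.card_pos
  have hone : (VQ S s 1) = ((1 + ((Nat.card G : ℝ) / Nat.card S) * (nuM S s / 2 - 1) : ℝ) : ℂ) := by
    rw [VQ_one s S hS]
    push_cast
    rfl
  choose m hm using fun φ : {φ : G → ℂ // IsIrr φ} => mul_nat s hs φ.1 φ.2
  choose d hd using fun φ : {φ : G → ℂ // IsIrr φ} => irr_one φ.1 φ.2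
  obtain ⟨t, ht⟩ : ∃ t : (G → ℂ) → ℕ, ∀ φ, t φ =
      if h : IsIrr φ then (if avg S φ = 0 then 0 else m ⟨φ, h⟩ * d ⟨φ, h⟩) else 0 := ⟨_, fun _ => rfl⟩
  have hsum : VQ S s 1 = ((∑ φ ∈ XX G, t φ : ℕ) : ℂ) := by
    rw [VQ_exp s hs S hS, Nat.cast_sum]
    refine sum_congr rfl fun φ hφ => ?_
    have hI := (mem_XX φ).1 hφ
    rw [ht, dif_pos hI]
    by_cases h0 : avg S φ = 0
    · rw [if_pos h0, if_pos h0, mul_zero, Nat.cast_zero]
    · have e1 : mul s φ = m ⟨φ, hI⟩ := (hm ⟨φ, hI⟩).2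
      have e2 : φ 1 = d ⟨φ, hI⟩ := (hd ⟨φ, hI⟩).2
      rw [if_neg h0, if_neg h0, e1, e2]
      push_cast
      rfl
  have hreal : ((∑ φ ∈ XX G, t φ : ℕ) : ℝ) = 1 + ((Nat.card G : ℝ) / Nat.card S) * (nuM S s / 2 - 1) := by
    have h1 := hsum.symm.trans hone
    exact_mod_cast h1
  have hle : ((∑ φ ∈ XX G, t φ : ℕ) : ℝ) ≤ 1 := by
    rw [hreal]
    have h1 : (0 : ℝ) < (Nat.card G : ℝ) / Nat.card S := div_pos hn hc
    nlinarith
  have hle' : ∑ φ ∈ XX G, t φ ≤ 1 := by exact_mod_cast hle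
  have hzero : ∀ φ ∈ XX G, t φ = 0 → ∀ g, (mul s φ : ℂ) * (if avg S φ = 0 then 0 else φ g) = 0 := by
    intro φ hφ h0 g
    have hI := (mem_XX φ).1 hφ
    rw [ht, dif_pos hI] at h0
    by_cases h1 : avg S φ = 0
    · rw [if_pos h1, mul_zero]
    · rw [if_neg h1] at h0
      have h2 : m ⟨φ, hI⟩ = 0 := by
        rcases Nat.mul_eq_zero.1 h0 with h2 | h2
        · exact h2
        · have h3 := (hd ⟨φ, hI⟩).1
          omega
      have e1 : mul s φ = m ⟨φ, hI⟩ := (hm ⟨φ, hI⟩).2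
      rw [e1, h2]
      simp
  rcases Nat.eq_zero_or_pos (∑ φ ∈ XX G, t φ) with h0 | h0
  · right
    rw [h0, Nat.cast_zero] at hreal
    have h1 : (Nat.card G : ℝ) * (2 - nuM S s) = 2 * Nat.card S := by
      field_simp at hreal
      linarith
    refine ⟨?_, fun g => ?_, h1⟩
    · by_contra h2
      have h3 : nuM S s = 2 := le_antisymm hnu (not_lt.1 h2)
      rw [h3] at h1
      linarith
    · rw [VQ_exp s hs S hS]
      refine sum_eq_zero fun φ hφ => ?_
      exact hzero φ hφ ((sum_eq_zero_iff.1 h0) φ hφ) g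
  · left
    have h1 : ∑ φ ∈ XX G, t φ = 1 := le_antisymm hle' h0
    have hnu2 : nuM S s = 2 := by
      rw [h1, Nat.cast_one] at hreal
      have h2 : ((Nat.card G : ℝ) / Nat.card S) * (nuM S s / 2 - 1) = 0 := by linarith
      have h3 : ((Nat.card G : ℝ) / Nat.card S) ≠ 0 := (div_pos hn hc).ne'
      have h4 := (mul_eq_zero.1 h2).resolve_left h3
      linarith
    obtain ⟨φ₀, hφ₀, hne⟩ : ∃ φ ∈ XX G, t φ ≠ 0 := by
      by_contra h2
      push Not at h2
      rw [sum_eq_zero h2] at h1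
      exact zero_ne_one h1
    have hsplit := add_sum_erase (XX G) t hφ₀
    have ht1 : t φ₀ = 1 := by omega
    have hrest : ∑ φ ∈ (XX G).erase φ₀, t φ = 0 := by omega
    have hI := (mem_XX φ₀).1 hφ₀
    have hval : avg S φ₀ ≠ 0 ∧ m ⟨φ₀, hI⟩ = 1 ∧ d ⟨φ₀, hI⟩ = 1 := by
      rw [ht, dif_pos hI] at ht1
      by_cases h2 : avg S φ₀ = 0
      · rw [if_pos h2] at ht1
        exact (zero_ne_one ht1).elim
      · rw [if_neg h2] at ht1
        exact ⟨h2, Nat.eq_one_of_mul_eq_one_right ht1, Nat.eq_one_of_mul_eq_one_left ht1⟩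
    obtain ⟨hv1, hv2, hv3⟩ := hval
    have hVQ : ∀ g, VQ S s g = φ₀ g := by
      intro g
      have e1 : mul s φ₀ = m ⟨φ₀, hI⟩ := (hm ⟨φ₀, hI⟩).2
      rw [VQ_exp s hs S hS, ← add_sum_erase _ _ hφ₀, if_neg hv1, e1, hv2]
      rw [sum_eq_zero fun φ hφ => hzero φ (mem_of_mem_erase hφ) ((sum_eq_zero_iff.1 hrest) φ hφ) g]
      push_cast
      rw [one_mul, add_zero]
    have h1' : φ₀ 1 = 1 := by
      have e1 : φ₀ 1 = d ⟨φ₀, hI⟩ := (hd ⟨φ₀, hI⟩).2
      rw [e1, hv3, Nat.cast_one]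
    refine ⟨hnu2, fun g h => ?_, ?_, ?_⟩
    · rw [hVQ, hVQ, hVQ]
      exact VQb_mul φ₀ hI h1' g h
    · rw [hVQ, h1']
    · by_contra h2
      push Not at h2
      have h3 := VQb_sumVQ s S
      rw [sum_congr rfl fun g _ => h2 g, sum_const, card_univ, nsmul_eq_mul, mul_one] at h3
      have h4 : Fintype.card G = 0 := by exact_mod_cast h3
      exact Fintype.card_ne_zero h4

theorem VQ_S {N : ℕ} (s : Fin N → G) (S : Subgroup G) (g h : G) (hh : h ∈ S) : VQ S s (g * h) = VQ S s g := by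
  classical
  unfold VQ
  congr 1
  rw [← Equiv.sum_comp (Equiv.mulLeft h)
    (fun h' => @ite ℂ (h' ∈ S) (Classical.propDecidable _) (chi s (g * h')) 0)]
  refine sum_congr rfl fun h' _ => ?_
  rw [Equiv.coe_mulLeft]
  by_cases h1 : h' ∈ S
  · rw [if_pos h1, if_pos (S.mul_mem hh h1), mul_assoc]
  · rw [if_neg h1, if_neg fun h2 => h1 ((S.mul_mem_cancel_left hh).1 h2)]


end Pool.Agent.H82.FIN
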