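import Pool.Agent.H82.FIN.Od
import Pool.Agent.H82.CO.Main

set_option autoImplicit false

/-!
PROJECT FIN (MP_bf82d2_ag, Finiteness; note 6077), module LamId.
The genus in case E.
PROOF. `genus_eq` (H82.CO.Main): `genus s - 1 = n (nu s - 2)/2`; `nu s - 2 = nu s - nuM S s = ∑ (1/k_i - 1/m_i) = ∑ (1/k_i)(1 - 1/o_i)`
(`od_mul`), `n = [G : P] |P|`.
-/

namespace Pool.Agent.H82.FIN

open Finset Module
open Pool.Agent.H93.Hup (Inv MinInv)
open Pool.Agent.H52.VC (lam subR)
open Pool.Agent.H82.CO (chi quadInv genus nu eps zeta)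

variable {G : Type} [Group G] [Fintype G]

theorem lam_id {b σ : ℕ} {N : ℕ} {s : Fin N → G} {A S : Subgroup G} {x : G} {P : Subgroup G} (h : CE b σ s A S x P) :
    genus s - 1 = ((Nat.card P : ℝ) / Nat.card S) / 2 *
      ∑ i, ((P.index : ℝ) / od S (s i)) * Nat.card S * (1 - 1 / (orderOf (s i ^ od S (s i)) : ℝ)) := by
  have h1 := Pool.Agent.H82.CO.genus_eq s
  have h2 : nu s - 2 = ∑ i, (1 / (od S (s i) : ℝ)) * (1 - 1 / (orderOf (s i ^ od S (s i)) : ℝ)) := by
    rw [← h.hnu, nu, nuM, ← sum_sub_distrib]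
    refine sum_congr rfl fun i _ => ?_
    rw [h.hod i]
    have h3 : (orderOf (s i) : ℝ) = od S (s i) * orderOf (s i ^ od S (s i)) := by
      exact_mod_cast (od_mul S (s i)).symm
    have h4 : (od S (s i) : ℝ) ≠ 0 := by
      exact_mod_cast (od_pos S (s i)).ne'
    have h5 : (orderOf (s i ^ od S (s i)) : ℝ) ≠ 0 := by
      exact_mod_cast (orderOf_pos _).ne'
    rw [h3]
    field_simp
    ring
  have h6 : (Nat.card G : ℝ) = Nat.card P * P.index := by
    exact_mod_cast (P.card_mul_index).symm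
  have h7 : (Nat.card S : ℝ) ≠ 0 := by
    exact_mod_cast Nat.card_pos.ne'
  rw [h1, h2, h6, mul_sum, mul_sum, add_sub_cancel_left, sum_div]
  refine sum_congr rfl fun i _ => ?_
  field_simp


end Pool.Agent.H82.FIN
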