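import Pool.Agent.H82.FIN.Od

set_option autoImplicit false

/-!
PROJECT FIN (MP_bf82d2_ag, Finiteness; note 6077), module Cyc.
Cyclic quotients.
PROOF. `G/S` is cyclic, generated by `g S` (`od S g = [G : S]`), so `x a x⁻¹ a⁻¹ = a⁻² ∈ S` for `a ∈ A`: the image of `A` in the
cyclic group `G/S` has elements of square `1` only: at most two.  So `|A| ≤ 2 |S|`, `n = [G : A] |A|`.
-/

namespace Pool.Agent.H82.FIN

open Finset Module
open Pool.Agent.H93.Hup (Inv MinInv)
open Pool.Agent.H52.VC (lam subR)
open Pool.Agent.H82.CO (chi quadInv genus nu eps zeta)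

variable {G : Type} [Group G] [Fintype G]

theorem cyc (A S : Subgroup G) (x : G) (hS : S.Normal) (hA : A.Normal) (hx : ∀ a ∈ A, x * a * x⁻¹ = a⁻¹)
    (g : G) (hg : od S g = S.index) : Nat.card G ≤ 2 * A.index * Nat.card S := by
  classical
  have h1 : orderOf (QuotientGroup.mk g : G ⧸ S) = Nat.card (G ⧸ S) := by
    rw [od_mk, hg]
    rfl
  have hcyc : IsCyclic (G ⧸ S) := isCyclic_of_orderOf_eq_card _ h1
  have hcomm : ∀ a b : G ⧸ S, a * b = b * a := by
    intro a b
    letI := hcyc.commGroup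
    obtain ⟨c, hc⟩ := hcyc.exists_generator
    obtain ⟨m, rfl⟩ := hc a
    obtain ⟨l, rfl⟩ := hc b
    exact (Commute.zpow_zpow (Commute.refl c) m l)
  set φ : A →* G ⧸ S := (QuotientGroup.mk' S).comp A.subtype with hφ
  have hsq : ∀ a : A, φ a ^ 2 = 1 := by
    intro a
    have h2 := congrArg (QuotientGroup.mk' S) (hx a a.2)
    rw [map_mul, map_mul, map_inv, map_inv, hcomm (QuotientGroup.mk' S x), mul_assoc,
      mul_inv_cancel, mul_one] at h2
    have h3 : φ a = (QuotientGroup.mk' S) (a : G) := rfl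
    rw [h3, sq]
    nth_rewrite 1 [h2]
    exact inv_mul_cancel _
  have hr : Nat.card φ.range ≤ 2 := by
    have h4 := IsCyclic.card_pow_eq_one_le (α := G ⧸ S) (n := 2) two_pos
    refine le_trans ?_ h4
    rw [← Fintype.card_coe, ← Nat.card_eq_fintype_card]
    refine Nat.card_le_card_of_injective (fun a : φ.range => ⟨(a : G ⧸ S), ?_⟩) ?_
    · obtain ⟨b, hb⟩ := a.2
      rw [mem_filter]
      exact ⟨mem_univ _, hb ▸ hsq b⟩
    · intro a b hab
      have h5 := Subtype.mk.inj hab
      exact Subtype.ext h5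
  have hk : Nat.card φ.ker ≤ Nat.card S := by
    refine Nat.card_le_card_of_injective
      (fun a => (⟨((a : A) : G), ?_⟩ : S)) ?_
    · have := a.2
      rw [MonoidHom.mem_ker] at this
      exact (QuotientGroup.eq_one_iff _).1 this
    · intro a b hab
      have := congrArg Subtype.val hab
      exact Subtype.ext (Subtype.ext this)
  have hA' : Nat.card A ≤ 2 * Nat.card S := by
    rw [← φ.ker.card_mul_index, Subgroup.index_ker]
    calc Nat.card φ.ker * Nat.card φ.range ≤ Nat.card S * 2 := Nat.mul_le_mul hk hr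
      _ = 2 * Nat.card S := by ring
  rw [← A.card_mul_index]
  calc Nat.card A * A.index ≤ 2 * Nat.card S * A.index := Nat.mul_le_mul_right _ hA'
    _ = 2 * A.index * Nat.card S := by ring


end Pool.Agent.H82.FIN
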