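import Mathlib
import Pool.Agent.H82.CO.Defs
import Pool.Agent.H52.VC.Defs

set_option autoImplicit false

/-!
PROJECT FIN (MP_bf82d2_ag, Finiteness).  Definitions.
-/

namespace Pool.Agent.H82.FIN

open Finset Module
open Pool.Agent.H93.Hup (Inv MinInv)
open Pool.Agent.H52.VC (lam subR)
open Pool.Agent.H82.CO (chi quadInv genus nu eps zeta)

section

variable {G : Type} [Group G]

/-- `φ` is an irreducible character of `G`. -/
def IsIrr (φ : G → ℂ) : Prop :=
  ∃ (W : Submodule ℂ (G → ℂ)) (hW : MinInv (lam (G := G)) W), ∀ g, φ g = LinearMap.trace ℂ W (subR lam W hW.2.1 g)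

/-- the conjugate character -/
noncomputable def cj (φ : G → ℂ) (g : G) : ℂ := (starRingEnd ℂ) (φ g)

/-- the least positive `k` with `g ^ k ∈ P`, i.e. the order of `g P` in `G / P` (`P` normal) -/
noncomputable def od (P : Subgroup G) (g : G) : ℕ := sInf {k : ℕ | 0 < k ∧ g ^ k ∈ P}

/-- `ν_P = ∑ i, (1 - 1 / od P (s i))` -/
noncomputable def nuM {N : ℕ} (P : Subgroup G) (s : Fin N → G) : ℝ := ∑ i, (1 - 1 / (od P (s i) : ℝ))

/-- `φ` is bad for `P`: it is not zero somewhere outside `P`. -/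
def Bad (P : Subgroup G) (φ : G → ℂ) : Prop := ∃ g, g ∉ P ∧ φ g ≠ 0

/-- a tuple of local monodromies -/
structure Tup {N : ℕ} (s : Fin N → G) : Prop where
  ne : ∀ i, s i ≠ 1
  prod : (List.ofFn s).prod = 1
  gen : Subgroup.closure (Set.range s) = ⊤

end

section

variable {G : Type} [Group G] [Fintype G]

/-- the pairing `(f, h) = (1/n) ∑ f(g) h(g⁻¹)` -/
noncomputable def pr (f h : G → ℂ) : ℂ := (1 / (Nat.card G : ℂ)) * ∑ g, f g * h g⁻¹

open Classical in
/-- the irreducible characters (finite by `irr_finite`) -/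
noncomputable def XX (G : Type) [Group G] [Fintype G] : Finset (G → ℂ) :=
  if h : {φ : G → ℂ | IsIrr φ}.Finite then h.toFinset else ∅

/-- `m_φ`, the multiplicity of `φ` in `chi s` -/
noncomputable def mul {N : ℕ} (s : Fin N → G) (φ : G → ℂ) : ℝ := (pr (chi s) φ).re

/-- `ν_φ = (1/n) ∑ φ(g²)` -/
noncomputable def fs (φ : G → ℂ) : ℝ := ((1 / (Nat.card G : ℂ)) * ∑ g, φ (g ^ 2)).re

open Classical in
/-- the function induced from `⟨c⟩` by `c ^ k ↦ eps (ord c) k` -/
noncomputable def U (c g : G) : ℂ :=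
  (1 / (orderOf c : ℂ)) * ∑ x : G, ∑ k ∈ range (orderOf c), if x * c ^ k * x⁻¹ = g then eps (orderOf c) k else 0

/-- the sum of the angles in `[0, 1)` of the eigenvalues of `c` in `φ` -/
noncomputable def ang (c : G) (φ : G → ℂ) : ℝ := (pr (U c) φ).re

open Classical in
/-- the average of `f` over `K` -/
noncomputable def avg (K : Subgroup G) (f : G → ℂ) : ℂ :=
  (1 / (Nat.card K : ℂ)) * ∑ h : G, if h ∈ K then f h else 0

open Classical in
/-- the character of the part of `chi s` fixed by `S` -/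
noncomputable def VQ {N : ℕ} (S : Subgroup G) (s : Fin N → G) (g : G) : ℂ :=
  (1 / (Nat.card S : ℂ)) * ∑ h : G, if h ∈ S then chi s (g * h) else 0

/-- the number of square roots of `1`, of elements with a given square, and with square in `S` -/
noncomputable def rn (z : G) : ℝ := (Nat.card {h : G // h ^ 2 = z} : ℝ)

noncomputable def rS (S : Subgroup G) : ℝ := (Nat.card {h : G // h ^ 2 ∈ S} : ℝ)

/-- the order of the centralizer -/
noncomputable def cz (g : G) : ℝ := (Nat.card {h : G // h * g = g * h} : ℝ)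

/-- The data of a counterexample after the reduction: `A` abelian, normal, of index `≤ b`, inverted by
`x`; `S` normal of order `≤ σ`, the normal closure of the `s i ^ od S (s i)`, not trivial, `ν_S ≤ 2`. -/
structure Red (b σ : ℕ) {N : ℕ} (s : Fin N → G) (A S : Subgroup G) (x : G) : Prop where
  tup : Tup s
  hN : N = 4 ∨ N = 5
  hd : (quadInv s).re ≤ N - 3
  hA : A.Normal
  hAc : ∀ a ∈ A, ∀ c ∈ A, a * c = c * a
  hAi : A.index ≤ b
  hx : ∀ a ∈ A, x * a * x⁻¹ = a⁻¹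
  hS : S.Normal
  hSc : Nat.card S ≤ σ
  hS1 : S ≠ ⊥
  hcl : S = Subgroup.normalClosure (Set.range fun i => s i ^ od S (s i))
  hnu : nuM S s ≤ 2

/-- Case E: `P` is the kernel of the linear character `VQ S s`. -/
structure CE (b σ : ℕ) {N : ℕ} (s : Fin N → G) (A S : Subgroup G) (x : G) (P : Subgroup G) : Prop where
  red : Red b σ s A S x
  hP : P.Normal
  hSP : S ≤ P
  hV : ∀ g, VQ S s g = 1 ↔ g ∈ P
  hVm : ∀ g h, VQ S s (g * h) = VQ S s g * VQ S s h
  hPt : P ≠ ⊤
  hod : ∀ i, od P (s i) = od S (s i)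
  h12 : ∀ i, od S (s i) ∣ 12
  hnu : nuM P s = 2
  hcz : ∀ g, g ∉ P → cz g ≤ 48 * (σ : ℝ) ^ 2

/-- Case D: `G / S` is dihedral; `s i₁`, `s i₂` are involutions modulo `S`, `y = s iy` generates
the cyclic group `P / S` of index `2`, the other `s j` are in `S`. -/
structure CD (b σ : ℕ) {N : ℕ} (s : Fin N → G) (A S : Subgroup G) (x : G) (P : Subgroup G) (i₁ i₂ iy : Fin N) : Prop where
  red : Red b σ s A S x
  hP : P.Normal
  hSP : S ≤ P
  h12 : i₁ ≠ i₂
  h1y : i₁ ≠ iy
  h2y : i₂ ≠ iy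
  h1 : s i₁ ∉ P
  h2 : s i₂ ∉ P
  o1 : od S (s i₁) = 2
  o2 : od S (s i₂) = 2
  oy : 2 * Nat.card S * od S (s iy) = Nat.card G
  hj : ∀ j, j ≠ i₁ → j ≠ i₂ → j ≠ iy → s j ∈ S
  hPi : P.index = 2
  hPy : ∀ p ∈ P, ∃ k : ℕ, p * (s iy ^ k)⁻¹ ∈ S
  hy : s iy ∈ P
  hV : ∀ g, VQ S s g = 0
  hcz : ∀ g, g ∉ P → cz g ≤ 4 * (σ : ℝ) ^ 2

end

end Pool.Agent.H82.FIN
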