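import Pool.Agent.H82.FIN.CTd
import Pool.Agent.H82.FIN.CTe

set_option autoImplicit false

/-!
PROJECT FIN (MP_bf82d2_ag, Finiteness; note 6077), module ExcA.
If an irreducible character is not `0` at `g`, the commutators `[a, g]`, `a ∈ A` (`A` abelian, normal), have a
fixed vector.
PROOF. `C = {a g a⁻¹ g⁻¹}` is a subgroup of `A` (the image of the homomorphism `a ↦ a (g a⁻¹ g⁻¹)` of the abelian group
`A`).  `|A| φ g = ∑ a ∈ A, φ (a g a⁻¹) = ∑ a, φ ([a, g] g) = |C_A(g)| ∑ c ∈ C, φ (c g) = |C_A(g)| trace ((∑ c ∈ C, ρ c) ρ g)`,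
and `∑ c ∈ C, ρ c = 0` if `avg C φ = 0` (the projection onto the fixed space has trace `0`).  So `avg C φ ≠ 0`, it is a
natural number `≥ 1` (`avg_nat`). The card: fibres of `a ↦ [a, g]` are cosets of `C_A(g)`, `|C_A(g)| ≤ cz g`.  `comA A g`
depends only on the coset `g A`: `[a, g a'] = [a, g]`.
-/

namespace Pool.Agent.H82.FIN

open Finset Module
open Pool.Agent.H93.Hup (Inv MinInv)
open Pool.Agent.H52.VC (lam subR)
open Pool.Agent.H82.CO (chi quadInv genus nu eps zeta)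

variable {G : Type} [Group G] [Fintype G]

/-- the subgroup `[A, g]` -/
def comA (A : Subgroup G) (hA : A.Normal) (hAc : ∀ a ∈ A, ∀ c ∈ A, a * c = c * a) (g : G) : Subgroup G where
  carrier := {y | ∃ a ∈ A, y = a * g * a⁻¹ * g⁻¹}
  mul_mem' := by
    rintro y z ⟨a, ha, rfl⟩ ⟨c, hc, rfl⟩
    refine ⟨a * c, A.mul_mem ha hc, ?_⟩
    have h1 : g * a⁻¹ * g⁻¹ ∈ A := hA.conj_mem _ (A.inv_mem ha) g
    have h2 := hAc _ h1 c hc
    calc a * g * a⁻¹ * g⁻¹ * (c * g * c⁻¹ * g⁻¹) = a * ((g * a⁻¹ * g⁻¹) * c) * (g * c⁻¹ * g⁻¹) := by group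
      _ = a * (c * (g * a⁻¹ * g⁻¹)) * (g * c⁻¹ * g⁻¹) := by rw [h2]
      _ = a * c * g * (a⁻¹ * c⁻¹) * g⁻¹ := by group
      _ = a * c * g * (c⁻¹ * a⁻¹) * g⁻¹ := by
        rw [hAc _ (A.inv_mem ha) _ (A.inv_mem hc)]
      _ = a * c * g * (a * c)⁻¹ * g⁻¹ := by group
  one_mem' := ⟨1, A.one_mem, by group⟩
  inv_mem' := by
    rintro y ⟨a, ha, rfl⟩
    refine ⟨a⁻¹, A.inv_mem ha, ?_⟩
    have h1 : g * a * g⁻¹ ∈ A := hA.conj_mem _ ha g
    have h2 := hAc _ h1 _ (A.inv_mem ha)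
    calc (a * g * a⁻¹ * g⁻¹)⁻¹ = (g * a * g⁻¹) * a⁻¹ := by group
      _ = a⁻¹ * (g * a * g⁻¹) := h2
      _ = a⁻¹ * g * a⁻¹⁻¹ * g⁻¹ := by group

omit [Fintype G] in
private theorem mem_comA (A : Subgroup G) (hA : A.Normal) (hAc : ∀ a ∈ A, ∀ c ∈ A, a * c = c * a) (g y : G) :
    y ∈ comA A hA hAc g ↔ ∃ a ∈ A, y = a * g * a⁻¹ * g⁻¹ := Iff.rfl

theorem comA_card (A : Subgroup G) (hA : A.Normal) (hAc : ∀ a ∈ A, ∀ c ∈ A, a * c = c * a) (g : G) :
    (Nat.card A : ℝ) ≤ cz g * Nat.card (comA A hA hAc g) := by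
  classical
  have hsec : ∀ y : comA A hA hAc g, ∃ a ∈ A, (y : G) = a * g * a⁻¹ * g⁻¹ := fun y => y.2
  choose sec hsec1 hsec2 using hsec
  let cm : A → comA A hA hAc g := fun a => ⟨(a : G) * g * (a : G)⁻¹ * g⁻¹, a, a.2, rfl⟩
  have hcen : ∀ a : A, ((sec (cm a))⁻¹ * a) * g = g * ((sec (cm a))⁻¹ * a) := by
    intro a
    have h1 : (a : G) * g * (a : G)⁻¹ * g⁻¹ = sec (cm a) * g * (sec (cm a))⁻¹ * g⁻¹ := hsec2 (cm a)
    have h2 : (a : G) * g * (a : G)⁻¹ = sec (cm a) * g * (sec (cm a))⁻¹ := mul_right_cancel h1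
    have h3 : (a : G) * g = sec (cm a) * g * (sec (cm a))⁻¹ * a := by
      rw [← h2]
      group
    rw [mul_assoc, h3]
    group
  let f : A → {h : G // h * g = g * h} × comA A hA hAc g := fun a => (⟨(sec (cm a))⁻¹ * a, hcen a⟩, cm a)
  have hf : Function.Injective f := by
    intro a c hac
    have h1 : cm a = cm c := congrArg Prod.snd hac
    have h2 : (sec (cm a))⁻¹ * (a : G) = (sec (cm c))⁻¹ * (c : G) :=
      congrArg Subtype.val (congrArg Prod.fst hac)
    rw [h1] at h2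
    exact Subtype.ext (mul_left_cancel h2)
  have h4 := Nat.card_le_card_of_injective f hf
  rw [Nat.card_prod] at h4
  unfold cz
  exact_mod_cast h4

theorem comA_coset (A : Subgroup G) (hA : A.Normal) (hAc : ∀ a ∈ A, ∀ c ∈ A, a * c = c * a) (g a : G) (ha : a ∈ A) :
    comA A hA hAc (g * a) = comA A hA hAc g := by
  have key : ∀ c ∈ A, c * (g * a) * c⁻¹ * (g * a)⁻¹ = c * g * c⁻¹ * g⁻¹ := by
    intro c hc
    have h1 := hAc a ha c⁻¹ (A.inv_mem hc)
    calc c * (g * a) * c⁻¹ * (g * a)⁻¹ = c * g * (a * c⁻¹) * a⁻¹ * g⁻¹ := by group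
      _ = c * g * (c⁻¹ * a) * a⁻¹ * g⁻¹ := by rw [h1]
      _ = c * g * c⁻¹ * g⁻¹ := by group
  ext y
  rw [mem_comA, mem_comA]
  constructor
  · rintro ⟨c, hc, rfl⟩
    exact ⟨c, hc, key c hc⟩
  · rintro ⟨c, hc, rfl⟩
    exact ⟨c, hc, (key c hc).symm⟩

/-- a sum of the operators of a subgroup with trace `0` is `0` -/
private theorem sum_zero {V : Type} [AddCommGroup V] [Module ℂ V] [FiniteDimensional ℂ V] (ρ : Representation ℂ G V)
    (K : Subgroup G) [DecidablePred (· ∈ K)] (h0 : LinearMap.trace ℂ V (∑ h : G, if h ∈ K then ρ h else 0) = 0) :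
    (∑ h : G, if h ∈ K then ρ h else 0) = 0 := by
  set E : V →ₗ[ℂ] V := ∑ h : G, if h ∈ K then ρ h else 0 with hE
  have hk : ∀ k ∈ K, ρ k * E = E := by
    intro k hk
    rw [hE, Finset.mul_sum]
    have h1 : ∀ h : G, ρ k * (if h ∈ K then ρ h else 0) = if k * h ∈ K then ρ (k * h) else 0 := by
      intro h
      by_cases hh : h ∈ K
      · rw [if_pos hh, if_pos (K.mul_mem hk hh), map_mul]
      · rw [if_neg hh, if_neg (fun h2 => hh ((K.mul_mem_cancel_left hk).1 h2)), mul_zero]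
    rw [Finset.sum_congr rfl fun h _ => h1 h]
    exact Fintype.sum_equiv (Equiv.mulLeft k) _ _ fun h => rfl
  have hEE : E * E = (Nat.card K : ℂ) • E := by
    conv_lhs => rw [hE, Finset.sum_mul]
    have h1 : ∀ h : G, (if h ∈ K then ρ h else 0) * E = if h ∈ K then E else 0 := by
      intro h
      by_cases hh : h ∈ K
      · rw [if_pos hh, if_pos hh, hk h hh]
      · rw [if_neg hh, if_neg hh, zero_mul]
    rw [Finset.sum_congr rfl fun h _ => h1 h, ← Finset.sum_filter, Finset.sum_const, ← Nat.cast_smul_eq_nsmul ℂ]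
    congr 2
    rw [Nat.card_eq_fintype_card, Fintype.card_subtype]
  have hc : (Nat.card K : ℂ) ≠ 0 := by
    exact_mod_cast Nat.card_pos.ne'
  have hid : IsIdempotentElem (((Nat.card K : ℂ)⁻¹) • E) := by
    show ((Nat.card K : ℂ)⁻¹ • E) * ((Nat.card K : ℂ)⁻¹ • E) = (Nat.card K : ℂ)⁻¹ • E
    rw [smul_mul_smul_comm, hEE, smul_smul]
    congr 1
    field_simp
  have h2 : ((Nat.card K : ℂ)⁻¹) • E = 0 := by
    apply LinearMap.IsIdempotentElem.eq_zero_of_trace_eq_zero hid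
    rw [map_smul, h0, smul_zero]
  exact (smul_eq_zero.1 h2).resolve_left (inv_ne_zero hc)

theorem exc_avg (A : Subgroup G) (hA : A.Normal) (hAc : ∀ a ∈ A, ∀ c ∈ A, a * c = c * a) (φ : G → ℂ) (hφ : IsIrr φ)
    (g : G) (hg : φ g ≠ 0) : 1 ≤ (avg (comA A hA hAc g) φ).re := by
  classical
  obtain ⟨m, hm, -⟩ := avg_nat φ hφ (comA A hA hAc g)
  rw [hm, Complex.natCast_re]
  rcases Nat.eq_zero_or_pos m with h0 | h0
  · exfalso
    apply hg
    rw [h0, Nat.cast_zero] at hm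
    obtain ⟨W, hW, hφW⟩ := hφ
    set K := comA A hA hAc g with hK
    have hc : (Nat.card K : ℂ) ≠ 0 := by
      exact_mod_cast Nat.card_pos.ne'
    have h1 : LinearMap.trace ℂ W (∑ h : G, if h ∈ K then subR lam W hW.2.1 h else 0) = 0 := by
      rw [map_sum]
      unfold avg at hm
      rcases mul_eq_zero.1 hm with h2 | h2
      · exact absurd h2 (one_div_ne_zero hc)
      · rw [← h2]
        apply Finset.sum_congr rfl
        intro h _
        by_cases hh : h ∈ K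
        · rw [if_pos hh, if_pos hh, hφW]
        · rw [if_neg hh, if_neg hh, map_zero]
    have h2 := sum_zero (subR lam W hW.2.1) K h1
    have h3 : ∀ c ∈ K, φ (c * g) = φ g := by
      rintro c ⟨a, ha, rfl⟩
      have h4 : subR lam W hW.2.1 (a * g * a⁻¹) = subR lam W hW.2.1 a * subR lam W hW.2.1 g * subR lam W hW.2.1 a⁻¹ := by
        rw [map_mul (subR lam W hW.2.1), map_mul (subR lam W hW.2.1)]
      have h5 : subR lam W hW.2.1 a⁻¹ * subR lam W hW.2.1 a = 1 := by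
        rw [← map_mul (subR lam W hW.2.1), inv_mul_cancel, map_one]
      rw [hφW, hφW, show a * g * a⁻¹ * g⁻¹ * g = a * g * a⁻¹ by group, h4, LinearMap.trace_mul_comm,
        ← mul_assoc, h5, one_mul]
    have h4 : ∑ h : G, (if h ∈ K then φ (h * g) else 0) = 0 := by
      have h5 : (∑ h : G, if h ∈ K then subR lam W hW.2.1 h else 0) * subR lam W hW.2.1 g = 0 := by
        rw [h2, zero_mul]
      have h6 := congrArg (LinearMap.trace ℂ W) h5
      rw [Finset.sum_mul, map_sum, map_zero] at h6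
      refine Eq.trans ?_ h6
      apply Finset.sum_congr rfl
      intro h _
      by_cases hh : h ∈ K
      · rw [if_pos hh, if_pos hh, hφW, map_mul (subR lam W hW.2.1)]
      · rw [if_neg hh, if_neg hh, zero_mul, map_zero]
    have h7 : ∑ h : G, (if h ∈ K then φ (h * g) else 0) = (Nat.card K : ℂ) * φ g := by
      have h8 : ∀ h : G, (if h ∈ K then φ (h * g) else 0) = if h ∈ K then φ g else 0 := by
        intro h
        by_cases hh : h ∈ K
        · rw [if_pos hh, if_pos hh, h3 h hh]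
        · rw [if_neg hh, if_neg hh]
      rw [Finset.sum_congr rfl fun h _ => h8 h, ← Finset.sum_filter, Finset.sum_const, nsmul_eq_mul]
      congr 2
      rw [Nat.card_eq_fintype_card, Fintype.card_subtype]
    rw [h7] at h4
    exact (mul_eq_zero.1 h4).resolve_left hc
  · exact_mod_cast h0


end Pool.Agent.H82.FIN
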