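import Pool.Agent.H82.FIN.Od
import Pool.Agent.H82.CO.Fix
import Pool.Agent.H82.SQ.Main

set_option autoImplicit false

/-!
PROJECT FIN (MP_bf82d2_ag, Finiteness; note 6077), module Fix.
Fixed points.
PROOF. `chi_re` (H82.CO.Fix), `indF`, `fP_eq` (H82.SQ.Main): for `g ≠ 1`, `2 - 2 Re chi s g = ∑ i, (1/m_i) #{x : x⁻¹ g x ∈
⟨s i⟩}`.  For `g ∉ S` all `g h`, `h ∈ S`, are `≠ 1`: average.  `VQ_cz`: if `2 - 2 Re VQ > 0` there are `i`, `x₀`, `h₀ ∈ S`
with `x₀⁻¹ g h₀ x₀ ∈ ⟨s i⟩`; for `y` commuting with `g`, `(y x₀, y h₀ y⁻¹)` is again such a pair (`S` normal), different for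
different `y`: the number of pairs `(x, h)` for this `i` is `≥ cz g`, so `2 - 2 Re VQ ≥ (1/|S|) (1/m_i) cz g`.
-/

namespace Pool.Agent.H82.FIN

open Finset Module
open Pool.Agent.H93.Hup (Inv MinInv)
open Pool.Agent.H52.VC (lam subR)
open Pool.Agent.H82.CO (chi quadInv genus nu eps zeta)

variable {G : Type} [Group G] [Fintype G]

omit [Fintype G] in
private theorem mem_conj_fix (S : Subgroup G) (hS : S.Normal) (y k : G) (hk : k ∈ S) : y * k * y⁻¹ ∈ S :=
  hS.conj_mem k hk y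

open Classical in
private theorem card_S_fix (S : Subgroup G) : ∑ h : G, (if h ∈ S then (1 : ℝ) else 0) = Nat.card S := by
  rw [sum_boole]
  have h1 : Nat.card S = (univ.filter fun h : G => h ∈ S).card := by
    rw [← Fintype.card_subtype, ← Nat.card_eq_fintype_card]
  rw [h1]

open Classical in
private theorem chi_fix {N : ℕ} (s : Fin N → G) (g : G) (hg : g ≠ 1) :
    2 - 2 * (chi s g).re = ∑ i, (1 / (orderOf (s i) : ℝ)) *
      ((univ.filter fun x : G => x⁻¹ * g * x ∈ Subgroup.zpowers (s i)).card : ℝ) := by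
  rw [Pool.Agent.H82.CO.chi_re s hg]
  have h1 : ∀ i, Pool.Agent.H82.CO.indF (s i) g = (1 / (orderOf (s i) : ℝ)) *
      ((univ.filter fun x : G => x⁻¹ * g * x ∈ Subgroup.zpowers (s i)).card : ℝ) := by
    intro i
    unfold Pool.Agent.H82.CO.indF
    rw [← sum_boole]
    congr 1
    refine sum_congr rfl fun x _ => ?_
    have h2 : x⁻¹ * g * x ≠ 1 := by
      intro h3
      apply hg
      have h4 : g = x * (x⁻¹ * g * x) * x⁻¹ := by group
      rw [h4, h3]
      group
    rw [Pool.Agent.H82.SQ.fP_eq]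
    by_cases h3 : x⁻¹ * g * x ∈ Subgroup.zpowers (s i)
    · rw [if_pos ⟨h2, h3⟩, if_pos h3]
    · rw [if_neg (fun h4 => h3 h4.2), if_neg h3]
  rw [sum_congr rfl fun i _ => h1 i]
  ring

open Classical in
theorem VQ_re {N : ℕ} (s : Fin N → G) (S : Subgroup G) (g : G) (hg : g ∉ S) :
    2 - 2 * (VQ S s g).re = (1 / (Nat.card S : ℝ)) * ∑ h : G, if h ∈ S then
      ∑ i, (1 / (orderOf (s i) : ℝ)) * ((univ.filter fun x : G => x⁻¹ * (g * h) * x ∈ Subgroup.zpowers (s i)).card : ℝ)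
      else 0 := by
  have hS0 : (Nat.card S : ℝ) ≠ 0 := by exact_mod_cast Nat.card_pos.ne'
  have h1 : (VQ S s g).re = (1 / (Nat.card S : ℝ)) * ∑ h : G, if h ∈ S then (chi s (g * h)).re else 0 := by
    unfold VQ
    have h2 : (1 / (Nat.card S : ℂ)) = ((1 / (Nat.card S : ℝ) : ℝ) : ℂ) := by push_cast; rfl
    rw [h2, Complex.re_ofReal_mul, Complex.re_sum]
    congr 1
    refine sum_congr rfl fun h _ => ?_
    split_ifs
    · rfl
    · exact Complex.zero_re
  have h3 : (2 : ℝ) = (1 / (Nat.card S : ℝ)) * ∑ h : G, if h ∈ S then 2 else 0 := by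
    have h4 : ∑ h : G, (if h ∈ S then (2 : ℝ) else 0) = 2 * ∑ h : G, (if h ∈ S then (1 : ℝ) else 0) := by
      rw [mul_sum]
      refine sum_congr rfl fun h _ => ?_
      split_ifs <;> simp
    rw [h4, card_S_fix]
    field_simp
  have h5 : 2 - 2 * (VQ S s g).re = (1 / (Nat.card S : ℝ)) * (∑ h : G, if h ∈ S then 2 else 0) -
      2 * ((1 / (Nat.card S : ℝ)) * ∑ h : G, if h ∈ S then (chi s (g * h)).re else 0) := by
    rw [← h3, h1]
  rw [h5]
  have h6 : (1 / (Nat.card S : ℝ)) * (∑ h : G, if h ∈ S then (2 : ℝ) else 0) -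
      2 * ((1 / (Nat.card S : ℝ)) * ∑ h : G, if h ∈ S then (chi s (g * h)).re else 0) =
      (1 / (Nat.card S : ℝ)) * ((∑ h : G, if h ∈ S then (2 : ℝ) else 0) -
      2 * ∑ h : G, if h ∈ S then (chi s (g * h)).re else 0) := by ring
  rw [h6]
  congr 1
  rw [mul_sum, ← sum_sub_distrib]
  refine sum_congr rfl fun h _ => ?_
  by_cases hh : h ∈ S
  · rw [if_pos hh, if_pos hh, if_pos hh]
    refine chi_fix s (g * h) ?_
    intro h7
    apply hg
    rw [eq_inv_of_mul_eq_one_left h7]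
    exact S.inv_mem hh
  · rw [if_neg hh, if_neg hh, if_neg hh]
    ring

theorem VQ_nonneg {N : ℕ} (s : Fin N → G) (S : Subgroup G) (g : G) (hg : g ∉ S) :
    0 ≤ 2 - 2 * (VQ S s g).re := by
  classical
  rw [VQ_re s S g hg]
  refine mul_nonneg (by positivity) (sum_nonneg fun h _ => ?_)
  split_ifs
  · exact sum_nonneg fun i _ => by positivity
  · exact le_refl _

open Classical in
private theorem cz_le_fix (S : Subgroup G) (hS : S.Normal) (c g x k : G) (hk : k ∈ S)
    (hx : x⁻¹ * (g * k) * x ∈ Subgroup.zpowers c) :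
    cz g ≤ ∑ h : G, if h ∈ S then ((univ.filter fun x : G => x⁻¹ * (g * h) * x ∈ Subgroup.zpowers c).card : ℝ) else 0 := by
  have h1 : (∑ h : G, if h ∈ S then ((univ.filter fun x : G => x⁻¹ * (g * h) * x ∈ Subgroup.zpowers c).card : ℝ) else 0) =
      (((univ.filter fun h : G => h ∈ S).sigma
        (fun h => univ.filter fun x : G => x⁻¹ * (g * h) * x ∈ Subgroup.zpowers c)).card : ℝ) := by
    rw [card_sigma, sum_filter]
    push_cast
    exact sum_congr rfl fun h _ => rfl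
  rw [h1]
  unfold cz
  have h2 : Nat.card {h : G // h * g = g * h} = (univ.filter fun h : G => h * g = g * h).card := by
    rw [Nat.card_eq_fintype_card, Fintype.card_subtype]
  rw [h2]
  have h3 : (univ.filter fun h : G => h * g = g * h).card ≤ ((univ.filter fun h : G => h ∈ S).sigma
        (fun h => univ.filter fun x : G => x⁻¹ * (g * h) * x ∈ Subgroup.zpowers c)).card := by
    refine card_le_card_of_injOn (fun y => ⟨y * k * y⁻¹, y * x⟩) ?_ ?_
    · intro y hy
      have hy' : y * g = g * y := by simpa using hy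
      simp only [coe_sigma, Set.mem_sigma_iff, coe_filter, mem_univ, true_and, Set.mem_ofPred_eq]
      refine ⟨mem_conj_fix S hS y k hk, ?_⟩
      have h4 : (y * x)⁻¹ * (g * (y * k * y⁻¹)) * (y * x) = x⁻¹ * (g * k) * x := by
        have h5 : y⁻¹ * g * y = g := by
          rw [mul_assoc, ← hy', inv_mul_cancel_left]
        calc (y * x)⁻¹ * (g * (y * k * y⁻¹)) * (y * x) = x⁻¹ * ((y⁻¹ * g * y) * k) * x := by group
          _ = x⁻¹ * (g * k) * x := by rw [h5]
      rw [h4]
      exact hx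
    · intro y _ z _ hyz
      have h6 : y * x = z * x := by
        have h7 := congrArg Sigma.snd hyz
        exact h7
      exact mul_right_cancel h6
  exact_mod_cast h3

theorem VQ_cz {N : ℕ} (s : Fin N → G) (S : Subgroup G) (hS : S.Normal) (g : G) (hg : g ∉ S)
    (hpos : (VQ S s g).re ≠ 1) : ∃ i, (∃ x k : G, k ∈ S ∧ x⁻¹ * (g * k) * x ∈ Subgroup.zpowers (s i)) ∧
      cz g ≤ Nat.card S * orderOf (s i) * (2 - 2 * (VQ S s g).re) := by
  classical
  have hS0 : (0 : ℝ) < Nat.card S := by exact_mod_cast Nat.card_pos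
  have h1 := VQ_re s S g hg
  have h2 : ∃ h, h ∈ S ∧ ∃ i, ∃ x : G, x⁻¹ * (g * h) * x ∈ Subgroup.zpowers (s i) := by
    by_contra hcon
    push Not at hcon
    apply hpos
    have h3 : (∑ h : G, if h ∈ S then
        ∑ i, (1 / (orderOf (s i) : ℝ)) * ((univ.filter fun x : G => x⁻¹ * (g * h) * x ∈ Subgroup.zpowers (s i)).card : ℝ)
        else 0) = 0 := by
      refine sum_eq_zero fun h _ => ?_
      split_ifs with hh
      · refine sum_eq_zero fun i _ => ?_
        have h4 : (univ.filter fun x : G => x⁻¹ * (g * h) * x ∈ Subgroup.zpowers (s i)) = ∅ :=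
          filter_eq_empty_iff.2 fun x _ => hcon h hh i x
        rw [h4, card_empty, Nat.cast_zero, mul_zero]
      · rfl
    rw [h3, mul_zero] at h1
    linarith
  obtain ⟨k, hk, i, x, hx⟩ := h2
  refine ⟨i, ⟨x, k, hk, hx⟩, ?_⟩
  have hm : (0 : ℝ) < orderOf (s i) := by exact_mod_cast orderOf_pos (s i)
  have h3 := cz_le_fix S hS (s i) g x k hk hx
  have h4 : (1 / (orderOf (s i) : ℝ)) * (∑ h : G, if h ∈ S then
      ((univ.filter fun x : G => x⁻¹ * (g * h) * x ∈ Subgroup.zpowers (s i)).card : ℝ) else 0) ≤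
      ∑ h : G, if h ∈ S then
      ∑ i, (1 / (orderOf (s i) : ℝ)) * ((univ.filter fun x : G => x⁻¹ * (g * h) * x ∈ Subgroup.zpowers (s i)).card : ℝ)
      else 0 := by
    rw [mul_sum]
    refine sum_le_sum fun h _ => ?_
    split_ifs
    · exact single_le_sum (f := fun i => (1 / (orderOf (s i) : ℝ)) *
        ((univ.filter fun x : G => x⁻¹ * (g * h) * x ∈ Subgroup.zpowers (s i)).card : ℝ))
        (fun j _ => by positivity) (mem_univ i)
    · rw [mul_zero]
  have h5 : (1 / (orderOf (s i) : ℝ)) * cz g ≤ Nat.card S * (2 - 2 * (VQ S s g).re) := by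
    have h6 : (Nat.card S : ℝ) * (2 - 2 * (VQ S s g).re) = ∑ h : G, if h ∈ S then
      ∑ i, (1 / (orderOf (s i) : ℝ)) * ((univ.filter fun x : G => x⁻¹ * (g * h) * x ∈ Subgroup.zpowers (s i)).card : ℝ)
      else 0 := by
      rw [h1]
      field_simp
    rw [h6]
    refine le_trans ?_ h4
    exact mul_le_mul_of_nonneg_left h3 (by positivity)
  rw [one_div, inv_mul_le_iff₀ hm] at h5
  linarith

/-- if `2 - 2 Re VQ = 0`, no `g h`, `h ∈ S`, is conjugate into `⟨s i⟩` -/
theorem VQ_free {N : ℕ} (s : Fin N → G) (S : Subgroup G) (hS : S.Normal) (g : G) (hg : g ∉ S)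
    (h1 : (VQ S s g).re = 1) (i : Fin N) (x : G) : x⁻¹ * g * x ∉ Subgroup.zpowers (s i) := by
  classical
  intro hx
  have hS0 : (0 : ℝ) < Nat.card S := by exact_mod_cast Nat.card_pos
  have h2 := VQ_re s S g hg
  have h3 := cz_le_fix S hS (s i) g x 1 S.one_mem (by rw [mul_one]; exact hx)
  have hc : (0 : ℝ) < cz g := by
    unfold cz
    have : Nonempty {h : G // h * g = g * h} := ⟨⟨1, by rw [one_mul, mul_one]⟩⟩
    exact_mod_cast Nat.card_pos
  have hm : (0 : ℝ) < orderOf (s i) := by exact_mod_cast orderOf_pos (s i)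
  have h4 : (1 / (orderOf (s i) : ℝ)) * (∑ h : G, if h ∈ S then
      ((univ.filter fun x : G => x⁻¹ * (g * h) * x ∈ Subgroup.zpowers (s i)).card : ℝ) else 0) ≤
      ∑ h : G, if h ∈ S then
      ∑ i, (1 / (orderOf (s i) : ℝ)) * ((univ.filter fun x : G => x⁻¹ * (g * h) * x ∈ Subgroup.zpowers (s i)).card : ℝ)
      else 0 := by
    rw [mul_sum]
    refine sum_le_sum fun h _ => ?_
    split_ifs
    · exact single_le_sum (f := fun i => (1 / (orderOf (s i) : ℝ)) *
        ((univ.filter fun x : G => x⁻¹ * (g * h) * x ∈ Subgroup.zpowers (s i)).card : ℝ))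
        (fun j _ => by positivity) (mem_univ i)
    · rw [mul_zero]
  have h5 : (0 : ℝ) < (1 / (orderOf (s i) : ℝ)) * (∑ h : G, if h ∈ S then
      ((univ.filter fun x : G => x⁻¹ * (g * h) * x ∈ Subgroup.zpowers (s i)).card : ℝ) else 0) :=
    mul_pos (by positivity) (lt_of_lt_of_le hc h3)
  have h6 : (0 : ℝ) < (1 / (Nat.card S : ℝ)) * ∑ h : G, if h ∈ S then
      ∑ i, (1 / (orderOf (s i) : ℝ)) * ((univ.filter fun x : G => x⁻¹ * (g * h) * x ∈ Subgroup.zpowers (s i)).card : ℝ)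
      else 0 := mul_pos (by positivity) (lt_of_lt_of_le h5 h4)
  rw [← h2, h1] at h6
  norm_num at h6

end Pool.Agent.H82.FIN
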