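import Pool.Agent.H82.FIN.Od
import Pool.Agent.H82.CO.Main

set_option autoImplicit false

/-!
PROJECT FIN (MP_bf82d2_ag, Finiteness; note 6077), module RedK.
The reduction from `K` to `S`.
PROOF. `S` = normal closure of the `s i ^ k_i`, `k_i = od K (s i)`.  `S ≤ K` (`K` normal), so `|S| ≤ |K| ≤ σ`, and `od S (s i) =
k_i`: `s i ^ k_i ∈ S`, `od K (s i) ∣ od S (s i) ∣ k_i`.  So `nuM S s = nuM K s ≤ 2`.  If `S = ⊥` then `orderOf (s i) = k_i`,
`nu s = nuM K s ≤ 2`, `genus s ≤ 1` (`genus_eq`, H82.CO.Main).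
-/

namespace Pool.Agent.H82.FIN

open Finset Module
open Pool.Agent.H93.Hup (Inv MinInv)
open Pool.Agent.H52.VC (lam subR)
open Pool.Agent.H82.CO (chi quadInv genus nu eps zeta)

variable {G : Type} [Group G] [Fintype G]

theorem red_K {N : ℕ} (s : Fin N → G) (hs : Tup s) (hg : 1 < genus s) (σ : ℕ) (K : Subgroup G) (hK : K.Normal)
    (hKc : Nat.card K ≤ σ) (hnu : nuM K s ≤ 2) :
    ∃ S : Subgroup G, S.Normal ∧ Nat.card S ≤ σ ∧ S ≠ ⊥ ∧
      S = Subgroup.normalClosure (Set.range fun i => s i ^ od S (s i)) ∧ nuM S s ≤ 2 := by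
  obtain ⟨S, hS⟩ : ∃ S : Subgroup G, S = Subgroup.normalClosure (Set.range fun i => s i ^ od K (s i)) := ⟨_, rfl⟩
  have hSn : S.Normal := by rw [hS]; exact Subgroup.normalClosure_normal
  have hSK : S ≤ K := by
    rw [hS]
    refine Subgroup.normalClosure_le_normal ?_
    rintro _ ⟨i, rfl⟩
    exact od_mem K (s i)
  have hmem : ∀ i, s i ^ od K (s i) ∈ S := by
    intro i
    rw [hS]
    exact Subgroup.subset_normalClosure ⟨i, rfl⟩
  have hod : ∀ i, od S (s i) = od K (s i) := by
    intro i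
    exact Nat.dvd_antisymm ((od_dvd S (s i) _).1 (hmem i)) (od_le K S hSK (s i))
  have hnuS : nuM S s = nuM K s := by
    rw [nuM, nuM]
    exact sum_congr rfl fun i _ => by rw [hod i]
  refine ⟨S, hSn, ?_, ?_, ?_, ?_⟩
  · exact (Nat.card_le_card_of_injective _ (Subgroup.inclusion_injective hSK)).trans hKc
  · intro hbot
    have h1 : ∀ i, orderOf (s i) = od K (s i) := by
      intro i
      have h2 := od_mul K (s i)
      have h3 : s i ^ od K (s i) = 1 := by
        have := hmem i
        rw [hbot, Subgroup.mem_bot] at this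
        exact this
      rw [h3, orderOf_one, mul_one] at h2
      exact h2.symm
    have h4 : nu s = nuM K s := by
      rw [nu, nuM]
      exact sum_congr rfl fun i _ => by rw [h1 i]
    have h5 := Pool.Agent.H82.CO.genus_eq s
    have h6 : (0 : ℝ) ≤ Nat.card G := Nat.cast_nonneg _
    rw [h4] at h5
    nlinarith
  · rw [hS]
    congr 1
    congr 1
    funext i
    rw [← hS, hod i]
  · rw [hnuS]
    exact hnu

end Pool.Agent.H82.FIN
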