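import Pool.Agent.H82.FIN.CaseD
import Pool.Agent.H82.FIN.CaseE
import Pool.Agent.H82.FIN.RedK
import Pool.Agent.H11.GQ.Main
import Pool.Agent.H81.NF.Struct
import Pool.Agent.H82.CO.Final

set_option autoImplicit false

/-!
PROJECT FIN (MP_bf82d2_ag, Finiteness; note 6077), module Main.
The theorem for non-abelian groups.
PROOF. `N ≥ 6`: `bounds` (H82.CO.Final) gives `n ≤ 47`.  `N = 4, 5`: `structure_thm` (H81.NF.Struct), `main` (H11.GQ.Main; `nuK s K = nuM K s` by `od_mk`), `red_K`: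
`Red b σ s A S x`; `case_E`, `case_D`.
-/

namespace Pool.Agent.H82.FIN

open Finset Module
open Pool.Agent.H82.CO (chi quadInv genus nu eps zeta)

theorem finiteness : ∃ B : ℕ, ∀ (G : Type) [Group G] [Fintype G] (N : ℕ) (_hN : 4 ≤ N)
    (s : Fin N → G) (_hs : ∀ i, s i ≠ 1) (_hna : ∃ a b : G, a * b ≠ b * a)
    (_hprod : (List.ofFn s).prod = 1) (_hgen : Subgroup.closure (Set.range s) = ⊤)
    (_hg : 1 < genus s) (_hd : (quadInv s).re ≤ (N : ℝ) - 3), Nat.card G ≤ B := by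
  obtain ⟨b, hb⟩ := Pool.Agent.H81.NF.structure_thm
  obtain ⟨σ, hσ⟩ := Pool.Agent.H11.GQ.main
  obtain ⟨C, hC⟩ := case_D b σ
  obtain ⟨E, hE⟩ : ∃ E : ℝ, E = (48 * (σ : ℝ) ^ 2 + 24 * σ) *
      (4 * b + 288 * (b : ℝ) ^ 3 * (σ : ℝ) ^ 2 + 48 * b * (σ : ℝ) ^ 2) := ⟨_, rfl⟩
  refine ⟨47 + ⌈|C|⌉₊ + ⌈|E|⌉₊, fun G _ _ N hN s hs hna hprod hgen hg hd => ?_⟩
  by_cases hN6 : 6 ≤ N
  · have h1 := (Pool.Agent.H82.CO.bounds s hs hN6 hd).2.1
    omega
  · have hN45 : N = 4 ∨ N = 5 := by omega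
    obtain ⟨A, hA, hAc, hAi, x, hx⟩ := hb G N hN s hs hna hprod hgen hg hd
    obtain ⟨K, hK, hKc, hnuK⟩ := hσ G N hN s hs hna hprod hgen hg hd
    have hnu : nuM K s ≤ 2 := by
      have h1 : nuM K s = Pool.Agent.H11.GQ.nuK s K := by
        rw [nuM, Pool.Agent.H11.GQ.nuK]
        refine sum_congr rfl fun i _ => ?_
        rw [od_mk]
      rw [h1]
      exact hnuK
    have htup : Tup s := ⟨hs, hprod, hgen⟩
    obtain ⟨S, hS, hSc, hS1, hcl, hnuS⟩ := red_K s htup hg σ K hK hKc hnu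
    have hred : Red b σ s A S x := ⟨htup, hN45, hd, hA, hAc, hAi, hx, hS, hSc, hS1, hcl, hnuS⟩
    rcases hnuS.lt_or_eq with h2 | h2
    · have h3 := hC G N s A S x hred h2
      have h4 : (Nat.card G : ℝ) ≤ (⌈|C|⌉₊ : ℝ) := (h3.trans (le_abs_self C)).trans (Nat.le_ceil _)
      have h5 : Nat.card G ≤ ⌈|C|⌉₊ := by exact_mod_cast h4
      omega
    · have h3 := case_E b σ s A S x hred h2
      rw [← hE] at h3
      have h4 : (Nat.card G : ℝ) ≤ (⌈|E|⌉₊ : ℝ) := (h3.trans (le_abs_self E)).trans (Nat.le_ceil _)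
      have h5 : Nat.card G ≤ ⌈|E|⌉₊ := by exact_mod_cast h4
      omega

end Pool.Agent.H82.FIN
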