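import Pool.Agent.H82.FIN.Mul
import Pool.Agent.H82.FIN.CTe
import Pool.Agent.H82.FIN.CTh
import Pool.Agent.H82.FIN.CTb
import Pool.Agent.H82.FIN.Ang

set_option autoImplicit false

/-!
PROJECT FIN (MP_bf82d2_ag, Finiteness; note 6077), module PosE.
Positive multiplicities in case E.
PROOF. `mul_good` for `P`, `ν_P = 2`: `mul s φ ≥ ∑ (1/k_i) ang (s i ^ k_i) φ`, `k_i = od P (s i) = od S (s i)`.  If `φ (s i ^ k_i)
= φ 1` for all `i`, then by `avg_closure` (`hcl`) `φ k = φ 1` for all `k ∈ S`, `avg S φ = φ 1 ≠ 0`.  So some `ang > 0` (`ang_pos`),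
`mul s φ > 0`, and it is a natural number (`mul_nat`).
-/

namespace Pool.Agent.H82.FIN

open Finset Module
open Pool.Agent.H93.Hup (Inv MinInv)
open Pool.Agent.H52.VC (lam subR)
open Pool.Agent.H82.CO (chi quadInv genus nu eps zeta)

variable {G : Type} [Group G] [Fintype G]

theorem pos_E {b σ : ℕ} {N : ℕ} {s : Fin N → G} {A S : Subgroup G} {x : G} {P : Subgroup G} (h : CE b σ s A S x P)
    (φ : G → ℂ) (hφ : IsIrr φ) (hg : ¬ Bad P φ) (ha : avg S φ = 0) : 1 ≤ mul s φ := by
  classical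
  have hgood := mul_good s P h.hP φ hφ hg
  rw [h.hnu] at hgood
  have hex : ∃ i, φ (s i ^ od S (s i)) ≠ φ 1 := by
    by_contra hcon
    push Not at hcon
    have h1 : ∀ k ∈ S, ∀ g, φ (g * k) = φ g := by
      intro k hk g
      refine avg_closure φ hφ (Set.range fun i => s i ^ od S (s i)) ?_ k ?_ g
      · rintro _ ⟨i, rfl⟩
        exact hcon i
      · rw [← h.red.hcl]
        exact hk
    have h2 : ∀ k ∈ S, φ k = φ 1 := by
      intro k hk
      have := h1 k hk 1
      rwa [one_mul] at this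
    obtain ⟨d, hd, hd1⟩ := irr_one φ hφ
    have h3 : avg S φ = φ 1 := by
      unfold avg
      have h4 : (∑ g : G, if g ∈ S then φ g else 0) = (Nat.card S : ℂ) * φ 1 := by
        rw [← sum_filter, sum_congr rfl fun g hg => h2 g (mem_filter.1 hg).2, sum_const, nsmul_eq_mul,
          ← Fintype.card_subtype, ← Nat.card_eq_fintype_card]
      rw [h4, ← mul_assoc, one_div, inv_mul_cancel₀, one_mul]
      exact_mod_cast Nat.card_pos.ne'
    rw [ha, hd1] at h3
    have : d = 0 := by exact_mod_cast h3.symm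
    omega
  obtain ⟨i, hi⟩ := hex
  have hpos : 0 < ∑ i, (1 / (od P (s i) : ℝ)) * ang (s i ^ od P (s i)) φ := by
    refine sum_pos' (fun j _ => mul_nonneg (by positivity) (ang_nonneg _ φ hφ)) ⟨i, mem_univ i, ?_⟩
    have h1 : 0 < od P (s i) := od_pos P (s i)
    refine mul_pos (by positivity) (ang_pos _ φ hφ ?_)
    rw [h.hod i]
    exact hi
  obtain ⟨m, -, hm⟩ := mul_nat s h.red.tup φ hφ
  rw [hm] at hgood ⊢
  have h5 : (0 : ℝ) < m := by
    have : (φ 1).re * ((2 : ℝ) / 2 - 1) = 0 := by norm_num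
    linarith
  have h6 : 0 < m := by exact_mod_cast h5
  exact_mod_cast h6


end Pool.Agent.H82.FIN
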