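import Pool.Agent.H82.FIN.ResA

set_option autoImplicit false

/-!
PROJECT FIN (MP_bf82d2_ag, Finiteness; note 6077), module Res.
The character `chi s` on a normal subgroup.
PROOF. `chi s g = 1 - n δ_1(g) + ∑ i, U (s i) g` (by definition), `U_normal`, `nuM P s = ∑ (1 - 1/od P (s i))`.
-/

namespace Pool.Agent.H82.FIN

open Finset Module
open Pool.Agent.H93.Hup (Inv MinInv)
open Pool.Agent.H52.VC (lam subR)
open Pool.Agent.H82.CO (chi quadInv genus nu eps zeta)

variable {G : Type} [Group G] [Fintype G]

theorem chi_U {N : ℕ} (s : Fin N → G) (g : G) :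
    chi s g = 1 - (open Classical in if g = 1 then (Nat.card G : ℂ) else 0) + ∑ i, U (s i) g := by
  rfl

open Classical in
theorem chi_res {N : ℕ} (s : Fin N → G) (P : Subgroup G) (hP : P.Normal) (g : G) (hg : g ∈ P) :
    chi s g = 1 + (if g = 1 then (Nat.card G : ℂ) * ((nuM P s : ℂ) / 2 - 1) else 0) +
      ∑ i, (1 / (od P (s i) : ℂ)) * U (s i ^ od P (s i)) g := by
  rw [chi_U, sum_congr rfl fun i _ => U_normal P hP (s i) g hg, sum_add_distrib]
  by_cases h : g = 1
  · simp only [h, if_true]
    rw [nuM]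
    push_cast
    rw [← sum_div, ← mul_sum]
    ring
  · simp only [h, if_false, sum_const_zero]
    ring

end Pool.Agent.H82.FIN
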