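import Pool.Agent.H82.FIN.Od
import Pool.Agent.H82.CO.Eps

set_option autoImplicit false

/-!
PROJECT FIN (MP_bf82d2_ag, Finiteness; note 6077), module ResA.
The function `U` on a normal subgroup.
PROOF. `m = orderOf s = q o`, `q = od P s`, `o = orderOf (s ^ q)`.  In `U s g` only the `k < m` divisible by `q` count
(`x s^k x⁻¹ = g ∈ P` iff ... so `s^k ∈ P`, `od_dvd`): `k = q l`, `l < o`.  `eps m (q l)`: `a = a' + o j` (`a' < o`, `j < q`),
`zeta m ^ (a q l) = zeta o ^ (a' l)`: `eps m (q l) = ∑ a' ∑ j ((a' + o j)/m) zeta o ^ (a' l) = eps o l + ((q - 1)/2) ∑ a'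
zeta o ^ (a' l)`, the last sum `o` for `l = 0` and `0` for `0 < l < o`.  So `U s g = (1/m) ∑ x ∑ l [..] eps o l + (1/m) (n δ_1(g))
o (q - 1)/2`, `o/m = 1/q`.
-/

namespace Pool.Agent.H82.FIN

open Finset Module
open Pool.Agent.H93.Hup (Inv MinInv)
open Pool.Agent.H52.VC (lam subR)
open Pool.Agent.H82.CO (chi quadInv genus nu eps zeta)

variable {G : Type} [Group G] [Fintype G]

private theorem ra_sum (o : ℕ) (f : ℕ → ℂ) (q : ℕ) :
    ∑ a ∈ range (q * o), f a = ∑ j ∈ range q, ∑ a ∈ range o, f (a + o * j) := by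
  induction q with
  | zero => simp
  | succ q ih =>
    rw [Nat.succ_mul, sum_range_add, ih, sum_range_succ]
    congr 1
    refine sum_congr rfl fun a _ => ?_
    congr 1
    ring

private theorem ra_gauss (q : ℕ) : ∑ j ∈ range q, (j : ℂ) = (q : ℂ) * ((q : ℂ) - 1) / 2 := by
  induction q with
  | zero => simp
  | succ q ih =>
    rw [sum_range_succ, ih]
    push_cast
    ring

private theorem ra_zeta {q o : ℕ} (hq : 0 < q) (ho : 0 < o) : zeta (q * o) ^ q = zeta o := by
  have hqC : (q : ℂ) ≠ 0 := by exact_mod_cast hq.ne'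
  have hoC : (o : ℂ) ≠ 0 := by exact_mod_cast ho.ne'
  unfold zeta
  rw [← Complex.exp_nat_mul]
  congr 1
  push_cast
  field_simp

theorem eps_mul (q o l : ℕ) (hq : 0 < q) (ho : 0 < o) (hl : l < o) :
    eps (q * o) (q * l) = eps o l + if l = 0 then (o : ℂ) * ((q : ℂ) - 1) / 2 else 0 := by
  have hqC : (q : ℂ) ≠ 0 := by exact_mod_cast hq.ne'
  have hoC : (o : ℂ) ≠ 0 := by exact_mod_cast ho.ne'
  have hz : ∀ a, zeta (q * o) ^ (a * (q * l)) = zeta o ^ (a * l) := by
    intro a
    rw [← ra_zeta hq ho, ← pow_mul]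
    congr 1
    ring
  have hp : zeta o ^ o = 1 := Pool.Agent.H82.CO.zeta_pow ho
  unfold eps
  simp only [hz]
  rw [ra_sum]
  have h1 : ∀ j ∈ range q, ∑ a ∈ range o, (((a + o * j : ℕ) : ℂ) / ((q * o : ℕ) : ℂ)) *
      zeta o ^ ((a + o * j) * l) = ∑ a ∈ range o, ((a : ℂ) / ((q : ℂ) * o) + (j : ℂ) / q) * zeta o ^ (a * l) := by
    intro j _
    refine sum_congr rfl fun a _ => ?_
    have h2 : zeta o ^ ((a + o * j) * l) = zeta o ^ (a * l) := by
      have h3 : (a + o * j) * l = a * l + o * (j * l) := by ring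
      rw [h3, pow_add, pow_mul (zeta o) o, hp, one_pow, mul_one]
    rw [h2]
    congr 1
    push_cast
    field_simp
  rw [sum_congr rfl h1, sum_comm]
  have h3 : ∀ a ∈ range o, ∑ j ∈ range q, ((a : ℂ) / ((q : ℂ) * o) + (j : ℂ) / q) * zeta o ^ (a * l) =
      ((a : ℂ) / o) * zeta o ^ (a * l) + (((q : ℂ) - 1) / 2) * zeta o ^ (a * l) := by
    intro a _
    rw [← sum_mul, sum_add_distrib, sum_const, card_range, nsmul_eq_mul, ← sum_div, ← add_mul, ra_gauss]
    congr 1
    field_simp
  rw [sum_congr rfl h3, sum_add_distrib, ← mul_sum]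
  congr 1
  split_ifs with h
  · subst h
    simp only [mul_zero, pow_zero, sum_const, card_range, nsmul_eq_mul, mul_one]
    ring
  · have h5 : ∑ a ∈ range o, zeta o ^ (a * l) = 0 := by
      have h6 := geom_sum_mul (zeta o ^ l) o
      have h7 : (zeta o ^ l) ^ o = 1 := by
        rw [← pow_mul, mul_comm, pow_mul, hp, one_pow]
      have h8 : zeta o ^ l ≠ 1 :=
        (Pool.Agent.H82.CO.zeta_prim ho).pow_ne_one_of_pos_of_lt h hl
      rw [h7, sub_self] at h6
      have h9 := (mul_eq_zero.1 h6).resolve_right (sub_ne_zero.2 h8)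
      rw [← h9]
      refine sum_congr rfl fun a _ => ?_
      rw [← pow_mul, mul_comm]
    rw [h5, mul_zero]

open Classical in
private theorem ra_inner (P : Subgroup G) (hP : P.Normal) (s g : G) (hg : g ∈ P) (x : G) :
    (∑ k ∈ range (orderOf s), if x * s ^ k * x⁻¹ = g then eps (orderOf s) k else 0) =
      (∑ l ∈ range (orderOf (s ^ od P s)), if x * (s ^ od P s) ^ l * x⁻¹ = g then
        eps (orderOf (s ^ od P s)) l else 0) +
      if g = 1 then (orderOf (s ^ od P s) : ℂ) * ((od P s : ℂ) - 1) / 2 else 0 := by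
  have hq : 0 < od P s := od_pos P s
  have hm : od P s * orderOf (s ^ od P s) = orderOf s := od_mul P s
  have ho : 0 < orderOf (s ^ od P s) := orderOf_pos _
  have hdv := od_dvd P s
  generalize od P s = q at *
  rw [← hm]
  generalize hoe : orderOf (s ^ q) = o at *
  have h1 : ∀ k ∈ range (q * o), k ∉ (range o).image (fun l => q * l) →
      (if x * s ^ k * x⁻¹ = g then eps (q * o) k else 0) = 0 := by
    intro k hk hkn
    rw [if_neg]
    intro hx
    apply hkn
    have h2 : s ^ k ∈ P := by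
      have h3 : s ^ k = x⁻¹ * g * x⁻¹⁻¹ := by
        rw [← hx]
        group
      rw [h3]
      exact hP.conj_mem g hg x⁻¹
    obtain ⟨l, hl⟩ := (hdv k).1 h2
    rw [mem_image]
    refine ⟨l, ?_, hl.symm⟩
    rw [mem_range] at hk ⊢
    rw [hl] at hk
    exact Nat.lt_of_mul_lt_mul_left hk
  have h2 : (range o).image (fun l => q * l) ⊆ range (q * o) := by
    intro k hk
    rw [mem_image] at hk
    obtain ⟨l, hl, rfl⟩ := hk
    rw [mem_range] at hl ⊢
    exact (Nat.mul_lt_mul_left hq).2 hl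
  rw [← sum_subset h2 h1, sum_image (fun a _ b _ hab => Nat.eq_of_mul_eq_mul_left hq hab)]
  have h3 : ∀ l ∈ range o, (if x * s ^ (q * l) * x⁻¹ = g then eps (q * o) (q * l) else 0) =
      (if x * (s ^ q) ^ l * x⁻¹ = g then eps o l else 0) +
      (if l = 0 then (if g = 1 then (o : ℂ) * ((q : ℂ) - 1) / 2 else 0) else 0) := by
    intro l hl
    rw [pow_mul, eps_mul q o l hq ho (mem_range.1 hl)]
    by_cases h4 : l = 0
    · subst h4
      rw [pow_zero, mul_one, mul_inv_cancel, if_pos rfl, if_pos rfl]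
      by_cases h5 : g = 1
      · subst h5
        rw [if_pos rfl, if_pos rfl, if_pos rfl]
      · rw [if_neg (fun h => h5 h.symm), if_neg (fun h => h5 h.symm), if_neg h5, add_zero]
    · rw [if_neg h4, if_neg h4, add_zero, add_zero]
  rw [sum_congr rfl h3, sum_add_distrib, sum_ite_eq' (range o) 0, if_pos (mem_range.2 ho)]

open Classical in
theorem U_normal (P : Subgroup G) (hP : P.Normal) (s g : G) (hg : g ∈ P) :
    U s g = (1 / (od P s : ℂ)) * U (s ^ od P s) g + if g = 1 then (Nat.card G : ℂ) * (1 - 1 / (od P s : ℂ)) / 2 else 0 := by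
  have hq : 0 < od P s := od_pos P s
  have hm : od P s * orderOf (s ^ od P s) = orderOf s := od_mul P s
  have ho : 0 < orderOf (s ^ od P s) := orderOf_pos _
  have hqC : (od P s : ℂ) ≠ 0 := by exact_mod_cast hq.ne'
  have hoC : (orderOf (s ^ od P s) : ℂ) ≠ 0 := by exact_mod_cast ho.ne'
  have hmC : (orderOf s : ℂ) = (od P s : ℂ) * (orderOf (s ^ od P s) : ℂ) := by
    rw [← hm]
    push_cast
    rfl
  unfold U
  rw [sum_congr rfl fun x _ => ra_inner P hP s g hg x, sum_add_distrib, sum_const, card_univ,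
    ← Nat.card_eq_fintype_card, nsmul_eq_mul, hmC]
  split_ifs with h
  · field_simp
  · rw [mul_zero, add_zero, add_zero]
    field_simp

theorem U_off (P : Subgroup G) (hP : P.Normal) (c g : G) (hc : c ∈ P) (hg : g ∉ P) : U c g = 0 := by
  classical
  unfold U
  rw [sum_eq_zero, mul_zero]
  intro x _
  refine sum_eq_zero fun k _ => ?_
  rw [if_neg]
  intro h
  apply hg
  rw [← h]
  exact hP.conj_mem _ (P.pow_mem hc k) x

end Pool.Agent.H82.FIN
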