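import Pool.Agent.H82.FIN.VQb
import Pool.Agent.H82.FIN.Fix
import Pool.Agent.H82.FIN.ArD
import Pool.Agent.H82.FIN.Cyc
import Pool.Agent.H82.FIN.Od

set_option autoImplicit false

/-!
PROJECT FIN (MP_bf82d2_ag, Finiteness; note 6077), module SetD.
Setting of case D.
PROOF. `VQ_two`: `VQ = 0`, `q (2 - ν_S) = 2` with `q = [G : S] = n/|S| > 60`.  `dih` for `k_i = od S (s i)` (`od_dvd_index`).  First case: `cyc`.
Second: `P = S ⊔ zpowers (s iy)` = `{p | ∃ k, p (s iy ^ k)⁻¹ ∈ S}`, `|P| = |S| od S (s iy)`, index `2`, so normal.  `s j ∈ S` for the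
others (`od S (s j) = 1`).  In `G/P` (order `2`) the product relation gives: `s i₁`, `s i₂` both in `P` or both not; if both are in `P`,
all `s i` are, and `P = ⊤`.  `g ∉ P`: `VQ_cz`: some `g k`, `k ∈ S`, is conjugate into `⟨s i⟩`; `i ≠ iy` and `s i ∉ S`, otherwise `g ∈ P`; so
`i = i₁, i₂`, `orderOf (s i) = 2 * orderOf (s i ^ 2) ≤ 2 σ`, `cz g ≤ σ * 2 σ * 2`.
-/

namespace Pool.Agent.H82.FIN

open Finset Module
open Pool.Agent.H93.Hup (Inv MinInv)
open Pool.Agent.H52.VC (lam subR)
open Pool.Agent.H82.CO (chi quadInv genus nu eps zeta)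

variable {G : Type} [Group G] [Fintype G]

open Classical in
/-- the sign of a subgroup of index `2` -/
private noncomputable def sg (P : Subgroup G) (hP : P.index = 2) : G →* ℤ where
  toFun g := if g ∈ P then 1 else -1
  map_one' := by simp [P.one_mem]
  map_mul' a b := by
    have h := Subgroup.mul_mem_iff_of_index_two hP (a := a) (b := b)
    by_cases ha : a ∈ P <;> by_cases hb : b ∈ P <;> simp [h, ha, hb]

private theorem sg_mem (P : Subgroup G) (hP : P.index = 2) {g : G} (hg : g ∈ P) : sg P hP g = 1 := by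
  classical
  show (if g ∈ P then (1 : ℤ) else -1) = 1
  simp [hg]

private theorem mem_sg (P : Subgroup G) (hP : P.index = 2) {g : G} (hg : sg P hP g = 1) : g ∈ P := by
  classical
  by_contra h
  have h1 : (if g ∈ P then (1 : ℤ) else -1) = 1 := hg
  simp [h] at h1

private theorem both {N : ℕ} (s : Fin N → G) (hs : Tup s) (P : Subgroup G) (hP : P.index = 2) (i₁ i₂ : Fin N)
    (hj : ∀ j, j ≠ i₁ → j ≠ i₂ → s j ∈ P) : s i₁ ∉ P := by
  classical
  intro h1
  have h2 : s i₂ ∈ P := by
    apply mem_sg P hP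
    have h := congrArg (sg P hP) hs.prod
    rw [map_list_prod, map_one, List.map_ofFn, List.prod_ofFn] at h
    rw [Finset.prod_eq_single i₂] at h
    · exact h
    · intro j _ hne
      by_cases hji : j = i₁
      · subst hji
        exact sg_mem P hP h1
      · exact sg_mem P hP (hj j hji hne)
    · intro h'
      exact absurd (Finset.mem_univ _) h'
  have hall : ∀ j, s j ∈ P := by
    intro j
    by_cases hj1 : j = i₁
    · rw [hj1]; exact h1
    · by_cases hj2 : j = i₂
      · rw [hj2]; exact h2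
      · exact hj j hj1 hj2
  have htop : P = ⊤ := by
    rw [eq_top_iff, ← hs.gen, Subgroup.closure_le]
    rintro _ ⟨j, rfl⟩
    exact hall j
  rw [htop, Subgroup.index_top] at hP
  exact absurd hP (by norm_num)

theorem set_D (b σ : ℕ) {N : ℕ} (s : Fin N → G) (A S : Subgroup G) (x : G) (h : Red b σ s A S x) (hnu : nuM S s < 2)
    (hn : 60 * σ < Nat.card G) :
    (Nat.card G : ℝ) ≤ 2 * b * σ ∨ ∃ (P : Subgroup G) (i₁ i₂ iy : Fin N), CD b σ s A S x P i₁ i₂ iy := by
  classical
  have hSn : S.Normal := h.hS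
  obtain ⟨hV, hcard⟩ : (∀ g, VQ S s g = 0) ∧ (Nat.card G : ℝ) * (2 - nuM S s) = 2 * Nat.card S := by
    rcases VQ_two s h.tup S h.hS h.hnu with ⟨h1, _⟩ | ⟨_, h2, h3⟩
    · exact absurd h1 (ne_of_lt hnu)
    · exact ⟨h2, h3⟩
  have hSpos : 0 < Nat.card S := Nat.card_pos
  have hmul : Nat.card S * S.index = Nat.card G := S.card_mul_index
  have hq60 : 60 < S.index := by
    by_contra hle
    push Not at hle
    have h1 : Nat.card G ≤ σ * 60 := by
      rw [← hmul]
      exact Nat.mul_le_mul h.hSc hle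
    omega
  have hq : (S.index : ℝ) * (2 - ∑ i, (1 - 1 / (od S (s i) : ℝ))) = 2 := by
    have h1 : (Nat.card S : ℝ) * ((S.index : ℝ) * (2 - nuM S s)) = Nat.card S * 2 := by
      have h2 : ((Nat.card S : ℝ) * (S.index : ℝ)) = Nat.card G := by
        exact_mod_cast hmul
      rw [← mul_assoc, h2, hcard]; ring
    have h3 : (Nat.card S : ℝ) ≠ 0 := by
      have : (0 : ℝ) < Nat.card S := by exact_mod_cast hSpos
      exact ne_of_gt this
    exact mul_left_cancel₀ h3 h1
  rcases dih N h.hN (fun i => od S (s i)) (fun i => od_pos S (s i)) S.index hq60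
    (fun i => od_dvd_index S h.hS (s i)) hq with ⟨i, hi⟩ | ⟨i₁, i₂, iy, h12, h1y, h2y, hk1, hk2, hky, hkj⟩
  · left
    have h1 := cyc A S x h.hS h.hA h.hx (s i) hi
    have h2 : Nat.card G ≤ 2 * b * σ := by
      refine h1.trans ?_
      exact Nat.mul_le_mul (Nat.mul_le_mul_left 2 h.hAi) h.hSc
    exact_mod_cast h2
  · right
    set y : G := s iy with hydef
    let f : G →* G ⧸ S := QuotientGroup.mk' S
    let P : Subgroup G := (Subgroup.zpowers (f y)).comap f
    have hf : Function.Surjective f := QuotientGroup.mk'_surjective S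
    have hmemP : ∀ p, p ∈ P ↔ f p ∈ Subgroup.zpowers (f y) := fun p => Iff.rfl
    have hSP : S ≤ P := by
      intro p hp
      rw [hmemP]
      have : f p = 1 := (QuotientGroup.eq_one_iff p).2 hp
      rw [this]
      exact Subgroup.one_mem _
    have hyP : y ∈ P := by
      rw [hmemP]
      exact Subgroup.mem_zpowers _
    have hidx : P.index = 2 := by
      have h1 : P.index = (Subgroup.zpowers (f y)).index := Subgroup.index_comap_of_surjective _ hf
      have h2 : Nat.card (Subgroup.zpowers (f y)) * (Subgroup.zpowers (f y)).index = Nat.card (G ⧸ S) :=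
        Subgroup.card_mul_index _
      have h3 : Nat.card (Subgroup.zpowers (f y)) = od S y := by
        rw [Nat.card_zpowers]
        exact od_mk S y
      have h4 : Nat.card (G ⧸ S) = S.index := rfl
      rw [h3, h4, ← hky] at h2
      have h5 : 0 < od S y := od_pos S y
      rw [h1]
      have h6 : od S y * (Subgroup.zpowers (f y)).index = od S y * 2 := by rw [h2]; ring
      exact Nat.eq_of_mul_eq_mul_left h5 h6
    have hPn : P.Normal := Subgroup.normal_of_index_eq_two hidx
    have hjS : ∀ j, j ≠ i₁ → j ≠ i₂ → j ≠ iy → s j ∈ S := by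
      intro j h1 h2 h3
      have h4 := od_mem S (s j)
      rw [hkj j h1 h2 h3, pow_one] at h4
      exact h4
    have hjP : ∀ j, j ≠ i₁ → j ≠ i₂ → s j ∈ P := by
      intro j h1 h2
      by_cases h3 : j = iy
      · rw [h3]; exact hyP
      · exact hSP (hjS j h1 h2 h3)
    have hn1 : s i₁ ∉ P := both s h.tup P hidx i₁ i₂ hjP
    have hn2 : s i₂ ∉ P := both s h.tup P hidx i₂ i₁ (fun j a c => hjP j c a)
    refine ⟨P, i₁, i₂, iy, ?_⟩
    refine
      { red := h
        hP := hPn
        hSP := hSP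
        h12 := h12
        h1y := h1y
        h2y := h2y
        h1 := hn1
        h2 := hn2
        o1 := hk1
        o2 := hk2
        oy := ?_
        hj := hjS
        hPi := hidx
        hPy := ?_
        hy := hyP
        hV := hV
        hcz := ?_ }
    · rw [← hmul, ← hky]; ring
    · intro p hp
      rw [hmemP] at hp
      have h1 : f p ∈ Submonoid.powers (f y) := mem_powers_iff_mem_zpowers.2 hp
      obtain ⟨k, hk⟩ := h1
      refine ⟨k, ?_⟩
      have h2 : f (p * (y ^ k)⁻¹) = 1 := by
        have hk' : f y ^ k = f p := hk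
        rw [map_mul, map_inv, map_pow, hk', mul_inv_cancel]
      exact (QuotientGroup.eq_one_iff _).1 h2
    · intro g hg
      have hgS : g ∉ S := fun h' => hg (hSP h')
      obtain ⟨i, ⟨z, k, hk, hz⟩, hcz⟩ := VQ_cz s S h.hS g hgS (by rw [hV g]; simp)
      rw [hV g] at hcz
      simp only [Complex.zero_re, mul_zero, sub_zero] at hcz
      have hnotP : s i ∉ P := by
        intro hiP
        have h1 : z⁻¹ * (g * k) * z ∈ P := by
          have : Subgroup.zpowers (s i) ≤ P := by
            rw [Subgroup.zpowers_le]; exact hiP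
          exact this hz
        have h2 : z * (z⁻¹ * (g * k) * z) * z⁻¹ ∈ P := hPn.conj_mem _ h1 z
        have h3 : z * (z⁻¹ * (g * k) * z) * z⁻¹ = g * k := by group
        rw [h3] at h2
        exact hg ((P.mul_mem_cancel_right (hSP hk)).1 h2)
      have hod : od S (s i) = 2 := by
        by_cases e1 : i = i₁
        · rw [e1]; exact hk1
        · by_cases e2 : i = i₂
          · rw [e2]; exact hk2
          · exact absurd (hjP i e1 e2) hnotP
      have hord : orderOf (s i) ≤ 2 * σ := by
        have h1 := od_mul S (s i)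
        have h2 := od_mem S (s i)
        rw [hod] at h1 h2
        have h3 : orderOf (s i ^ 2) ≤ Nat.card S := by
          have h4 : orderOf (⟨s i ^ 2, h2⟩ : S) ∣ Nat.card S := orderOf_dvd_natCard _
          rw [Subgroup.orderOf_mk] at h4
          exact Nat.le_of_dvd hSpos h4
        rw [← h1]
        exact Nat.mul_le_mul_left 2 (h3.trans h.hSc)
      have h5 : (Nat.card S : ℝ) ≤ σ := by exact_mod_cast h.hSc
      have h6 : (orderOf (s i) : ℝ) ≤ 2 * σ := by exact_mod_cast hord
      have h7 : (0 : ℝ) ≤ Nat.card S := by positivity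
      have h8 : (0 : ℝ) ≤ orderOf (s i) := by positivity
      have h9 : (0 : ℝ) ≤ σ := by positivity
      calc cz g ≤ Nat.card S * orderOf (s i) * 2 := hcz
        _ ≤ σ * (2 * σ) * 2 := by
            have : (Nat.card S : ℝ) * orderOf (s i) ≤ σ * (2 * σ) := mul_le_mul h5 h6 h8 h9
            linarith
        _ = 4 * (σ : ℝ) ^ 2 := by ring

/-- `ν_P = 1` -/
theorem nuP_D {b σ : ℕ} {N : ℕ} {s : Fin N → G} {A S : Subgroup G} {x : G} {P : Subgroup G} {i₁ i₂ iy : Fin N}
    (h : CD b σ s A S x P i₁ i₂ iy) : nuM P s = 1 := by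
  have htwo : ∀ i, s i ∉ P → od P (s i) = 2 := by
    intro i hi
    have h1 : s i ^ 2 ∈ P := by
      have h2 := Subgroup.mul_mem_iff_of_index_two h.hPi (a := s i) (b := s i)
      rw [pow_two]
      exact h2.2 Iff.rfl
    have h2 : od P (s i) ∣ 2 := (od_dvd P (s i) 2).1 h1
    have h3 : od P (s i) ≠ 1 := by
      intro h4
      apply hi
      have h5 := od_mem P (s i)
      rwa [h4, pow_one] at h5
    rcases (Nat.dvd_prime Nat.prime_two).1 h2 with h6 | h6
    · exact absurd h6 h3
    · exact h6
  have hone : ∀ i, s i ∈ P → od P (s i) = 1 := by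
    intro i hi
    have h1 : od P (s i) ∣ 1 := (od_dvd P (s i) 1).1 (by rwa [pow_one])
    exact Nat.dvd_one.1 h1
  unfold nuM
  rw [Fintype.sum_eq_add i₁ i₂ h.h12, htwo i₁ h.h1, htwo i₂ h.h2]
  · norm_num
  · rintro j ⟨h1, h2⟩
    have hjP : s j ∈ P := by
      by_cases h3 : j = iy
      · rw [h3]; exact h.hy
      · exact h.hSP (h.hj j h1 h2 h3)
    rw [hone j hjP]
    norm_num

/-- there is a fourth index -/
theorem exists_j {b σ : ℕ} {N : ℕ} {s : Fin N → G} {A S : Subgroup G} {x : G} {P : Subgroup G} {i₁ i₂ iy : Fin N}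
    (h : CD b σ s A S x P i₁ i₂ iy) : ∃ j, j ≠ i₁ ∧ j ≠ i₂ ∧ j ≠ iy := by
  classical
  by_contra hno
  push Not at hno
  have h1 : (Finset.univ : Finset (Fin N)) ⊆ {i₁, i₂, iy} := by
    intro j _
    simp only [Finset.mem_insert, Finset.mem_singleton]
    by_cases a : j = i₁
    · exact Or.inl a
    · by_cases c : j = i₂
      · exact Or.inr (Or.inl c)
      · exact Or.inr (Or.inr (hno j a c))
  have h2 := Finset.card_le_card h1
  have h3 : ({i₁, i₂, iy} : Finset (Fin N)).card ≤ 3 := Finset.card_le_three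
  rw [Finset.card_univ, Fintype.card_fin] at h2
  rcases h.red.hN with h4 | h4 <;> omega


end Pool.Agent.H82.FIN
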