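import Pool.Agent.H82.FIN.VQb
import Pool.Agent.H82.FIN.Fix
import Pool.Agent.H82.FIN.ArE
import Pool.Agent.H82.FIN.Od

set_option autoImplicit false

/-!
PROJECT FIN (MP_bf82d2_ag, Finiteness; note 6077), module SetE.
Setting of case E.
PROOF. `VQ_two`: `V = VQ S s` is multiplicative, `V 1 = 1`, so `|V g| = 1`.  `P = {g | V g = 1}`: normal, contains `S` (`VQ_S`).
`od P (s i) = od S (s i)`: `q = od P (s i)`, `V (s i ^ q) = 1`; if `s i ^ q ∉ S`, `VQ_free` (`x = 1`) is a contradiction.  `euc`.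
`g ∉ P`: `Re V g ≠ 1` (`|V g| = 1`), `g ∉ S`, `VQ_cz`: `cz g ≤ |S| orderOf (s i) * 4`, `orderOf (s i) = od S (s i) * orderOf (s i ^ od)
≤ 12 σ` (`od_mul`; an element of `S` has order `≤ |S|`).  `index_two`, `index_le`: `V` maps `G` onto a finite group of roots
of unity isomorphic to `G / P`; if all `V (s i)^2 = 1` then `V g^2 = 1` for all `g` (`s i` generate) and `G / P` has at most `2`
elements; in general `V g^12 = 1` and at most `12`; `P ≠ ⊤`.
-/

namespace Pool.Agent.H82.FIN

open Finset Module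
open Pool.Agent.H93.Hup (Inv MinInv)
open Pool.Agent.H52.VC (lam subR)
open Pool.Agent.H82.CO (chi quadInv genus nu eps zeta)

variable {G : Type} [Group G] [Fintype G]

private theorem norm_one_E (V : G →* ℂ) (g : G) : ‖V g‖ = 1 := by
  have h1 : V g ^ orderOf g = 1 := by
    rw [← map_pow, pow_orderOf_eq_one, map_one]
  have h2 : ‖V g‖ ^ orderOf g = 1 := by rw [← norm_pow, h1, norm_one]
  exact (pow_eq_one_iff_of_nonneg (norm_nonneg _) (orderOf_pos g).ne').1 h2

private theorem eq_one_E (z : ℂ) (h1 : ‖z‖ = 1) (h2 : z.re = 1) : z = 1 := by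
  have h3 : z.re * z.re + z.im * z.im = 1 := by
    have h4 := Complex.normSq_eq_norm_sq z
    rw [h1, Complex.normSq_apply] at h4
    rw [h4]; norm_num
  have h5 : z.im = 0 := by
    rw [h2] at h3
    have h6 : z.im * z.im = 0 := by linarith
    exact mul_self_eq_zero.1 h6
  apply Complex.ext
  · rw [h2, Complex.one_re]
  · rw [h5, Complex.one_im]

private theorem order_E {b σ : ℕ} {N : ℕ} {s : Fin N → G} {A S : Subgroup G} {x : G} (h : Red b σ s A S x) (i : Fin N)
    (hd : od S (s i) ∣ 12) : orderOf (s i) ≤ 12 * σ := by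
  have hSpos : 0 < Nat.card S := Nat.card_pos
  have h1 := od_mul S (s i)
  have h2 := od_mem S (s i)
  have h3 : orderOf (s i ^ od S (s i)) ≤ Nat.card S := by
    have h4 : orderOf (⟨s i ^ od S (s i), h2⟩ : S) ∣ Nat.card S := orderOf_dvd_natCard _
    rw [Subgroup.orderOf_mk] at h4
    exact Nat.le_of_dvd hSpos h4
  rw [← h1]
  exact Nat.mul_le_mul (Nat.le_of_dvd (by norm_num) hd) (h3.trans h.hSc)

theorem set_E (b σ : ℕ) {N : ℕ} (s : Fin N → G) (A S : Subgroup G) (x : G) (h : Red b σ s A S x) (hnu : nuM S s = 2) :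
    ∃ P : Subgroup G, CE b σ s A S x P := by
  classical
  obtain ⟨hm, h1, hne⟩ : (∀ g h, VQ S s (g * h) = VQ S s g * VQ S s h) ∧ VQ S s 1 = 1 ∧ ∃ g, VQ S s g ≠ 1 := by
    rcases VQ_two s h.tup S h.hS h.hnu with ⟨_, h1⟩ | ⟨h1, _⟩
    · exact h1
    · exact absurd hnu h1.ne
  let V : G →* ℂ := { toFun := VQ S s, map_one' := h1, map_mul' := hm }
  have hVV : ∀ g, V g = VQ S s g := fun _ => rfl
  let P : Subgroup G := V.ker
  have hmem : ∀ g, VQ S s g = 1 ↔ g ∈ P := fun g => Iff.rfl
  have hSP : S ≤ P := by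
    intro g hg
    rw [← hmem]
    have h2 := VQ_S s S 1 g hg
    rw [one_mul] at h2
    rw [h2, h1]
  have hod : ∀ i, od P (s i) = od S (s i) := by
    intro i
    apply Nat.dvd_antisymm (od_le P S hSP (s i))
    refine (od_dvd S (s i) _).1 ?_
    by_contra hcon
    have h2 : VQ S s (s i ^ od P (s i)) = 1 := (hmem _).2 (od_mem P (s i))
    refine VQ_free s S h.hS _ hcon (by rw [h2, Complex.one_re]) i 1 ?_
    rw [inv_one, one_mul, mul_one]
    exact Subgroup.pow_mem _ (Subgroup.mem_zpowers _) _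
  have h12 : ∀ i, od S (s i) ∣ 12 := euc N h.hN (fun i => od S (s i)) (fun i => od_pos S (s i)) hnu
  refine ⟨P, ?_⟩
  refine
    { red := h
      hP := MonoidHom.normal_ker V
      hSP := hSP
      hV := hmem
      hVm := hm
      hPt := ?_
      hod := hod
      h12 := h12
      hnu := ?_
      hcz := ?_ }
  · intro hcon
    obtain ⟨g, hg⟩ := hne
    apply hg
    rw [hmem, hcon]
    exact Subgroup.mem_top g
  · rw [← hnu]
    unfold nuM
    exact sum_congr rfl fun i _ => by rw [hod i]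
  · intro g hg
    have hgS : g ∉ S := fun h' => hg (hSP h')
    have hn : ‖VQ S s g‖ = 1 := norm_one_E V g
    obtain ⟨i, _, hcz⟩ := VQ_cz s S h.hS g hgS (fun h2 => hg ((hmem g).1 (eq_one_E _ hn h2)))
    have h2 : -1 ≤ (VQ S s g).re := by
      have h3 := Complex.abs_re_le_norm (VQ S s g)
      rw [hn] at h3
      exact (abs_le.1 h3).1
    have h5 : (Nat.card S : ℝ) ≤ σ := by exact_mod_cast h.hSc
    have h6 : (orderOf (s i) : ℝ) ≤ 12 * σ := by exact_mod_cast order_E h i (h12 i)
    have h8 : (0 : ℝ) ≤ orderOf (s i) := by positivity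
    have h9 : (0 : ℝ) ≤ σ := by positivity
    have h10 : (0 : ℝ) ≤ Nat.card S := by positivity
    calc cz g ≤ Nat.card S * orderOf (s i) * (2 - 2 * (VQ S s g).re) := hcz
      _ ≤ Nat.card S * orderOf (s i) * 4 := mul_le_mul_of_nonneg_left (by linarith) (mul_nonneg h10 h8)
      _ ≤ σ * (12 * σ) * 4 := by
          have : (Nat.card S : ℝ) * orderOf (s i) ≤ σ * (12 * σ) := mul_le_mul h5 h6 h8 h9
          linarith
      _ = 48 * (σ : ℝ) ^ 2 := by ring

private theorem index_E {b σ : ℕ} {N : ℕ} {s : Fin N → G} {A S : Subgroup G} {x : G} {P : Subgroup G}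
    (h : CE b σ s A S x P) (n : ℕ) (hn : 0 < n) (hd : ∀ i, od S (s i) ∣ n) : P.index ≤ n := by
  classical
  have : NeZero n := ⟨hn.ne'⟩
  let V : G →* ℂ := { toFun := VQ S s, map_one' := (h.hV 1).2 P.one_mem, map_mul' := h.hVm }
  have hpow : ∀ g : G, V g ^ n = 1 := by
    have key : ∀ g ∈ Subgroup.closure (Set.range s), V g ^ n = 1 := by
      intro g hg
      induction hg using Subgroup.closure_induction with
      | mem y hy =>
        obtain ⟨i, rfl⟩ := hy
        rw [← map_pow]
        exact (h.hV _).2 (h.hSP ((od_dvd S (s i) n).2 (hd i)))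
      | one => rw [map_one, one_pow]
      | mul a c _ _ ha hc => rw [map_mul, mul_pow, ha, hc, one_mul]
      | inv a _ ha =>
        have h2 : V a⁻¹ * V a = 1 := by rw [← map_mul, inv_mul_cancel, map_one]
        have h3 : (V a⁻¹ * V a) ^ n = 1 := by rw [h2, one_pow]
        rw [mul_pow, ha, mul_one] at h3
        exact h3
    intro g
    exact key g (by rw [h.red.tup.gen]; exact Subgroup.mem_top g)
  let W : G →* ℂˣ := V.toHomUnits
  have hW : ∀ g, ((W g : ℂˣ) : ℂ) = V g := fun g => rfl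
  have hker : W.ker = P := by
    ext g
    rw [MonoidHom.mem_ker, ← h.hV g]
    constructor
    · intro h2
      have h3 := hW g
      rw [h2] at h3
      exact h3.symm
    · intro h2
      apply Units.ext
      rw [hW g]
      exact h2
  have hle : W.range ≤ rootsOfUnity n ℂ := by
    rintro _ ⟨g, rfl⟩
    rw [mem_rootsOfUnity]
    apply Units.ext
    rw [Units.val_pow_eq_pow_val, hW g, hpow g, Units.val_one]
  have hcard : Nat.card (rootsOfUnity n ℂ) = n := Complex.card_rootsOfUnity n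
  have h1 : Nat.card W.range ∣ Nat.card (rootsOfUnity n ℂ) := Subgroup.card_dvd_of_le hle
  rw [hcard, ← Subgroup.index_ker, hker] at h1
  exact Nat.le_of_dvd hn h1

private theorem two_le_E {b σ : ℕ} {N : ℕ} {s : Fin N → G} {A S : Subgroup G} {x : G} {P : Subgroup G}
    (h : CE b σ s A S x P) : 2 ≤ P.index := by
  have h1 : P.index ≠ 1 := fun h2 => h.hPt (Subgroup.index_eq_one.1 h2)
  have h2 : P.index ≠ 0 := Subgroup.index_ne_zero_of_finite
  omega

theorem index_le {b σ : ℕ} {N : ℕ} {s : Fin N → G} {A S : Subgroup G} {x : G} {P : Subgroup G} (h : CE b σ s A S x P) :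
    P.index ≤ 12 ∧ 2 ≤ P.index := by
  exact ⟨index_E h 12 (by norm_num) h.h12, two_le_E h⟩

theorem index_two {b σ : ℕ} {N : ℕ} {s : Fin N → G} {A S : Subgroup G} {x : G} {P : Subgroup G} (h : CE b σ s A S x P)
    (h2 : ∀ i, od S (s i) ∣ 2) : P.index = 2 := by
  exact le_antisymm (index_E h 2 (by norm_num) h2) (two_le_E h)


end Pool.Agent.H82.FIN
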