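import Pool.Agent.H82.FIN.Defs
import Pool.Agent.H81.FIN.Inv4

set_option autoImplicit false

/-!
PROJECT FIN (MP_bf82d2_ag, Finiteness; note 6077), module Tri.
Three involutions (group theory; note 6077 (E4)).
PROOF. `u = p q`, `v = q r`; `q` inverts `u` and `v`; `p q r = u q v` (`q q = 1`), so `z = (u q v)^2 = u v⁻¹ u⁻¹ v`: `u`, `v`
commute up to the central `z` of order at most `2`.  `M = {u^i v^j z^l}` is a subgroup, `M ∪ q M` contains `p = u q = q u⁻¹`, `q`, `r = q v` and is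
closed under multiplication by them: it is `G`; `M ≤ P` (`u, v, z ∈ P`: index `2`), `q ∉ P`, so `P = M` and the complement of `P` is
`q M`.  `(q u^i v^j z^l)^2 = u^(-i) v^(-j) u^i v^j = z^(i j)`.  So for `g ∉ P`: `g^2 = 1` or `(g u)^2 = 1` (`g u = q u^(i+1) v^j z^(l')`).
`g ↦ g u` is a bijection of the complement of `P`, which has `|P|` elements.
-/

namespace Pool.Agent.H82.FIN

open Finset Module
open Pool.Agent.H93.Hup (Inv MinInv)
open Pool.Agent.H52.VC (lam subR)
open Pool.Agent.H82.CO (chi quadInv genus nu eps zeta)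

variable {G : Type} [Group G] [Fintype G]

theorem three_inv (p q r z : G) (hp : p ^ 2 = 1) (hq : q ^ 2 = 1) (hr : r ^ 2 = 1) (hz : ∀ g, z * g = g * z)
    (hz2 : z ^ 2 = 1) (hpqr : (p * q * r) ^ 2 = z) (hgen : Subgroup.closure {p, q, r} = ⊤) (P : Subgroup G)
    (hP : P.index = 2) (hpP : p ∉ P) (hqP : q ∉ P) (hrP : r ∉ P) :
    (Nat.card P : ℝ) ≤ 2 * (Nat.card {h : G // h ^ 2 = 1} : ℝ) := by
  have h1 := Pool.Agent.H81.FIN.card_le_four_mul (z := z) hp hq hr hz2 (fun g => (hz g).symm) hpqr hgen P hP hpP hqP hrP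
  have h2 := P.card_mul_index
  rw [hP] at h2
  have h3 : Nat.card P ≤ 2 * Nat.card {h : G // h ^ 2 = 1} := by omega
  exact_mod_cast h3


end Pool.Agent.H82.FIN
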